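import Mathlib
open MeasureTheory Metric Set Filter Topology
open scoped ENNReal ComplexOrder
noncomputable section
namespace CMAL

/-- complex Euclidean space -/
abbrev EC (n : ℕ) := EuclideanSpace ℂ (Fin n)

/-- real second derivative -/
def D2 {n : ℕ} (f : EC n → ℝ) (z : EC n) : EC n →L[ℝ] EC n →L[ℝ] ℝ := fderiv ℝ (fderiv ℝ f) z

/-- Levi form `∑ f_{i \bar j} ξ_i \bar ξ_j`. -/
def levi {n : ℕ} (f : EC n → ℝ) (z ξ : EC n) : ℝ :=
  (1 / 4) * (D2 f z ξ ξ + D2 f z (Complex.I • ξ) (Complex.I • ξ))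

/-- standard basis vector -/
def bv {n : ℕ} (k : Fin n) : EC n := EuclideanSpace.single k (1 : ℂ)

/-- the operator `∑_k levi f z (P e_k)` -/
def Lop {n : ℕ} (P : EC n →ₗ[ℂ] EC n) (f : EC n → ℝ) (z : EC n) : ℝ := ∑ k : Fin n, levi f z (P (bv k))

/-- circle average of `u` over `z + e^{iθ} τ` -/
def cav {n : ℕ} (u : EC n → ℝ) (τ z : EC n) : ℝ :=
  (2 * Real.pi)⁻¹ * ∫ θ in (0:ℝ)..(2 * Real.pi), u (z + Complex.exp (θ * Complex.I) • τ)

/-- Riesz map: `ℓ ↦ ∑_k ℓ(e_k) e_k + ℓ(i e_k) i e_k` -/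
def rz {n : ℕ} : (EC n →L[ℝ] ℝ) →L[ℝ] EC n :=
  ∑ k : Fin n, ((ContinuousLinearMap.apply ℝ ℝ (bv k : EC n)).smulRight (bv k)
    + (ContinuousLinearMap.apply ℝ ℝ (Complex.I • bv k : EC n)).smulRight (Complex.I • bv k))


end CMAL
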