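import Mathlib
import Pool.Agent.Helper706.CMA.Base
open MeasureTheory Metric Set Filter Topology
open scoped ENNReal ComplexOrder
noncomputable section
namespace CMAL



private theorem psd_det_le {ι : Type*} [Fintype ι] [DecidableEq ι] [Nonempty ι] (A : Matrix ι ι ℝ)
    (hA : A.PosSemidef) : A.det ≤ (A.trace / Fintype.card ι) ^ Fintype.card ι := by
  have hdet : A.det = ∏ i, hA.1.eigenvalues i := by
    have := hA.1.det_eq_prod_eigenvalues
    simpa using this
  have htr : A.trace = ∑ i, hA.1.eigenvalues i := by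
    have := hA.1.trace_eq_sum_eigenvalues
    simpa using this
  have hnn : ∀ i, 0 ≤ hA.1.eigenvalues i := fun i => hA.eigenvalues_nonneg i
  have hN : (0 : ℝ) < Fintype.card ι := by exact_mod_cast Fintype.card_pos
  have hN' : (Fintype.card ι : ℝ) ≠ 0 := hN.ne'
  have key := Real.geom_mean_le_arith_mean_weighted (Finset.univ : Finset ι)
    (fun _ => (Fintype.card ι : ℝ)⁻¹) hA.1.eigenvalues (fun _ _ => by positivity)
    (by simp [hN']) (fun i _ => hnn i)
  rw [← Finset.mul_sum, Real.finsetProd_rpow _ _ (fun i _ => hnn i)] at key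
  rw [hdet, htr]
  have hp : 0 ≤ ∏ i, hA.1.eigenvalues i := Finset.prod_nonneg fun i _ => hnn i
  calc ∏ i, hA.1.eigenvalues i = ((∏ i, hA.1.eigenvalues i) ^ ((Fintype.card ι : ℝ)⁻¹)) ^ Fintype.card ι := by
        rw [← Real.rpow_natCast, ← Real.rpow_mul hp, inv_mul_cancel₀ hN', Real.rpow_one]
    _ ≤ ((Fintype.card ι : ℝ)⁻¹ * ∑ i, hA.1.eigenvalues i) ^ Fintype.card ι := by
        gcongr
    _ = _ := by rw [mul_comm, div_eq_mul_inv]

/-- the real basis -/
private def rB (n : ℕ) : Module.Basis (Fin 2 × Fin n) ℝ (EC n) :=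
  Complex.basisOneI.smulTower (EuclideanSpace.basisFun (Fin n) ℂ).toBasis

private theorem rB_zero {n : ℕ} (k : Fin n) : rB n (0, k) = bv k := by
  simp [rB, bv, Module.Basis.smulTower_apply]

private theorem rB_one {n : ℕ} (k : Fin n) : rB n (1, k) = Complex.I • bv k := by
  simp [rB, bv, Module.Basis.smulTower_apply]

private theorem rB_sum {n : ℕ} {M : Type*} [AddCommMonoid M] (g : EC n → M) :
    ∑ i, g (rB n i) = ∑ k : Fin n, (g (bv k) + g (Complex.I • bv k)) := by
  rw [Fintype.sum_prod_type, Fin.sum_univ_two, ← Finset.sum_add_distrib]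
  simp only [rB_zero, rB_one]

private theorem rz_apply {n : ℕ} (l : EC n →L[ℝ] ℝ) : rz l = ∑ i, l (rB n i) • rB n i := by
  rw [rB_sum (fun v => l v • v)]
  simp [rz, ContinuousLinearMap.sum_apply]

/-- J2: determinant of a nonneg real symmetric form bounded by its trace in a complex frame -/
theorem det_le_of_trace {n : ℕ} (hn : 0 < n) (S : EC n →L[ℝ] EC n →L[ℝ] ℝ)
    (hsym : ∀ x y, S x y = S y x) (hpos : ∀ x, 0 ≤ S x x)
    (P : EC n →ₗ[ℂ] EC n) (hP : ‖LinearMap.det P‖ = 1) (t : ℝ)
    (ht : ∑ k : Fin n, (S (P (bv k)) (P (bv k)) + S (Complex.I • P (bv k)) (Complex.I • P (bv k))) ≤ t) :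
    |(rz.comp S).det| ≤ (t / (2 * n)) ^ (2 * n) := by
  classical
  set A : Matrix (Fin 2 × Fin n) (Fin 2 × Fin n) ℝ := Matrix.of fun i j => S (rB n i) (rB n j) with hA
  have hquad : ∀ (v : Fin 2 × Fin n → EC n) (x : Fin 2 × Fin n → ℝ),
      x ⬝ᵥ (Matrix.mulVec (Matrix.of fun i j => S (v i) (v j)) x) =
        S (∑ i, x i • v i) (∑ i, x i • v i) := by
    intro v x
    simp only [dotProduct, Matrix.mulVec, Matrix.of_apply, map_sum, map_smul,
      ContinuousLinearMap.sum_apply, ContinuousLinearMap.smul_apply, smul_eq_mul]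
    refine Finset.sum_congr rfl fun i _ => ?_
    congr 1
    refine Finset.sum_congr rfl fun j _ => ?_
    rw [hsym (v i) (v j)]
    ring
  have hpsd : ∀ (v : Fin 2 × Fin n → EC n), (Matrix.of fun i j => S (v i) (v j) :
      Matrix (Fin 2 × Fin n) (Fin 2 × Fin n) ℝ).PosSemidef := by
    intro v
    refine Matrix.PosSemidef.of_dotProduct_mulVec_nonneg ?_ fun x => ?_
    · ext i j
      simp [hsym (v i) (v j)]
    · rw [star_trivial, hquad]
      exact hpos _
  have hdetA : (rz.comp S).det = A.det := by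
    rw [ContinuousLinearMap.det, ← LinearMap.det_toMatrix (rB n)]
    congr 1
    ext i j
    rw [LinearMap.toMatrix_apply]
    simp only [ContinuousLinearMap.coe_coe, ContinuousLinearMap.comp_apply]
    rw [rz_apply]
    simp [Finsupp.single_apply, hA, hsym (rB n j) (rB n i)]
  set PR : EC n →ₗ[ℝ] EC n := P.restrictScalars ℝ with hPR
  set M : Matrix (Fin 2 × Fin n) (Fin 2 × Fin n) ℝ := LinearMap.toMatrix (rB n) (rB n) PR with hM
  have hdetM : M.det ^ 2 = 1 := by
    rw [hM, LinearMap.det_toMatrix, hPR, LinearMap.det_restrictScalars, Algebra.norm_complex_apply,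
      Complex.normSq_eq_norm_sq, hP]
    norm_num
  have hPb : ∀ j, P (rB n j) = ∑ i, M i j • rB n i := by
    intro j
    have := (rB n).sum_repr (PR (rB n j))
    rw [hPR, LinearMap.restrictScalars_apply] at this
    rw [← this]
    refine Finset.sum_congr rfl fun i _ => ?_
    rw [hM, LinearMap.toMatrix_apply]
    rfl
  have hA' : Matrix.of (fun i j => S (P (rB n i)) (P (rB n j))) = M.transpose * A * M := by
    ext i j
    simp only [Matrix.of_apply, Matrix.mul_apply, Matrix.transpose_apply, hPb, map_sum, map_smul,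
      ContinuousLinearMap.sum_apply, ContinuousLinearMap.smul_apply, smul_eq_mul, hA]
    refine Finset.sum_congr rfl fun l _ => ?_
    rw [Finset.sum_mul, Finset.mul_sum]
    refine Finset.sum_congr rfl fun m _ => ?_
    ring
  have hdet' : (Matrix.of (fun i j => S (P (rB n i)) (P (rB n j)))).det = A.det := by
    rw [hA', Matrix.det_mul, Matrix.det_mul, Matrix.det_transpose]
    linear_combination A.det * hdetM
  haveI : Nonempty (Fin 2 × Fin n) := ⟨(0, ⟨0, hn⟩)⟩
  have hmain := psd_det_le _ (hpsd fun i => P (rB n i))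
  rw [hdet'] at hmain
  have hcard : Fintype.card (Fin 2 × Fin n) = 2 * n := by simp
  rw [hcard] at hmain
  have htr : (Matrix.of (fun i j => S (P (rB n i)) (P (rB n j)))).trace ≤ t := by
    refine le_trans (le_of_eq ?_) ht
    rw [Matrix.trace]
    simp only [Matrix.diag_apply, Matrix.of_apply]
    rw [rB_sum (fun v => S (P v) (P v))]
    simp only [map_smul]
  have htr0 : 0 ≤ (Matrix.of (fun i j => S (P (rB n i)) (P (rB n j)))).trace := by
    rw [Matrix.trace]
    exact Finset.sum_nonneg fun i _ => hpos _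
  have hdet0 : 0 ≤ A.det := by
    have := (hpsd (rB n)).det_nonneg
    exact this
  rw [hdetA, abs_of_nonneg hdet0]
  refine hmain.trans ?_
  have hcast : ((2 * n : ℕ) : ℝ) = 2 * n := by push_cast; ring
  rw [hcast]
  gcongr

end CMAL
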