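import Mathlib
import Pool.Agent.Helper706.CMA.Base
import Pool.Agent.Helper706.CMA.DetTrace
open MeasureTheory Metric Set Filter Topology
open scoped ENNReal ComplexOrder
noncomputable section
namespace CMAL




private theorem abp_sod {n : ℕ} {f : EC n → ℝ} (hf : ContDiff ℝ 2 f) (x ξ : EC n) (h : IsLocalMax f x) :
    D2 f x ξ ξ ≤ 0 := by
  by_contra hcon
  push Not at hcon
  have hline : ∀ t : ℝ, HasDerivAt (fun t : ℝ => x + t • ξ) ξ t := by
    intro t
    have := ((hasDerivAt_id t).smul_const ξ).const_add x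
    simpa using this
  have hd1 : ∀ t : ℝ, HasDerivAt (fun t : ℝ => f (x + t • ξ)) (fderiv ℝ f (x + t • ξ) ξ) t := by
    intro t
    have h1 : HasFDerivAt f (fderiv ℝ f (x + t • ξ)) (x + t • ξ) :=
      (hf.differentiable (by norm_num) _).hasFDerivAt
    exact h1.comp_hasDerivAt t (hline t)
  have hderiv : deriv (fun t : ℝ => f (x + t • ξ)) = fun t => fderiv ℝ f (x + t • ξ) ξ := by
    funext t
    exact (hd1 t).deriv
  have hf1 : ContDiff ℝ 1 (fderiv ℝ f) := hf.fderiv_right (by norm_num)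
  have hd2 : HasDerivAt (fun t : ℝ => fderiv ℝ f (x + t • ξ) ξ) (D2 f x ξ ξ) 0 := by
    have h0 : x + (0:ℝ) • ξ = x := by simp
    have h1 : HasFDerivAt (fderiv ℝ f) (D2 f x) (x + (0:ℝ) • ξ) := by
      rw [h0]
      exact (hf1.differentiable (by norm_num) _).hasFDerivAt
    have h2 := h1.comp_hasDerivAt (0:ℝ) (hline 0)
    have h3 := h2.clm_apply (hasDerivAt_const (0:ℝ) ξ)
    simpa using h3
  have hdd : deriv (deriv (fun t : ℝ => f (x + t • ξ))) 0 = D2 f x ξ ξ := by
    rw [hderiv]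
    exact hd2.deriv
  have hmax : IsLocalMax (fun t : ℝ => f (x + t • ξ)) 0 := by
    have hc : ContinuousAt (fun t : ℝ => x + t • ξ) 0 := (hline 0).continuousAt
    have h0 : x + (0:ℝ) • ξ = x := by simp
    have h1 : Tendsto (fun t : ℝ => x + t • ξ) (𝓝 0) (𝓝 x) := by
      have := hc.tendsto
      rwa [h0] at this
    have h2 := h1.eventually h
    show ∀ᶠ t in 𝓝 (0:ℝ), f (x + t • ξ) ≤ f (x + (0:ℝ) • ξ)
    rw [h0]
    exact h2
  have hd0 : deriv (fun t : ℝ => f (x + t • ξ)) 0 = 0 := hmax.deriv_eq_zero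
  have hmin : IsLocalMin (fun t : ℝ => f (x + t • ξ)) 0 :=
    isLocalMin_of_deriv_deriv_pos (by rw [hdd]; exact hcon) hd0 (hd1 0).continuousAt
  have hconst : (fun t : ℝ => f (x + t • ξ)) =ᶠ[𝓝 0] fun _ => f (x + (0:ℝ) • ξ) := by
    filter_upwards [hmax, hmin] with t h1 h2
    exact le_antisymm h1 h2
  have h1 := hconst.deriv
  have h2 := h1.deriv_eq
  rw [hdd] at h2
  simp at h2
  rw [h2] at hcon
  exact lt_irrefl _ hcon

/-- the functional `x ↦ Re ⟨p, x⟩` -/
private def abp_l {n : ℕ} (p : EC n) : EC n →L[ℝ] ℝ :=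
  Complex.reCLM.comp ((innerSL ℂ p).restrictScalars ℝ)

private theorem abp_l_apply {n : ℕ} (p x : EC n) : abp_l p x = (inner ℂ p x : ℂ).re := rfl

private theorem abp_l_le {n : ℕ} (p x : EC n) : |abp_l p x| ≤ ‖p‖ * ‖x‖ := by
  rw [abp_l_apply]
  exact (Complex.abs_re_le_norm _).trans (norm_inner_le_norm p x)

private theorem abp_rz {n : ℕ} (p : EC n) : rz (abp_l p) = p := by
  unfold rz
  ext j
  simp only [sum_apply, add_apply,
    ContinuousLinearMap.smulRight_apply, ContinuousLinearMap.apply_apply, abp_l_apply, bv]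
  rw [WithLp.ofLp_sum, Finset.sum_apply]
  rw [Finset.sum_eq_single j]
  · simp [EuclideanSpace.inner_single_right, inner_smul_right, Complex.ext_iff]
  · intro k _ hk
    simp [hk.symm]
  · intro h
    exact absurd (Finset.mem_univ j) h

private theorem abp_claim {n : ℕ} (v : EC n → ℝ) (hv : ContDiff ℝ 2 v) (D : Set (EC n)) (hD : IsOpen D)
    (d : ℝ) (hd : 0 < d)
    (hdiam : ∀ x ∈ D, ∀ y ∈ D, dist x y ≤ d) (hb : ∀ x ∈ frontier D, v x ≤ 0)
    (z0 : EC n) (hz0 : z0 ∈ D) (σ : ℝ) (hσ : 0 < σ) (hvz : σ ≤ v z0) (p : EC n)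
    (hp : ‖p‖ < σ / d) :
    ∃ x ∈ D, 0 < v x ∧ (∀ ξ, D2 v x ξ ξ ≤ 0) ∧ rz (fderiv ℝ v x) = p := by
  have hpd : ‖p‖ * d < σ := by rwa [lt_div_iff₀ hd] at hp
  have hsub : closure D ⊆ closedBall z0 d := by
    apply closure_minimal _ isClosed_closedBall
    intro x hx
    exact hdiam x hx z0 hz0
  have hcomp : IsCompact (closure D) :=
    (isCompact_closedBall z0 d).of_isClosed_subset isClosed_closure hsub
  set h : EC n → ℝ := fun x => v x - abp_l p (x - z0) with hh
  have hhc : ContDiff ℝ 2 h :=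
    hv.sub ((abp_l p).contDiff.comp (contDiff_id.sub contDiff_const))
  obtain ⟨x, hx, hmax⟩ := hcomp.exists_isMaxOn ⟨z0, subset_closure hz0⟩
    hhc.continuous.continuousOn
  have hmax' : ∀ y ∈ closure D, h y ≤ h x := fun y hy => isMaxOn_iff.1 hmax y hy
  have hz : σ ≤ h x := by
    have h1 := hmax' z0 (subset_closure hz0)
    have h2 : h z0 = v z0 := by simp [hh]
    linarith
  have hl : |abp_l p (x - z0)| < σ := by
    have h1 := abp_l_le p (x - z0)
    have h2 : ‖x - z0‖ ≤ d := by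
      rw [← dist_eq_norm]
      exact hsub hx
    have h3 : ‖p‖ * ‖x - z0‖ ≤ ‖p‖ * d := mul_le_mul_of_nonneg_left h2 (norm_nonneg _)
    linarith
  have hvx : v x = h x + abp_l p (x - z0) := by simp [hh]
  have hvpos : 0 < v x := by
    have := (abs_lt.1 hl).1
    linarith
  have hxD : x ∈ D := by
    by_contra hxD
    have h1 : x ∈ frontier D := by
      rw [frontier, hD.interior_eq]
      exact ⟨hx, hxD⟩
    have := hb x h1
    linarith
  have hlm : IsLocalMax h x := by
    filter_upwards [hD.mem_nhds hxD] with y hy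
    exact hmax' y (subset_closure hy)
  have hfd : ∀ z, fderiv ℝ h z = fderiv ℝ v z - abp_l p := by
    intro z
    have h1 : HasFDerivAt v (fderiv ℝ v z) z := (hv.differentiable (by norm_num) z).hasFDerivAt
    have h2 : HasFDerivAt (fun x => abp_l p (x - z0)) (abp_l p) z := by
      have h3 : HasFDerivAt (fun x : EC n => x - z0) (ContinuousLinearMap.id ℝ (EC n)) z :=
        (hasFDerivAt_id z).sub_const z0
      have h4 := (abp_l p).hasFDerivAt.comp z h3
      rw [ContinuousLinearMap.comp_id] at h4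
      exact h4
    exact (h1.sub h2).fderiv
  refine ⟨x, hxD, hvpos, ?_, ?_⟩
  · intro ξ
    have h1 := abp_sod hhc x ξ hlm
    have h2 : D2 h x = D2 v x := by
      unfold D2
      have : fderiv ℝ h = fun z => fderiv ℝ v z - abp_l p := funext hfd
      rw [this, fderiv_sub_const]
    rwa [h2] at h1
  · have h1 := hlm.fderiv_eq_zero
    rw [hfd, sub_eq_zero] at h1
    rw [h1, abp_rz]

/-- J3: Aleksandrov-Bakelman-Pucci maximum principle -/
theorem abp {n : ℕ} (hn : 0 < n) (P : EC n → (EC n →ₗ[ℂ] EC n)) (hP : ∀ z, ‖LinearMap.det (P z)‖ = 1)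
    (v : EC n → ℝ) (hv : ContDiff ℝ 2 v) (D : Set (EC n)) (hD : IsOpen D) (d : ℝ) (hd : 0 < d)
    (hdiam : ∀ x ∈ D, ∀ y ∈ D, dist x y ≤ d) (hb : ∀ x ∈ frontier D, v x ≤ 0)
    (b : ℝ) (hb0 : 0 ≤ b) (hL : ∀ z ∈ D, 0 < v z → -b ≤ Lop (P z) v z)
    (z0 : EC n) (hz0 : z0 ∈ D) (σ : ℝ) (hσ : 0 < σ) (hvz : σ ≤ v z0) :
    volume (ball (0 : EC n) (σ / d)) ≤ ENNReal.ofReal ((2 * b / n) ^ (2 * n)) * volume (D ∩ {z | 0 < v z}) := by
  have hv1 : ContDiff ℝ 1 (fderiv ℝ v) := hv.fderiv_right (by norm_num)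
  have hD2c : Continuous (D2 v) := hv1.continuous_fderiv (by norm_num)
  set Gam : Set (EC n) := (D ∩ {z | 0 < v z}) ∩ {z | ∀ ξ, D2 v z ξ ξ ≤ 0} with hGam
  have hmeas : MeasurableSet Gam := by
    have h1 : IsOpen {z | 0 < v z} := isOpen_lt continuous_const hv.continuous
    have h2 : IsClosed {z | ∀ ξ, D2 v z ξ ξ ≤ 0} := by
      have : {z | ∀ ξ, D2 v z ξ ξ ≤ 0} = ⋂ ξ, {z | D2 v z ξ ξ ≤ 0} := by
        ext z
        simp
      rw [this]
      apply isClosed_iInter
      intro ξ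
      exact isClosed_le ((hD2c.clm_apply continuous_const).clm_apply continuous_const)
        continuous_const
    exact (hD.inter h1).measurableSet.inter h2.measurableSet
  have hsub : ball (0 : EC n) (σ / d) ⊆ (fun z => rz (fderiv ℝ v z)) '' Gam := by
    intro p hp
    rw [mem_ball_zero_iff] at hp
    obtain ⟨x, h1, h2, h3, h4⟩ := abp_claim v hv D hD d hd hdiam hb z0 hz0 σ hσ hvz p hp
    exact ⟨x, ⟨⟨h1, h2⟩, h3⟩, h4⟩
  have hder : ∀ x ∈ Gam, HasFDerivWithinAt (fun z => rz (fderiv ℝ v z)) (rz.comp (D2 v x)) Gam x := by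
    intro x _
    have h1 : HasFDerivAt (fderiv ℝ v) (D2 v x) x := (hv1.differentiable (by norm_num) x).hasFDerivAt
    exact (rz.hasFDerivAt.comp x h1).hasFDerivWithinAt
  have hdet : ∀ x ∈ Gam, |(rz.comp (D2 v x)).det| ≤ (2 * b / n) ^ (2 * n) := by
    intro x hx
    obtain ⟨⟨hxD, hxv⟩, hneg⟩ := hx
    have hsymm : IsSymmSndFDerivAt ℝ v x := hv.contDiffAt.isSymmSndFDerivAt (by simp)
    have h1 := det_le_of_trace hn (-(D2 v x)) (by
      intro y z
      simp only [neg_apply]
      rw [show D2 v x y z = D2 v x z y from hsymm y z]) (by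
      intro y
      simp only [neg_apply]
      have := hneg y
      linarith) (P x) (hP x) (4 * b) (by
      have h2 := hL x hxD hxv
      unfold Lop levi at h2
      rw [← Finset.mul_sum] at h2
      have h3 : ∑ k : Fin n, ((-(D2 v x)) (P x (bv k)) (P x (bv k)) +
          (-(D2 v x)) (Complex.I • P x (bv k)) (Complex.I • P x (bv k))) =
          -∑ k : Fin n, (D2 v x (P x (bv k)) (P x (bv k)) +
          D2 v x (Complex.I • P x (bv k)) (Complex.I • P x (bv k))) := by
        rw [← Finset.sum_neg_distrib]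
        refine Finset.sum_congr rfl (fun k _ => ?_)
        simp only [neg_apply]
        ring
      rw [h3]
      linarith)
    have h4 : rz.comp (-(D2 v x)) = (-1 : ℝ) • rz.comp (D2 v x) := by
      ext y
      simp
    have h5 : |(rz.comp (-(D2 v x))).det| = |(rz.comp (D2 v x)).det| := by
      rw [h4]
      unfold ContinuousLinearMap.det
      rw [ContinuousLinearMap.toLinearMap_smul, LinearMap.det_smul, abs_mul, abs_pow, abs_neg, abs_one, one_pow,
        one_mul]
    rw [h5] at h1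
    have h6 : 4 * b / (2 * n) = 2 * b / n := by
      have : (n : ℝ) ≠ 0 := by positivity
      field_simp
      ring
    rwa [h6] at h1
  calc volume (ball (0 : EC n) (σ / d)) ≤ volume ((fun z => rz (fderiv ℝ v z)) '' Gam) :=
        measure_mono hsub
    _ ≤ ∫⁻ x in Gam, ENNReal.ofReal |(rz.comp (D2 v x)).det| :=
        addHaar_image_le_lintegral_abs_det_fderiv volume hmeas hder
    _ ≤ ∫⁻ x in Gam, ENNReal.ofReal ((2 * b / n) ^ (2 * n)) := by
        apply setLIntegral_mono measurable_const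
        intro x hx
        exact ENNReal.ofReal_le_ofReal (hdet x hx)
    _ = ENNReal.ofReal ((2 * b / n) ^ (2 * n)) * volume Gam := by
        rw [setLIntegral_const]
    _ ≤ ENNReal.ofReal ((2 * b / n) ^ (2 * n)) * volume (D ∩ {z | 0 < v z}) := by
        gcongr
        exact inter_subset_left

end CMAL
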