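import Mathlib
import Pool.Agent.Helper706.CMA.Base
open MeasureTheory Metric Set Filter Topology
open scoped ENNReal ComplexOrder
noncomputable section
namespace CMAL


private theorem taylor2_aux (φ φ' φ'' : ℝ → ℝ) (h1 : ∀ t, HasDerivAt φ (φ' t) t)
    (h2 : ∀ t, HasDerivAt φ' (φ'' t) t) (M : ℝ) (hM : ∀ t, |φ'' t| ≤ M) :
    |φ 1 - φ 0 - φ' 0| ≤ M / 2 := by
  have s1 : ∀ x ∈ Icc (0:ℝ) 1, ‖φ' x - φ' 0‖ ≤ M * x := by
    refine image_norm_le_of_norm_deriv_right_le_deriv_boundary (f := fun x => φ' x - φ' 0)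
      (f' := φ'') (B := fun x => M * x) (B' := fun _ => M) ?_ ?_ ?_ ?_ ?_
    · exact fun x _ => ((h2 x).continuousAt.sub continuousAt_const).continuousWithinAt
    · exact fun x _ => ((h2 x).sub_const _).hasDerivWithinAt
    · simp
    · intro x; simpa using (hasDerivAt_id x).const_mul M
    · exact fun x _ => hM x
  have s2 : ∀ x ∈ Icc (0:ℝ) 1, ‖φ x - φ 0 - φ' 0 * x‖ ≤ M / 2 * x ^ 2 := by
    refine image_norm_le_of_norm_deriv_right_le_deriv_boundary
      (f := fun x => φ x - φ 0 - φ' 0 * x)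
      (f' := fun x => φ' x - φ' 0) (B := fun x => M / 2 * x ^ 2) (B' := fun x => M * x)
      ?_ ?_ ?_ ?_ ?_
    · exact fun x _ => (((h1 x).continuousAt.sub continuousAt_const).sub
        (continuousAt_const.mul continuousAt_id)).continuousWithinAt
    · intro x _
      have := ((h1 x).sub_const (φ 0)).sub ((hasDerivAt_id x).const_mul (φ' 0))
      rw [mul_one] at this
      exact this.hasDerivWithinAt
    · simp
    · intro x
      have := ((hasDerivAt_id x).pow 2).const_mul (M / 2)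
      refine this.congr_deriv ?_
      simp
      ring
    · exact fun x hx => s1 x ⟨hx.1, hx.2.le⟩
  have := s2 1 ⟨zero_le_one, le_rfl⟩
  rw [mul_one, one_pow, mul_one, Real.norm_eq_abs] at this
  exact this

private theorem taylor_aux {n : ℕ} (χ : EC n → ℝ) (hχ : ContDiff ℝ 2 χ) (K : ℝ)
    (hK : ∀ z ξ, |D2 χ z ξ ξ| ≤ K * ‖ξ‖ ^ 2) (z h : EC n) :
    |χ (z + h) - χ z - fderiv ℝ χ z h| ≤ K / 2 * ‖h‖ ^ 2 := by
  have hline : ∀ t : ℝ, HasDerivAt (fun t : ℝ => z + t • h) h t := by
    intro t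
    have := ((hasDerivAt_id t).smul_const h).const_add z
    rw [one_smul] at this
    exact this
  have hd1 : ∀ t : ℝ, HasDerivAt (fun t : ℝ => χ (z + t • h)) (fderiv ℝ χ (z + t • h) h) t := by
    intro t
    have hf : HasFDerivAt χ (fderiv ℝ χ (z + t • h)) (z + t • h) :=
      ((hχ.differentiable (by norm_num)) _).hasFDerivAt
    exact hf.comp_hasDerivAt t (hline t)
  have hd2 : ∀ t : ℝ, HasDerivAt (fun t : ℝ => fderiv ℝ χ (z + t • h) h)
      (D2 χ (z + t • h) h h) t := by
    intro t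
    have hf : HasFDerivAt (fderiv ℝ χ) (fderiv ℝ (fderiv ℝ χ) (z + t • h)) (z + t • h) :=
      (((hχ.fderiv_right (m := 1) (by norm_num)).differentiable (by norm_num)) _).hasFDerivAt
    have h3 := (hf.comp_hasDerivAt t (hline t)).clm_apply (hasDerivAt_const t h)
    refine h3.congr_deriv ?_
    simp [D2]
  have := taylor2_aux _ _ _ hd1 hd2 (K * ‖h‖ ^ 2) (fun t => hK _ _)
  rw [one_smul, zero_smul, add_zero] at this
  refine this.trans (le_of_eq ?_)
  ring

/-- J8 -/
theorem abs_cav_sub_le {n : ℕ} (χ : EC n → ℝ) (hχ : ContDiff ℝ 2 χ) (K : ℝ)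
    (hK : ∀ z ξ, |D2 χ z ξ ξ| ≤ K * ‖ξ‖ ^ 2) (τ z : EC n) :
    |cav χ τ z - χ z| ≤ K / 2 * ‖τ‖ ^ 2 := by
  have hpi : 0 < 2 * Real.pi := by positivity
  have hrot : ∀ θ : ℝ, Complex.exp (θ * Complex.I) • τ =
      (Real.cos θ) • τ + (Real.sin θ) • (Complex.I • τ) := by
    intro θ
    rw [Complex.exp_mul_I]
    ext i
    simp [add_mul, mul_assoc]
  have hnorm : ∀ θ : ℝ, ‖Complex.exp (θ * Complex.I) • τ‖ = ‖τ‖ := by
    intro θ
    rw [norm_smul, Complex.norm_exp_ofReal_mul_I, one_mul]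
  have hc1 : Continuous fun θ : ℝ => χ (z + Complex.exp (θ * Complex.I) • τ) := by
    refine hχ.continuous.comp ?_
    fun_prop
  have hc2 : Continuous fun θ : ℝ => fderiv ℝ χ z (Complex.exp (θ * Complex.I) • τ) := by
    refine (fderiv ℝ χ z).continuous.comp ?_
    fun_prop
  have hlin : ∫ θ in (0:ℝ)..(2 * Real.pi), fderiv ℝ χ z (Complex.exp (θ * Complex.I) • τ) = 0 := by
    have : ∀ θ : ℝ, fderiv ℝ χ z (Complex.exp (θ * Complex.I) • τ) =
        Real.cos θ * fderiv ℝ χ z τ + Real.sin θ * fderiv ℝ χ z (Complex.I • τ) := by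
      intro θ
      rw [hrot, map_add, map_smul, map_smul, smul_eq_mul, smul_eq_mul]
    simp_rw [this]
    have i1 : IntervalIntegrable (fun θ : ℝ => Real.cos θ * fderiv ℝ χ z τ) volume 0
        (2 * Real.pi) := by
      apply Continuous.intervalIntegrable
      fun_prop
    have i2 : IntervalIntegrable (fun θ : ℝ => Real.sin θ * fderiv ℝ χ z (Complex.I • τ))
        volume 0 (2 * Real.pi) := by
      apply Continuous.intervalIntegrable
      fun_prop
    rw [intervalIntegral.integral_add i1 i2,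
      intervalIntegral.integral_mul_const, intervalIntegral.integral_mul_const,
      integral_cos, integral_sin]
    simp
  have heq : cav χ τ z - χ z = (2 * Real.pi)⁻¹ * ∫ θ in (0:ℝ)..(2 * Real.pi),
      (χ (z + Complex.exp (θ * Complex.I) • τ) - χ z -
        fderiv ℝ χ z (Complex.exp (θ * Complex.I) • τ)) := by
    have i1 : IntervalIntegrable (fun θ : ℝ => χ (z + Complex.exp (θ * Complex.I) • τ) - χ z)
        volume 0 (2 * Real.pi) := by
      apply Continuous.intervalIntegrable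
      fun_prop
    rw [intervalIntegral.integral_sub i1
      (hc2.intervalIntegrable _ _), hlin, intervalIntegral.integral_sub
      (hc1.intervalIntegrable _ _) (continuous_const.intervalIntegrable _ _),
      intervalIntegral.integral_const, cav, smul_eq_mul]
    generalize (∫ θ in (0:ℝ)..(2 * Real.pi), χ (z + Complex.exp (θ * Complex.I) • τ)) = A
    field_simp
    ring
  rw [heq, abs_mul, abs_of_pos (inv_pos.2 hpi)]
  have hb := intervalIntegral.norm_integral_le_of_norm_le_const (a := 0) (b := 2 * Real.pi)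
    (C := K / 2 * ‖τ‖ ^ 2) (f := fun θ : ℝ => χ (z + Complex.exp (θ * Complex.I) • τ) - χ z -
        fderiv ℝ χ z (Complex.exp (θ * Complex.I) • τ)) (fun θ _ => by
      have := taylor_aux χ hχ K hK z (Complex.exp (θ * Complex.I) • τ)
      rw [hnorm] at this
      exact this)
  rw [sub_zero, abs_of_pos hpi, Real.norm_eq_abs] at hb
  calc (2 * Real.pi)⁻¹ * _ ≤ (2 * Real.pi)⁻¹ * (K / 2 * ‖τ‖ ^ 2 * (2 * Real.pi)) :=
        mul_le_mul_of_nonneg_left hb (inv_nonneg.2 hpi.le)
    _ = K / 2 * ‖τ‖ ^ 2 := by field_simp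

end CMAL
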