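import Mathlib
import Pool.Agent.Helper706.CMA.Base
open MeasureTheory Metric Set Filter Topology
open scoped ENNReal ComplexOrder
noncomputable section
namespace CMAL


/-- J1: AM-GM -/
theorem amgm_frame {n : ℕ} (A : EC n →ₗ[ℂ] EC n) (hA : 1 ≤ ‖LinearMap.det A‖) :
    (n : ℝ) ≤ ∑ k : Fin n, ‖A (bv k)‖ ^ 2 := by
  classical
  let b := (EuclideanSpace.basisFun (Fin n) ℂ).toBasis
  let M : Matrix (Fin n) (Fin n) ℂ := LinearMap.toMatrix b b A
  have hM : ∀ i j, M i j = (A (bv j)) i := by
    intro i j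
    show LinearMap.toMatrix b b A i j = _
    rw [LinearMap.toMatrix_apply]
    simp [b, bv]
  have hdet : LinearMap.det A = M.det := (LinearMap.det_toMatrix b A).symm
  have hN : (Matrix.conjTranspose M * M).PosSemidef := Matrix.posSemidef_conjTranspose_mul_self M
  have htr : (Matrix.conjTranspose M * M).trace = ((∑ k : Fin n, ‖A (bv k)‖ ^ 2 : ℝ) : ℂ) := by
    rw [Matrix.trace]
    push_cast
    refine Finset.sum_congr rfl fun k _ => ?_
    rw [Matrix.diag_apply, Matrix.mul_apply, ← Complex.ofReal_pow, EuclideanSpace.norm_sq_eq]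
    push_cast
    refine Finset.sum_congr rfl fun i _ => ?_
    rw [Matrix.conjTranspose_apply, hM, ← starRingEnd_apply, mul_comm, Complex.mul_conj, Complex.normSq_eq_norm_sq]
    push_cast
    rfl
  have hdN : (Matrix.conjTranspose M * M).det = ((‖LinearMap.det A‖ ^ 2 : ℝ) : ℂ) := by
    rw [Matrix.det_mul, Matrix.det_conjTranspose, hdet, ← starRingEnd_apply, mul_comm, Complex.mul_conj, Complex.normSq_eq_norm_sq]
  have hH := hN.isHermitian
  have h1 : ∑ k : Fin n, ‖A (bv k)‖ ^ 2 = ∑ i, hH.eigenvalues i := by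
    have h2 := hH.trace_eq_sum_eigenvalues
    rw [htr] at h2
    apply Complex.ofReal_injective
    rw [h2]
    push_cast
    rfl
  have h2 : ‖LinearMap.det A‖ ^ 2 = ∏ i, hH.eigenvalues i := by
    have h3 := hH.det_eq_prod_eigenvalues
    rw [hdN] at h3
    apply Complex.ofReal_injective
    rw [h3]
    push_cast
    rfl
  have h3 : 1 ≤ ∏ i, hH.eigenvalues i := by
    rw [← h2]; exact one_le_pow₀ hA
  have h4 : ∀ i, 0 < hH.eigenvalues i := by
    intro i
    refine lt_of_le_of_ne (hN.eigenvalues_nonneg i) ?_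
    intro h5
    have : ∏ i, hH.eigenvalues i = 0 := Finset.prod_eq_zero (Finset.mem_univ i) h5.symm
    linarith
  have h5 : 0 ≤ ∑ i, Real.log (hH.eigenvalues i) := by
    rw [← Real.log_prod (fun i _ => (h4 i).ne')]
    exact Real.log_nonneg h3
  have h6 : ∑ i, Real.log (hH.eigenvalues i) ≤ ∑ i, (hH.eigenvalues i - 1) :=
    Finset.sum_le_sum fun i _ => Real.log_le_sub_one_of_pos (h4 i)
  rw [Finset.sum_sub_distrib] at h6
  rw [h1]
  simp at h6
  linarith

end CMAL
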