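import Mathlib
import Pool.Agent.Helper706.CMA.Base
open MeasureTheory Metric Set Filter Topology
open scoped ENNReal ComplexOrder
noncomputable section
namespace CMAL


/-- second-order Taylor with a bound on the oscillation of the second derivative -/
private lemma j20_taylor {n : ℕ} (χ : EC n → ℝ) (hχ : ContDiff ℝ 2 χ) (z h : EC n) (η : ℝ)
    (hη : ∀ t ∈ Icc (0:ℝ) 1, ‖D2 χ (z + t • h) - D2 χ z‖ ≤ η) :
    |χ (z + h) - χ z - fderiv ℝ χ z h - (1/2) * D2 χ z h h| ≤ η * ‖h‖ ^ 2 := by
  have hχ1 : ContDiff ℝ 1 (fderiv ℝ χ) := hχ.fderiv_right (by norm_num)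
  have hd0 : Differentiable ℝ χ := hχ.differentiable (by norm_num)
  have hd1 : Differentiable ℝ (fderiv ℝ χ) := hχ1.differentiable (by norm_num)
  have hline : ∀ t : ℝ, HasDerivAt (fun t : ℝ => z + t • h) h t := by
    intro t
    have := ((hasDerivAt_id t).smul_const h).const_add z
    simpa using this
  have hg : ∀ t : ℝ, HasDerivAt (fun t : ℝ => χ (z + t • h)) (fderiv ℝ χ (z + t • h) h) t := by
    intro t
    exact (hd0 (z + t • h)).hasFDerivAt.comp_hasDerivAt t (hline t)
  have hg1 : ∀ t : ℝ, HasDerivAt (fun t : ℝ => fderiv ℝ χ (z + t • h) h)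
      (D2 χ (z + t • h) h h) t := by
    intro t
    have h1 : HasDerivAt (fun t : ℝ => fderiv ℝ χ (z + t • h)) (D2 χ (z + t • h) h) t :=
      (hd1 (z + t • h)).hasFDerivAt.comp_hasDerivAt t (hline t)
    exact h1.clm_apply (hasDerivAt_const t h) |>.congr_deriv (by simp)
  -- first integration
  have hη0 : 0 ≤ η := le_trans (norm_nonneg (D2 χ (z + (0:ℝ) • h) - D2 χ z)) (hη 0 ⟨le_rfl, zero_le_one⟩)
  have step1 : ∀ t ∈ Icc (0:ℝ) 1, ‖(fderiv ℝ χ (z + t • h) h - t * D2 χ z h h) - (fderiv ℝ χ z h)‖ ≤ η * ‖h‖^2 := by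
    intro t ht
    have hb := norm_image_sub_le_of_norm_deriv_le_segment' (a := 0) (b := 1)
      (f := fun t : ℝ => fderiv ℝ χ (z + t • h) h - t * D2 χ z h h)
      (f' := fun t : ℝ => D2 χ (z + t • h) h h - D2 χ z h h) (C := η * ‖h‖^2)
      (by
        intro x hx
        have h3 : HasDerivAt (fun t : ℝ => fderiv ℝ χ (z + t • h) h - t * D2 χ z h h)
            (D2 χ (z + x • h) h h - 1 * D2 χ z h h) x :=
          (hg1 x).sub ((hasDerivAt_id x).mul_const (D2 χ z h h))
        rw [one_mul] at h3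
        exact h3.hasDerivWithinAt)
      (by
        intro x hx
        have h1 : D2 χ (z + x • h) h h - D2 χ z h h = (D2 χ (z + x • h) - D2 χ z) h h := by simp
        rw [h1]
        calc ‖(D2 χ (z + x • h) - D2 χ z) h h‖ ≤ ‖(D2 χ (z + x • h) - D2 χ z)‖ * ‖h‖ * ‖h‖ :=
              ContinuousLinearMap.le_opNorm₂ _ _ _
          _ ≤ η * ‖h‖ * ‖h‖ := by
              gcongr
              exact hη x ⟨hx.1, hx.2.le⟩
          _ = η * ‖h‖^2 := by ring)
      t ht
    simp only [zero_smul, add_zero, zero_mul, sub_zero] at hb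
    calc _ ≤ _ := hb
      _ ≤ η * ‖h‖^2 * 1 := by
        have : 0 ≤ η * ‖h‖^2 := by positivity
        exact mul_le_mul_of_nonneg_left ht.2 this
      _ = _ := by ring
  have hb := norm_image_sub_le_of_norm_deriv_le_segment_01'
      (f := fun t : ℝ => χ (z + t • h) - t * fderiv ℝ χ z h - t^2/2 * D2 χ z h h)
      (f' := fun t : ℝ => fderiv ℝ χ (z + t • h) h - fderiv ℝ χ z h - t * D2 χ z h h) (C := η * ‖h‖^2)
      (by
        intro x hx
        have h2 : HasDerivAt (fun t : ℝ => t^2/2 * D2 χ z h h) (x * D2 χ z h h) x := by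
          have := ((hasDerivAt_pow 2 x).div_const 2).mul_const (D2 χ z h h)
          refine this.congr_deriv ?_
          norm_num
        have h3 : HasDerivAt (fun t : ℝ => χ (z + t • h) - t * fderiv ℝ χ z h - t^2/2 * D2 χ z h h)
            (fderiv ℝ χ (z + x • h) h - 1 * fderiv ℝ χ z h - x * D2 χ z h h) x :=
          ((hg x).sub ((hasDerivAt_id x).mul_const (fderiv ℝ χ z h))).sub h2
        rw [one_mul] at h3
        exact h3.hasDerivWithinAt)
      (by
        intro x hx
        have := step1 x ⟨hx.1, hx.2.le⟩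
        have e : fderiv ℝ χ (z + x • h) h - fderiv ℝ χ z h - x * D2 χ z h h
          = (fderiv ℝ χ (z + x • h) h - x * D2 χ z h h) - (fderiv ℝ χ z h) := by ring
        rw [e]
        exact this)
  simp only [one_smul, zero_smul, add_zero, one_mul, zero_mul, Real.norm_eq_abs, one_pow] at hb
  norm_num at hb
  have e : χ (z + h) - χ z - fderiv ℝ χ z h - (1/2) * D2 χ z h h
    = χ (z + h) - fderiv ℝ χ z h - 1/2 * D2 χ z h h - χ z := by ring
  rw [e]
  exact hb

/-- J20: uniform second order expansion for compactly supported `C^2` functions -/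
theorem cav_unif {n : ℕ} (χ : EC n → ℝ) (hχ : ContDiff ℝ 2 χ) (hc : HasCompactSupport χ) (e : EC n) (ε : ℝ) (hε : 0 < ε) :
    ∃ δ0 : ℝ, 0 < δ0 ∧ ∀ δ : ℝ, 0 < δ → δ < δ0 → ∀ z, |cav χ ((δ : ℂ) • e) z - χ z - δ ^ 2 * levi χ z e| ≤ ε * δ ^ 2 := by
  have hχ1 : ContDiff ℝ 1 (fderiv ℝ χ) := hχ.fderiv_right (by norm_num)
  have hcont2 : Continuous (fderiv ℝ (fderiv ℝ χ)) := hχ1.continuous_fderiv (by norm_num)
  have hc2 : HasCompactSupport (fderiv ℝ (fderiv ℝ χ)) := (hc.fderiv (𝕜 := ℝ)).fderiv (𝕜 := ℝ)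
  have huc : UniformContinuous (fderiv ℝ (fderiv ℝ χ)) := hc2.uniformContinuous_of_continuous hcont2
  set η : ℝ := ε / (‖e‖^2 + 1) with hηdef
  have hη : 0 < η := by positivity
  obtain ⟨r, hr, hr'⟩ := (Metric.uniformContinuous_iff (α := EC n) (β := EC n →L[ℝ] EC n →L[ℝ] ℝ)).1 huc η hη
  refine ⟨r / (‖e‖ + 1), by positivity, ?_⟩
  intro δ hδ hδ0 z
  have hδr : δ * ‖e‖ < r := by
    have h1 : δ * (‖e‖ + 1) < r := by
      rwa [lt_div_iff₀ (by positivity)] at hδ0
    nlinarith
  set τ : EC n := (δ : ℂ) • e with hτ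
  have hτn : ‖τ‖ = δ * ‖e‖ := by
    rw [hτ, norm_smul]
    simp [abs_of_pos hδ]
  have hτr : τ = δ • e := by
    rw [hτ]
    exact Complex.coe_smul δ e
  set H : ℝ → EC n := fun θ => Complex.exp (θ * Complex.I) • τ with hH
  have hHn : ∀ θ, ‖H θ‖ = δ * ‖e‖ := by
    intro θ
    rw [hH]
    simp only
    rw [norm_smul, Complex.norm_exp_ofReal_mul_I, one_mul, hτn]
  have hHd : ∀ θ, H θ = (Real.cos θ) • τ + (Real.sin θ) • (Complex.I • τ) := by
    intro θ
    rw [hH]
    simp only
    rw [Complex.exp_mul_I, add_smul, mul_smul]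
    congr 1
    · rw [← Complex.ofReal_cos]; exact Complex.coe_smul _ _
    · rw [← Complex.ofReal_sin]; exact Complex.coe_smul _ _
  have hHc : Continuous H := by
    rw [hH]
    fun_prop
  set P : ℝ → ℝ := fun θ => fderiv ℝ χ z (H θ) + (1/2) * D2 χ z (H θ) (H θ) with hP
  have hPc : Continuous P := by
    rw [hP]
    have h1 : Continuous (fun θ => D2 χ z (H θ) (H θ)) := by
      have : Continuous (fun θ => D2 χ z (H θ)) := (D2 χ z).continuous.comp hHc
      exact this.clm_apply hHc
    have h2 : Continuous (fun θ => fderiv ℝ χ z (H θ)) := (fderiv ℝ χ z).continuous.comp hHc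
    exact h2.add (continuous_const.mul h1)
  have hχc : Continuous (fun θ => χ (z + H θ)) := hχ.continuous.comp (continuous_const.add hHc)
  have hbound : ∀ θ, |χ (z + H θ) - χ z - P θ| ≤ η * (δ * ‖e‖)^2 := by
    intro θ
    have := j20_taylor χ hχ z (H θ) η (by
      intro t ht
      have hd : dist (z + t • H θ) z < r := by
        rw [dist_eq_norm, add_sub_cancel_left, norm_smul, hHn, Real.norm_eq_abs, abs_of_nonneg ht.1]
        calc t * (δ * ‖e‖) ≤ 1 * (δ * ‖e‖) := by
              apply mul_le_mul_of_nonneg_right ht.2; positivity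
          _ < r := by rw [one_mul]; exact hδr
      have h4 := hr' hd
      calc ‖D2 χ (z + t • H θ) - D2 χ z‖ = dist (D2 χ (z + t • H θ)) (D2 χ z) := by
            exact (@dist_eq_norm (EC n →L[ℝ] EC n →L[ℝ] ℝ) _
              (D2 χ (z + t • H θ)) (D2 χ z)).symm
        _ ≤ η := h4.le)
    rw [hHn] at this
    have e1 : χ (z + H θ) - χ z - P θ = χ (z + H θ) - χ z - fderiv ℝ χ z (H θ) - (1/2) * D2 χ z (H θ) (H θ) := by
      rw [hP]; ring
    rw [e1]; exact this
  -- integral of P
  have hPint : ∫ θ in (0:ℝ)..(2 * Real.pi), P θ = 2 * Real.pi * (δ^2 * levi χ z e) := by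
    set a := fderiv ℝ χ z τ
    set b := fderiv ℝ χ z (Complex.I • τ)
    set A := D2 χ z τ τ with hA
    set B := D2 χ z τ (Complex.I • τ) + D2 χ z (Complex.I • τ) τ
    set C := D2 χ z (Complex.I • τ) (Complex.I • τ) with hC
    have hPe : ∀ θ, P θ = a * Real.cos θ + b * Real.sin θ + (A/2) * Real.cos θ ^ 2 + (B/2) * (Real.sin θ * Real.cos θ)
        + (C/2) * Real.sin θ ^ 2 := by
      intro θ
      rw [hP]
      simp only
      rw [hHd]
      simp only [map_add, map_smul, ContinuousLinearMap.add_apply, ContinuousLinearMap.smul_apply, smul_eq_mul]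
      ring
    have : (∫ θ in (0:ℝ)..(2 * Real.pi), P θ) = ∫ θ in (0:ℝ)..(2 * Real.pi), (a * Real.cos θ + b * Real.sin θ + (A/2) * Real.cos θ ^ 2 + (B/2) * (Real.sin θ * Real.cos θ)
        + (C/2) * Real.sin θ ^ 2) := by
      congr 1; funext θ; exact hPe θ
    rw [this]
    rw [intervalIntegral.integral_add, intervalIntegral.integral_add, intervalIntegral.integral_add,
      intervalIntegral.integral_add]
    · simp only [intervalIntegral.integral_const_mul]
      rw [integral_cos, integral_sin, integral_cos_sq, integral_sin_sq, integral_sin_mul_cos₁]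
      simp only [Real.sin_two_pi, Real.cos_two_pi, Real.sin_zero, Real.cos_zero]
      have hlev : levi χ z e * δ^2 = (1/4) * (A + C) := by
        rw [hA, hC, hτr, smul_comm Complex.I δ e, levi]
        simp only [map_smul, ContinuousLinearMap.smul_apply, smul_eq_mul]
        ring
      have : 2 * Real.pi * (δ^2 * levi χ z e) = 2 * Real.pi * ((1/4) * (A + C)) := by rw [← hlev]; ring
      rw [this]
      ring
    all_goals exact Continuous.intervalIntegrable (by fun_prop) _ _
  have hcav : cav χ τ z - χ z - δ^2 * levi χ z e = (2 * Real.pi)⁻¹ * ∫ θ in (0:ℝ)..(2 * Real.pi), (χ (z + H θ) - χ z - P θ) := by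
    rw [intervalIntegral.integral_sub, intervalIntegral.integral_sub, hPint]
    · rw [cav]
      have hpi : (2 * Real.pi) ≠ 0 := by positivity
      rw [intervalIntegral.integral_const, sub_zero, smul_eq_mul]
      field_simp
      ring
    all_goals exact Continuous.intervalIntegrable (by fun_prop) _ _
  rw [hcav, abs_mul, abs_of_pos (by positivity : (0:ℝ) < (2 * Real.pi)⁻¹)]
  have hint := intervalIntegral.norm_integral_le_of_norm_le_const (a := (0:ℝ)) (b := 2 * Real.pi)
    (C := η * (δ * ‖e‖)^2) (f := fun θ => χ (z + H θ) - χ z - P θ)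
    (fun θ _ => by rw [Real.norm_eq_abs]; exact hbound θ)
  rw [Real.norm_eq_abs, sub_zero, abs_of_pos (by positivity : (0:ℝ) < 2 * Real.pi)] at hint
  calc (2 * Real.pi)⁻¹ * |∫ θ in (0:ℝ)..(2 * Real.pi), (χ (z + H θ) - χ z - P θ)|
      ≤ (2 * Real.pi)⁻¹ * ((η * (δ * ‖e‖)^2) * (2 * Real.pi)) := by gcongr
    _ = η * ‖e‖^2 * δ^2 := by
        have hpi : (2 * Real.pi) ≠ 0 := by positivity
        field_simp
    _ ≤ ε * δ^2 := by
        have : η * ‖e‖^2 ≤ ε := by
          rw [hηdef, div_mul_eq_mul_div, div_le_iff₀ (by positivity)]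
          nlinarith [norm_nonneg e]
        exact mul_le_mul_of_nonneg_right this (by positivity)

end CMAL
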