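import Mathlib
import Pool.Agent.Helper706.CMA.Base
open MeasureTheory Metric Set Filter Topology
open scoped ENNReal ComplexOrder
noncomputable section
namespace CMAL


private theorem fub_int {n : ℕ} (F : EC n → ℝ → ℝ) (hF : Continuous (Function.uncurry F)) (R : ℝ)
    (hR : ∀ z, R < ‖z‖ → ∀ θ, F z θ = 0) :
    Integrable (Function.uncurry F)
      ((volume : Measure (EC n)).prod (volume.restrict (Ioc (0:ℝ) (2 * Real.pi)))) := by
  have hK : IsCompact ((closedBall (0 : EC n) R) ×ˢ (Icc (0:ℝ) (2 * Real.pi))) :=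
    (isCompact_closedBall _ _).prod isCompact_Icc
  have h1 : IntegrableOn (Function.uncurry F)
      ((closedBall (0 : EC n) R) ×ˢ (Icc (0:ℝ) (2 * Real.pi)))
      ((volume : Measure (EC n)).prod (volume : Measure ℝ)) :=
    hF.continuousOn.integrableOn_compact hK
  have h2 : IntegrableOn (Function.uncurry F)
      ((univ : Set (EC n)) ×ˢ (Ioc (0:ℝ) (2 * Real.pi)))
      ((volume : Measure (EC n)).prod (volume : Measure ℝ)) := by
    apply h1.of_forall_sdiff_eq_zero (MeasurableSet.univ.prod measurableSet_Ioc)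
    rintro ⟨z, θ⟩ ⟨⟨_, hθ⟩, hz⟩
    apply hR
    by_contra hcon
    apply hz
    refine ⟨?_, Ioc_subset_Icc_self hθ⟩
    rw [mem_closedBall, dist_zero_right]
    exact not_lt.1 hcon
  unfold IntegrableOn at h2
  rw [← Measure.prod_restrict, Measure.restrict_univ] at h2
  exact h2

/-- J9a -/
theorem duality {n : ℕ} (u χ : EC n → ℝ) (hu : Continuous u) (hχ : Continuous χ) (hc : HasCompactSupport χ) (τ : EC n) :
    ∫ z, χ z * (cav u τ z - u z) = ∫ z, u z * (cav χ τ z - χ z) := by
  obtain ⟨R, hR⟩ : ∃ R : ℝ, ∀ z, R < ‖z‖ → χ z = 0 := by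
    obtain ⟨R, hR⟩ := hc.isCompact.isBounded.subset_closedBall (0 : EC n)
    refine ⟨R, fun z hz => ?_⟩
    by_contra hne
    have h1 := hR (subset_tsupport χ hne)
    rw [mem_closedBall, dist_zero_right] at h1
    linarith
  have hnorm : ∀ θ : ℝ, ‖Complex.exp (θ * Complex.I) • τ‖ = ‖τ‖ := by
    intro θ
    rw [norm_smul, Complex.norm_exp_ofReal_mul_I, one_mul]
  have hcexp : Continuous (fun p : EC n × ℝ => p.1 + Complex.exp ((p.2 : ℂ) * Complex.I) • τ) := by
    fun_prop
  set F1 : EC n → ℝ → ℝ := fun z θ => χ z * u (z + Complex.exp (θ * Complex.I) • τ) with hF1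
  set F2 : EC n → ℝ → ℝ := fun z θ => u z * χ (z + Complex.exp (θ * Complex.I) • τ) with hF2
  have hF1c : Continuous (Function.uncurry F1) :=
    (hχ.comp continuous_fst).mul (hu.comp hcexp)
  have hF2c : Continuous (Function.uncurry F2) :=
    (hu.comp continuous_fst).mul (hχ.comp hcexp)
  have hi1 := fub_int F1 hF1c R (by
    intro z hz θ
    rw [hF1]; simp only; rw [hR z hz, zero_mul])
  have hi2 := fub_int F2 hF2c (R + ‖τ‖) (by
    intro z hz θ
    rw [hF2]; simp only
    rw [hR, mul_zero]
    have h1 := norm_sub_norm_le z (-(Complex.exp (θ * Complex.I) • τ))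
    rw [norm_neg, hnorm, sub_neg_eq_add] at h1
    linarith)
  have hpi : (0:ℝ) ≤ 2 * Real.pi := by positivity
  have hcav1 : ∀ z, χ z * cav u τ z
      = (2 * Real.pi)⁻¹ * ∫ θ in Ioc (0:ℝ) (2 * Real.pi), F1 z θ := by
    intro z
    unfold cav
    rw [intervalIntegral.integral_of_le hpi, hF1, integral_const_mul]
    ring
  have hcav2 : ∀ z, u z * cav χ τ z
      = (2 * Real.pi)⁻¹ * ∫ θ in Ioc (0:ℝ) (2 * Real.pi), F2 z θ := by
    intro z
    unfold cav
    rw [intervalIntegral.integral_of_le hpi, hF2, integral_const_mul]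
    ring
  have hI1 : Integrable (fun z => χ z * cav u τ z) := by
    simp_rw [hcav1]
    exact hi1.integral_prod_left.const_mul _
  have hI2 : Integrable (fun z => u z * cav χ τ z) := by
    simp_rw [hcav2]
    exact hi2.integral_prod_left.const_mul _
  have hI3 : Integrable (fun z => χ z * u z) :=
    (hχ.mul hu).integrable_of_hasCompactSupport hc.mul_right
  have hI4 : Integrable (fun z => u z * χ z) :=
    (hu.mul hχ).integrable_of_hasCompactSupport hc.mul_left
  have e1 : ∫ z, χ z * (cav u τ z - u z) = (∫ z, χ z * cav u τ z) - ∫ z, χ z * u z := by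
    rw [← integral_sub hI1 hI3]
    congr 1; funext z; ring
  have e2 : ∫ z, u z * (cav χ τ z - χ z) = (∫ z, u z * cav χ τ z) - ∫ z, u z * χ z := by
    rw [← integral_sub hI2 hI4]
    congr 1; funext z; ring
  rw [e1, e2]
  have e3 : ∫ z, χ z * u z = ∫ z, u z * χ z := by congr 1; funext z; ring
  rw [e3]
  congr 1
  simp_rw [hcav1, hcav2]
  rw [integral_const_mul, integral_const_mul]
  congr 1
  rw [integral_integral_swap hi1, integral_integral_swap hi2]
  set G : ℝ → ℝ := fun θ => ∫ z, F2 z θ with hG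
  have hper : Function.Periodic G (2 * Real.pi) := by
    intro θ
    rw [hG]; simp only
    congr 1; funext z
    rw [hF2]; simp only
    have h1 : Complex.exp (((θ + 2 * Real.pi : ℝ) : ℂ) * Complex.I)
        = Complex.exp ((θ : ℂ) * Complex.I) := by
      have h2 : (((θ + 2 * Real.pi : ℝ) : ℂ) * Complex.I)
          = (θ : ℂ) * Complex.I + 2 * Real.pi * Complex.I := by push_cast; ring
      rw [h2, Complex.exp_add, Complex.exp_two_pi_mul_I, mul_one]
    rw [h1]
  have hH : ∀ θ : ℝ, ∫ z, F1 z θ = G (θ + Real.pi) := by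
    intro θ
    rw [hG]; simp only
    have h1 : Complex.exp (((θ + Real.pi : ℝ) : ℂ) * Complex.I)
        = - Complex.exp ((θ : ℂ) * Complex.I) := by
      have h2 : (((θ + Real.pi : ℝ) : ℂ) * Complex.I)
          = (θ : ℂ) * Complex.I + Real.pi * Complex.I := by push_cast; ring
      rw [h2, Complex.exp_add, Complex.exp_pi_mul_I]; ring
    have h3 := integral_add_right_eq_self (μ := (volume : Measure (EC n)))
      (fun z => F2 z (θ + Real.pi)) (Complex.exp ((θ : ℂ) * Complex.I) • τ)
    rw [← h3]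
    congr 1; funext z
    rw [hF1, hF2]; simp only
    rw [h1, neg_smul, add_neg_cancel_right]
    ring
  simp_rw [hH]
  rw [← intervalIntegral.integral_of_le hpi, ← intervalIntegral.integral_of_le hpi]
  rw [intervalIntegral.integral_comp_add_right G Real.pi]
  have h4 := hper.intervalIntegral_add_eq Real.pi 0
  rw [zero_add] at h4 ⊢
  rw [← h4, add_comm]

end CMAL
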