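import Mathlib
import Pool.Agent.Helper706.CMA.Base
open MeasureTheory Metric Set Filter Topology
open scoped ENNReal ComplexOrder
noncomputable section
namespace CMAL


private theorem D2_apply_eq {n : ℕ} (u : EC n → ℝ) (hu : ContDiff ℝ 2 u) (ξ z : EC n) :
    D2 u z ξ ξ = fderiv ℝ (fun w => fderiv ℝ u w ξ) z ξ := by
  have hd : DifferentiableAt ℝ (fderiv ℝ u) z :=
    (hu.fderiv_right (m := 1) (by norm_num)).differentiable (by norm_num) z
  have h1 : HasFDerivAt (fun w => fderiv ℝ u w ξ)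
      ((ContinuousLinearMap.apply ℝ ℝ ξ).comp (fderiv ℝ (fderiv ℝ u) z)) z :=
    (ContinuousLinearMap.apply ℝ ℝ ξ).hasFDerivAt.comp z hd.hasFDerivAt
  rw [h1.fderiv]
  rfl

private theorem ibp_one {n : ℕ} (f g : EC n → ℝ) (hf : ContDiff ℝ 2 f) (hg : ContDiff ℝ 2 g)
    (hc : HasCompactSupport f ∨ HasCompactSupport g) (ξ : EC n) :
    ∫ z, f z * D2 g z ξ ξ = - ∫ z, fderiv ℝ f z ξ * fderiv ℝ g z ξ := by
  have hg1 : ContDiff ℝ 1 (fun w => fderiv ℝ g w ξ) :=
    (hg.fderiv_right (m := 1) (by norm_num)).clm_apply contDiff_const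
  have hf1 : Continuous (fun w => fderiv ℝ f w ξ) :=
    ((hf.fderiv_right (m := 1) (by norm_num)).clm_apply contDiff_const).continuous
  have hg2 : Continuous (fun w => fderiv ℝ (fun w => fderiv ℝ g w ξ) w ξ) :=
    ((hg1.fderiv_right (m := 0) (by norm_num)).clm_apply contDiff_const).continuous
  have e1 : (fun z => f z * D2 g z ξ ξ) = fun z => f z * fderiv ℝ (fun w => fderiv ℝ g w ξ) z ξ := by
    funext z
    rw [D2_apply_eq g hg]
  rw [e1]
  apply integral_mul_fderiv_eq_neg_fderiv_mul_of_integrable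
  · apply Continuous.integrable_of_hasCompactSupport (hf1.mul hg1.continuous)
    rcases hc with hc | hc
    · exact (hc.fderiv_apply ℝ ξ).mul_right
    · exact (hc.fderiv_apply ℝ ξ).mul_left
  · apply Continuous.integrable_of_hasCompactSupport (hf.continuous.mul hg2)
    rcases hc with hc | hc
    · exact hc.mul_right
    · exact ((hc.fderiv_apply ℝ ξ).fderiv_apply ℝ ξ).mul_left
  · apply Continuous.integrable_of_hasCompactSupport (hf.continuous.mul hg1.continuous)
    rcases hc with hc | hc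
    · exact hc.mul_right
    · exact (hc.fderiv_apply ℝ ξ).mul_left
  · exact fun x _ => hf.differentiable (by norm_num) x
  · exact fun x _ => hg1.differentiable (by norm_num) x

private theorem int_D2 {n : ℕ} (f g : EC n → ℝ) (hf : ContDiff ℝ 2 f) (hg : ContDiff ℝ 2 g)
    (hc : HasCompactSupport f) (ξ : EC n) :
    ∫ z, f z * D2 g z ξ ξ = ∫ z, g z * D2 f z ξ ξ := by
  rw [ibp_one f g hf hg (Or.inl hc), ibp_one g f hg hf (Or.inr hc)]
  congr 1
  apply integral_congr_ae
  filter_upwards with z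
  ring

private theorem integrable_D2 {n : ℕ} (f g : EC n → ℝ) (hf : ContDiff ℝ 2 f) (hg : ContDiff ℝ 2 g)
    (hc : HasCompactSupport f ∨ HasCompactSupport g) (ξ : EC n) :
    Integrable (fun z => f z * D2 g z ξ ξ) := by
  have hg1 : ContDiff ℝ 1 (fun w => fderiv ℝ g w ξ) :=
    (hg.fderiv_right (m := 1) (by norm_num)).clm_apply contDiff_const
  have hg2 : Continuous (fun w => fderiv ℝ (fun w => fderiv ℝ g w ξ) w ξ) :=
    ((hg1.fderiv_right (m := 0) (by norm_num)).clm_apply contDiff_const).continuous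
  have e1 : (fun z => f z * D2 g z ξ ξ) = fun z => f z * fderiv ℝ (fun w => fderiv ℝ g w ξ) z ξ := by
    funext z
    rw [D2_apply_eq g hg]
  rw [e1]
  apply Continuous.integrable_of_hasCompactSupport (hf.continuous.mul hg2)
  rcases hc with hc | hc
  · exact hc.mul_right
  · exact ((hc.fderiv_apply ℝ ξ).fderiv_apply ℝ ξ).mul_left

/-- J9b -/
theorem duality_levi {n : ℕ} (u χ : EC n → ℝ) (hu : ContDiff ℝ 2 u) (hχ : ContDiff ℝ 2 χ) (hc : HasCompactSupport χ) (e : EC n) :
    ∫ z, χ z * levi u z e = ∫ z, u z * levi χ z e := by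
  have key : ∀ (f g : EC n → ℝ), ContDiff ℝ 2 f → ContDiff ℝ 2 g → (HasCompactSupport f ∨ HasCompactSupport g) →
      ∫ z, f z * levi g z e = (1 / 4) * ((∫ z, f z * D2 g z e e) +
        ∫ z, f z * D2 g z (Complex.I • e) (Complex.I • e)) := by
    intro f g hf hg hfg
    rw [← integral_add (integrable_D2 f g hf hg hfg e) (integrable_D2 f g hf hg hfg _),
      ← integral_const_mul]
    congr 1
    funext z
    unfold levi
    ring
  rw [key χ u hχ hu (Or.inl hc), key u χ hu hχ (Or.inr hc), int_D2 χ u hχ hu hc e,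
    int_D2 χ u hχ hu hc (Complex.I • e)]

end CMAL
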