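import Mathlib
import Pool.Agent.Helper706.CMA.Base
import Pool.Agent.Helper706.CMA.Duality
import Pool.Agent.Helper706.CMA.DualityLevi
import Pool.Agent.Helper706.CMA.CavUnif
open MeasureTheory Metric Set Filter Topology
open scoped ENNReal ComplexOrder
noncomputable section
namespace CMAL









private theorem fderiv_scale22 {n : ℕ} {F : Type*} [NormedAddCommGroup F] [NormedSpace ℝ F] (f : EC n → F)
    (hf : Differentiable ℝ f) (c : ℝ) (z : EC n) :
    fderiv ℝ (fun w : EC n => f (c • w)) z = c • fderiv ℝ f (c • z) := by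
  have h1 : HasFDerivAt (fun w : EC n => c • w) (c • ContinuousLinearMap.id ℝ (EC n)) z :=
    (hasFDerivAt_id z).const_smul c
  have h2 : HasFDerivAt (fun w : EC n => f (c • w))
      ((fderiv ℝ f (c • z)).comp (c • ContinuousLinearMap.id ℝ (EC n))) z :=
    (hf (c • z)).hasFDerivAt.comp z h1
  rw [h2.fderiv]
  ext v
  simp

private theorem D2_scale22 {n : ℕ} (f : EC n → ℝ) (hf : ContDiff ℝ 2 f) (c : ℝ) (z : EC n) :
    D2 (fun w : EC n => f (c • w)) z = (c * c) • D2 f (c • z) := by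
  have hd : Differentiable ℝ f := hf.differentiable (by norm_num)
  have hd1 : Differentiable ℝ (fderiv ℝ f) :=
    (hf.fderiv_right (m := 1) (by norm_num)).differentiable (by norm_num)
  unfold D2
  have h1 : fderiv ℝ (fun w : EC n => f (c • w)) = fun w => c • fderiv ℝ f (c • w) := by
    funext w; exact fderiv_scale22 f hd c w
  rw [h1]
  have h2 : DifferentiableAt ℝ (fun w : EC n => fderiv ℝ f (c • w)) z :=
    (hd1 (c • z)).comp z ((differentiableAt_id).const_smul c)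
  have h3 : fderiv ℝ (fun w : EC n => c • fderiv ℝ f (c • w)) z
      = c • fderiv ℝ (fun w : EC n => fderiv ℝ f (c • w)) z := fderiv_const_smul h2 c
  rw [h3, fderiv_scale22 (fderiv ℝ f) hd1 c z, smul_smul]

private theorem levi_scale22 {n : ℕ} (f : EC n → ℝ) (hf : ContDiff ℝ 2 f) (c : ℝ) (z e : EC n) :
    levi (fun w : EC n => f (c • w)) z e = c ^ 2 * levi f (c • z) e := by
  unfold levi
  rw [D2_scale22 f hf c z]
  simp only [ContinuousLinearMap.smul_apply, smul_eq_mul]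
  ring

private theorem cav_scale22 {n : ℕ} (f : EC n → ℝ) (c δ : ℝ) (z e : EC n) :
    cav (fun w : EC n => f (c • w)) ((δ : ℂ) • e) z = cav f (((c * δ : ℝ) : ℂ) • e) (c • z) := by
  unfold cav
  congr 1
  refine intervalIntegral.integral_congr (fun θ _ => ?_)
  show f _ = f _
  congr 1
  ext i
  simp only [PiLp.smul_apply, PiLp.add_apply, smul_eq_mul, Complex.real_smul]
  push_cast
  ring

private theorem cav_zero22 {n : ℕ} (f : EC n → ℝ) (A : ℝ) (hA : ∀ z, A < ‖z‖ → f z = 0) (τ z : EC n)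
    (hz : A + ‖τ‖ < ‖z‖) : cav f τ z = 0 := by
  unfold cav
  have : ∀ θ : ℝ, f (z + Complex.exp (θ * Complex.I) • τ) = 0 := by
    intro θ
    apply hA
    have h1 : ‖Complex.exp (θ * Complex.I) • τ‖ = ‖τ‖ := by
      rw [norm_smul, Complex.norm_exp_ofReal_mul_I, one_mul]
    have h2 : ‖z‖ ≤ ‖z + Complex.exp (θ * Complex.I) • τ‖ + ‖Complex.exp (θ * Complex.I) • τ‖ := by
      have := norm_sub_le (z + Complex.exp (θ * Complex.I) • τ) (Complex.exp (θ * Complex.I) • τ)
      simpa using this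
    rw [h1] at h2
    linarith
  simp [this]

private theorem levi_zero22 {n : ℕ} (f : EC n → ℝ) (A : ℝ) (hA : ∀ z, A < ‖z‖ → f z = 0) (z e : EC n)
    (hz : A < ‖z‖) : levi f z e = 0 := by
  have h0 : f =ᶠ[𝓝 z] (fun _ => (0:ℝ)) := by
    have : ∀ᶠ w : EC n in 𝓝 z, A < ‖w‖ := continuousAt_const.eventually_lt continuous_norm.continuousAt hz
    filter_upwards [this] with w hw
    exact hA w hw
  have h1 : D2 f z = 0 := by
    unfold D2
    rw [h0.fderiv.fderiv_eq]
    simp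
  unfold levi
  rw [h1]
  simp

private theorem cav_cont22 {n : ℕ} (f : EC n → ℝ) (hf : Continuous f) (τ : EC n) : Continuous (cav f τ) := by
  unfold cav
  refine continuous_const.mul ?_
  refine intervalIntegral.continuous_parametric_intervalIntegral_of_continuous' ?_ 0 (2 * Real.pi)
  fun_prop

private theorem levi_cont22 {n : ℕ} (f : EC n → ℝ) (hf : ContDiff ℝ 2 f) (e : EC n) :
    Continuous (fun z => levi f z e) := by
  have hD : Continuous (fun z => D2 f z) := by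
    have h1 : ContDiff ℝ 1 (fderiv ℝ f) := hf.fderiv_right (m := 1) (by norm_num)
    exact h1.continuous_fderiv (by norm_num)
  unfold levi
  refine continuous_const.mul ((Continuous.add ?_ ?_))
  · exact (hD.clm_apply continuous_const).clm_apply continuous_const
  · exact (hD.clm_apply continuous_const).clm_apply continuous_const

/-- J22: weighted averages of `(cav u (δ e) - u)/δ²` and of `levi u · e` agree at infinity -/
theorem avg_cav_levi {n : ℕ} (hn : 0 < n) (u χ : EC n → ℝ) (hu : ContDiff ℝ 2 u) (hχ : ContDiff ℝ 2 χ) (hχ0 : ∀ z, 0 ≤ χ z)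
    (hc : HasCompactSupport χ) (hpos : 0 < ∫ z, χ z) (C : ℝ) (hC : ∀ z, |u z| ≤ C * (1 + ‖z‖ ^ 2)) (e : EC n) (δ : ℝ) (hδ : 0 < δ) :
    Tendsto (fun R : ℝ => ((∫ z, χ ((R⁻¹ : ℝ) • z) * ((cav u ((δ : ℂ) • e) z - u z) / δ ^ 2))
        - ∫ z, χ ((R⁻¹ : ℝ) • z) * levi u z e) / (∫ z, χ ((R⁻¹ : ℝ) • z))) atTop (𝓝 0) := by
  classical
  have hχc : Continuous χ := hχ.continuous
  have huc : Continuous u := hu.continuous
  obtain ⟨A, hA⟩ := (hc.isCompact.isBounded).subset_closedBall (0 : EC n)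
  have hA0 : ∀ z, A < ‖z‖ → χ z = 0 := by
    intro z hz
    by_contra hne
    have : z ∈ closedBall (0 : EC n) A := hA (subset_tsupport χ hne)
    rw [mem_closedBall_zero_iff] at this
    linarith
  have hA1 : ∀ z, |A| < ‖z‖ → χ z = 0 := fun z hz => hA0 z (lt_of_le_of_lt (le_abs_self A) hz)
  set B : ℝ := |A| + δ * ‖e‖ with hB
  have hB0 : 0 ≤ B := by positivity
  have hC0 : 0 ≤ C := by
    have h := hC 0
    have h2 := abs_nonneg (u 0)
    simp at h
    linarith
  set V : ℝ := volume.real (closedBall (0 : EC n) B) with hV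
  have hV0 : 0 ≤ V := measureReal_nonneg
  -- the main identity
  have key : ∀ R : ℝ, 0 < R →
      ((∫ z, χ ((R⁻¹ : ℝ) • z) * ((cav u ((δ : ℂ) • e) z - u z) / δ ^ 2))
        - ∫ z, χ ((R⁻¹ : ℝ) • z) * levi u z e) / (∫ z, χ ((R⁻¹ : ℝ) • z)) =
      (∫ w, u (R • w) * ((cav χ (((R⁻¹ * δ : ℝ) : ℂ) • e) w - χ w) / δ ^ 2
        - R⁻¹ ^ 2 * levi χ w e)) / ∫ w, χ w := by
    intro R hR
    set f : EC n → ℝ := fun z => χ ((R⁻¹ : ℝ) • z) with hf
    have hfd : ContDiff ℝ 2 f := hχ.comp (contDiff_const_smul _)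
    have hfc : Continuous f := hfd.continuous
    have hfs : HasCompactSupport f := hc.comp_smul (inv_ne_zero hR.ne')
    have hf0 : ∀ z, |A| * R < ‖z‖ → f z = 0 := by
      intro z hz
      apply hA1
      rw [norm_smul, Real.norm_eq_abs, abs_of_pos (inv_pos.mpr hR)]
      rw [← div_eq_inv_mul, lt_div_iff₀ hR]
      exact hz
    have h1 : ∫ z, f z * ((cav u ((δ : ℂ) • e) z - u z) / δ ^ 2)
        = (∫ z, u z * (cav f ((δ : ℂ) • e) z - f z)) / δ ^ 2 := by
      rw [← duality u f huc hfc hfs, ← integral_div]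
      congr 1
      funext z
      ring
    have h2 : ∫ z, f z * levi u z e = ∫ z, u z * levi f z e := duality_levi u f hu hfd hfs e
    have hi1 : Integrable (fun z => u z * (cav f ((δ : ℂ) • e) z - f z)) := by
      apply Continuous.integrable_of_hasCompactSupport
      · exact huc.mul ((cav_cont22 f hfc _).sub hfc)
      · refine HasCompactSupport.intro (isCompact_closedBall (0 : EC n) (|A| * R + ‖(δ : ℂ) • e‖)) ?_
        intro z hz
        rw [mem_closedBall_zero_iff, not_le] at hz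
        rw [cav_zero22 f _ hf0 _ _ hz, hf0 z (by have := norm_nonneg ((δ : ℂ) • e); linarith)]
        ring
    have hi2 : Integrable (fun z => u z * levi f z e) := by
      apply Continuous.integrable_of_hasCompactSupport
      · exact huc.mul (levi_cont22 f hfd e)
      · refine HasCompactSupport.intro (isCompact_closedBall (0 : EC n) (|A| * R)) ?_
        intro z hz
        rw [mem_closedBall_zero_iff, not_le] at hz
        rw [levi_zero22 f _ hf0 _ _ hz]
        ring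
    have h3 : (∫ z, f z * ((cav u ((δ : ℂ) • e) z - u z) / δ ^ 2)) - ∫ z, f z * levi u z e
        = ∫ z, (fun w => u (R • w) * ((cav χ (((R⁻¹ * δ : ℝ) : ℂ) • e) w - χ w) / δ ^ 2
          - R⁻¹ ^ 2 * levi χ w e)) (R⁻¹ • z) := by
      rw [h1, h2, ← integral_div, ← integral_sub (hi1.div_const _) hi2]
      congr 1
      funext z
      have e1 : cav f ((δ : ℂ) • e) z = cav χ (((R⁻¹ * δ : ℝ) : ℂ) • e) (R⁻¹ • z) :=
        cav_scale22 χ R⁻¹ δ z e
      have e2 : levi f z e = R⁻¹ ^ 2 * levi χ (R⁻¹ • z) e := levi_scale22 χ hχ R⁻¹ z e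
      have e3 : R • (R⁻¹ • z) = z := smul_inv_smul₀ hR.ne' z
      simp only [e1, e2, e3]
      have e4 : f z = χ (R⁻¹ • z) := rfl
      rw [e4]
      ring
    have h4 : ∫ z, χ ((R⁻¹ : ℝ) • z) = |R ^ Module.finrank ℝ (EC n)| • ∫ z, χ z :=
      MeasureTheory.Measure.integral_comp_inv_smul volume χ R
    have h5 := MeasureTheory.Measure.integral_comp_inv_smul (volume : Measure (EC n))
      (fun w => u (R • w) * ((cav χ (((R⁻¹ * δ : ℝ) : ℂ) • e) w - χ w) / δ ^ 2
          - R⁻¹ ^ 2 * levi χ w e)) R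
    rw [h3, h5]
    have h6 : ∫ z, f z = |R ^ Module.finrank ℝ (EC n)| • ∫ z, χ z := h4
    rw [h6]
    have hRp : |R ^ Module.finrank ℝ (EC n)| ≠ 0 := by
      have : 0 < R ^ Module.finrank ℝ (EC n) := pow_pos hR _
      exact (abs_pos.mpr this.ne').ne'
    simp only [smul_eq_mul]
    rw [mul_div_mul_left _ _ hRp]
  rw [Metric.tendsto_atTop]
  intro ε hε
  set I : ℝ := ∫ z, χ z with hI
  -- choose ε'
  set M : ℝ := C * (1 + B ^ 2) * V / I with hM
  have hM0 : 0 ≤ M := by positivity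
  obtain ⟨δ0, hδ0, hunif⟩ := cav_unif χ hχ hc e (ε / (M + 1) / 2) (by positivity)
  refine ⟨max 1 (2 * δ / δ0), fun R hR => ?_⟩
  have hR1 : 1 ≤ R := le_trans (le_max_left _ _) hR
  have hR2 : 2 * δ / δ0 ≤ R := le_trans (le_max_right _ _) hR
  have hRpos : 0 < R := by linarith
  rw [key R hRpos, dist_zero_right, norm_div, Real.norm_of_nonneg hpos.le]
  have hRinv : 0 < R⁻¹ := inv_pos.mpr hRpos
  have hRinv1 : R⁻¹ ≤ 1 := inv_le_one_of_one_le₀ hR1
  have hδR : R⁻¹ * δ < δ0 := by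
    rw [div_le_iff₀ hδ0] at hR2
    rw [← div_eq_inv_mul, div_lt_iff₀ hRpos]
    nlinarith
  have hδR0 : 0 < R⁻¹ * δ := by positivity
  set ε' : ℝ := ε / (M + 1) / 2 with hε'
  have hε'0 : 0 < ε' := by positivity
  -- pointwise bound
  have hbd : ∀ w ∈ closedBall (0 : EC n) B, ‖u (R • w) * ((cav χ (((R⁻¹ * δ : ℝ) : ℂ) • e) w - χ w) / δ ^ 2
        - R⁻¹ ^ 2 * levi χ w e)‖ ≤ ε' * (C * (1 + B ^ 2)) := by
    intro w hw
    rw [mem_closedBall_zero_iff] at hw
    rw [norm_mul, Real.norm_eq_abs, Real.norm_eq_abs]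
    have hu1 : |u (R • w)| ≤ C * (1 + R ^ 2 * B ^ 2) := by
      refine (hC _).trans ?_
      rw [norm_smul, Real.norm_of_nonneg hRpos.le, mul_pow]
      have : ‖w‖ ^ 2 ≤ B ^ 2 := pow_le_pow_left₀ (norm_nonneg _) hw 2
      gcongr
    have hb1 : |(cav χ (((R⁻¹ * δ : ℝ) : ℂ) • e) w - χ w) / δ ^ 2 - R⁻¹ ^ 2 * levi χ w e| ≤ ε' * R⁻¹ ^ 2 := by
      have h := hunif (R⁻¹ * δ) hδR0 hδR w
      have e5 : (cav χ (((R⁻¹ * δ : ℝ) : ℂ) • e) w - χ w) / δ ^ 2 - R⁻¹ ^ 2 * levi χ w e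
          = (cav χ (((R⁻¹ * δ : ℝ) : ℂ) • e) w - χ w - (R⁻¹ * δ) ^ 2 * levi χ w e) / δ ^ 2 := by
        field_simp
      rw [e5, abs_div, abs_of_pos (by positivity : (0:ℝ) < δ ^ 2), div_le_iff₀ (by positivity)]
      refine h.trans (le_of_eq ?_)
      ring
    calc |u (R • w)| * |(cav χ (((R⁻¹ * δ : ℝ) : ℂ) • e) w - χ w) / δ ^ 2 - R⁻¹ ^ 2 * levi χ w e|
        ≤ (C * (1 + R ^ 2 * B ^ 2)) * (ε' * R⁻¹ ^ 2) :=
          mul_le_mul hu1 hb1 (abs_nonneg _) (by positivity)
      _ = ε' * (C * (R⁻¹ ^ 2 + B ^ 2)) := by field_simp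
      _ ≤ ε' * (C * (1 + B ^ 2)) := by
          have : R⁻¹ ^ 2 ≤ 1 := pow_le_one₀ hRinv.le hRinv1
          gcongr
  have hout : ∀ w, w ∉ closedBall (0 : EC n) B → u (R • w) * ((cav χ (((R⁻¹ * δ : ℝ) : ℂ) • e) w - χ w) / δ ^ 2
        - R⁻¹ ^ 2 * levi χ w e) = 0 := by
    intro w hw
    rw [mem_closedBall_zero_iff, not_le] at hw
    have hn1 : ‖((R⁻¹ * δ : ℝ) : ℂ) • e‖ ≤ δ * ‖e‖ := by
      rw [norm_smul, Complex.norm_real, Real.norm_of_nonneg hδR0.le]
      have : R⁻¹ * δ ≤ δ := by nlinarith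
      gcongr
    have hA2 : |A| < ‖w‖ := by
      have : 0 ≤ δ * ‖e‖ := by positivity
      linarith
    rw [cav_zero22 χ _ hA1 _ _ (by linarith), hA1 w hA2, levi_zero22 χ _ hA1 _ _ hA2]
    ring
  rw [← setIntegral_eq_integral_of_forall_compl_eq_zero hout]
  have hint := norm_setIntegral_le_of_norm_le_const (μ := (volume : Measure (EC n)))
    (s := closedBall (0 : EC n) B) measure_closedBall_lt_top hbd
  rw [div_lt_iff₀ hpos]
  calc ‖∫ w in closedBall (0 : EC n) B, u (R • w) * ((cav χ (((R⁻¹ * δ : ℝ) : ℂ) • e) w - χ w) / δ ^ 2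
        - R⁻¹ ^ 2 * levi χ w e)‖ ≤ ε' * (C * (1 + B ^ 2)) * V := hint
    _ = ε' * M * I := by
        rw [hM]; field_simp
    _ < ε * I := by
        refine mul_lt_mul_of_pos_right ?_ hpos
        have h7 : ε' * (M + 1) = ε / 2 := by
          rw [hε']; field_simp
        nlinarith

end CMAL
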