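import Mathlib
import Pool.Agent.Helper706.CMA.Base
open MeasureTheory Metric Set Filter Topology
open scoped ENNReal ComplexOrder
noncomputable section
namespace CMAL


private theorem avg_lim_aux {n : ℕ} (hn : 0 < n) (A : ℝ) (hA : 0 < A) (E : Set (EC n))
    (hden : Tendsto (fun R : ℝ => volume (ball (0 : EC n) R ∩ E) / volume (ball (0 : EC n) R)) atTop (𝓝 0)) :
    ∃ ρ : ℝ → ℝ, Tendsto ρ atTop (𝓝 0) ∧ ∀ R > 0, (volume (ball (0 : EC n) (A * R) ∩ E)).toReal =
      ρ R * ((A * R) ^ Module.finrank ℝ (EC n) * (volume (ball (0 : EC n) 1)).toReal) := by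
  have : Nonempty (Fin n) := ⟨⟨0, hn⟩⟩
  have : Nontrivial (EC n) := inferInstance
  refine ⟨fun R => (volume (ball (0 : EC n) (A * R) ∩ E) / volume (ball (0 : EC n) (A * R))).toReal, ?_, ?_⟩
  · have h1 : Tendsto (fun R : ℝ => A * R) atTop atTop := tendsto_id.const_mul_atTop hA
    have h2 := hden.comp h1
    have h3 := (ENNReal.tendsto_toReal (ENNReal.zero_ne_top)).comp h2
    rw [ENNReal.toReal_zero] at h3
    exact h3
  · intro R hR
    have hAR : 0 < A * R := mul_pos hA hR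
    have h4 : (volume (ball (0 : EC n) (A * R))).toReal =
        (A * R) ^ Module.finrank ℝ (EC n) * (volume (ball (0 : EC n) 1)).toReal := by
      rw [Measure.addHaar_ball volume (0 : EC n) hAR.le, ENNReal.toReal_mul,
        ENNReal.toReal_ofReal (by positivity)]
    show _ = (volume (ball (0 : EC n) (A * R) ∩ E) / volume (ball (0 : EC n) (A * R))).toReal * _
    rw [← h4, ENNReal.toReal_div]
    have h5 : 0 < (volume (ball (0 : EC n) (A * R))).toReal :=
      ENNReal.toReal_pos (measure_ball_pos volume (0 : EC n) hAR).ne' measure_ball_lt_top.ne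
    field_simp

/-- J15: density zero superlevel sets imply weighted averages tend to zero -/
theorem avg_lim {n : ℕ} (hn : 0 < n) (χ : EC n → ℝ) (hχ : Continuous χ) (hχ0 : ∀ z, 0 ≤ χ z) (hc : HasCompactSupport χ)
    (hpos : 0 < ∫ z, χ z) (g : EC n → ℝ) (hg : Continuous g) (K : ℝ) (hg0 : ∀ z, 0 ≤ g z) (hgK : ∀ z, g z ≤ K)
    (hden : ∀ t > 0, Tendsto (fun R : ℝ => volume (ball (0 : EC n) R ∩ {z | t ≤ g z}) / volume (ball (0 : EC n) R)) atTop (𝓝 0)) :
    Tendsto (fun R : ℝ => (∫ z, χ ((R⁻¹ : ℝ) • z) * g z) / (∫ z, χ ((R⁻¹ : ℝ) • z))) atTop (𝓝 0) := by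
  obtain ⟨S, hS⟩ := hχ.bounded_above_of_compact_support hc
  obtain ⟨A0, hA0⟩ := hc.isCompact.isBounded.subset_ball (0 : EC n)
  obtain ⟨A, hAdef⟩ : ∃ A, A = max A0 1 := ⟨_, rfl⟩
  have hA : 0 < A := by rw [hAdef]; exact lt_of_lt_of_le one_pos (le_max_right _ _)
  have hsupp : ∀ z, χ z ≠ 0 → ‖z‖ < A := by
    intro z hz
    have h1 : z ∈ ball (0 : EC n) A0 := hA0 (subset_tsupport _ hz)
    rw [mem_ball_zero_iff] at h1
    rw [hAdef]
    exact lt_of_lt_of_le h1 (le_max_left _ _)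
  have hS0 : 0 ≤ S := le_trans (norm_nonneg _) (hS 0)
  have hSle : ∀ z, χ z ≤ S := fun z => le_trans (le_abs_self _) (hS z)
  have hK0 : 0 ≤ K := le_trans (hg0 0) (hgK 0)
  set I : ℝ := ∫ z, χ z with hI
  have hDR : ∀ R > 0, (∫ z : EC n, χ ((R⁻¹ : ℝ) • z)) = R ^ Module.finrank ℝ (EC n) * I := by
    intro R hR
    rw [Measure.integral_comp_inv_smul_of_nonneg volume χ hR.le, smul_eq_mul]
  have hcR : ∀ R > 0, HasCompactSupport (fun z : EC n => χ ((R⁻¹ : ℝ) • z)) := by
    intro R hR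
    exact hc.comp_homeomorph (Homeomorph.smulOfNeZero (R⁻¹ : ℝ) (inv_ne_zero hR.ne'))
  have hcontR : ∀ R : ℝ, Continuous (fun z : EC n => χ ((R⁻¹ : ℝ) • z)) := fun R =>
    hχ.comp (continuous_const_smul _)
  have hint1 : ∀ R > 0, Integrable (fun z : EC n => χ ((R⁻¹ : ℝ) • z)) := fun R hR =>
    (hcontR R).integrable_of_hasCompactSupport (hcR R hR)
  have hint2 : ∀ R > 0, Integrable (fun z : EC n => χ ((R⁻¹ : ℝ) • z) * g z) := fun R hR =>
    ((hcontR R).mul hg).integrable_of_hasCompactSupport (hcR R hR).mul_right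
  have hnn : ∀ R > 0, 0 ≤ (∫ z : EC n, χ ((R⁻¹ : ℝ) • z) * g z) / (∫ z : EC n, χ ((R⁻¹ : ℝ) • z)) := by
    intro R hR
    exact div_nonneg (integral_nonneg (fun z => mul_nonneg (hχ0 _) (hg0 _)))
      (integral_nonneg (fun z => hχ0 _))
  rw [tendsto_order]
  refine ⟨fun a ha => ?_, fun ε hε => ?_⟩
  · filter_upwards [eventually_gt_atTop (0 : ℝ)] with R hR
    exact lt_of_lt_of_le ha (hnn R hR)
  · obtain ⟨ρ, hρ, hρeq⟩ := avg_lim_aux hn A hA {z | ε / 2 ≤ g z} (hden (ε / 2) (by linarith))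
    set ω : ℝ := (volume (ball (0 : EC n) 1)).toReal with hω
    have hlim : Tendsto (fun R => (K * S * A ^ Module.finrank ℝ (EC n) * ω / I) * ρ R) atTop (𝓝 0) := by
      simpa using hρ.const_mul (K * S * A ^ Module.finrank ℝ (EC n) * ω / I)
    have hev := (tendsto_order.1 hlim).2 (ε / 2) (by linarith)
    filter_upwards [eventually_gt_atTop (0 : ℝ), hev] with R hR hR2
    have hE : MeasurableSet (ball (0 : EC n) (A * R) ∩ {z | ε / 2 ≤ g z}) :=
      measurableSet_ball.inter (isClosed_le continuous_const hg).measurableSet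
    have hEfin : volume (ball (0 : EC n) (A * R) ∩ {z | ε / 2 ≤ g z}) ≠ ⊤ :=
      (lt_of_le_of_lt (measure_mono inter_subset_left) measure_ball_lt_top).ne
    have hint3 : Integrable ((ball (0 : EC n) (A * R) ∩ {z | ε / 2 ≤ g z}).indicator (fun _ => K * S)) := by
      rw [integrable_indicator_iff hE]
      exact integrableOn_const hEfin
    have hpt : ∀ z : EC n, χ ((R⁻¹ : ℝ) • z) * g z ≤ ε / 2 * χ ((R⁻¹ : ℝ) • z) +
        (ball (0 : EC n) (A * R) ∩ {z | ε / 2 ≤ g z}).indicator (fun _ => K * S) z := by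
      intro z
      by_cases h0 : χ ((R⁻¹ : ℝ) • z) = 0
      · rw [h0]
        simp only [zero_mul, mul_zero, zero_add]
        exact indicator_nonneg (fun _ _ => mul_nonneg hK0 hS0) z
      · have h1 := hsupp _ h0
        rw [norm_smul, norm_inv, Real.norm_of_nonneg hR.le, inv_mul_lt_iff₀ hR, mul_comm] at h1
        by_cases h2 : ε / 2 ≤ g z
        · have hz : z ∈ ball (0 : EC n) (A * R) ∩ {z | ε / 2 ≤ g z} :=
            ⟨by rw [mem_ball_zero_iff]; exact h1, h2⟩
          rw [indicator_of_mem hz]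
          have h3 : χ ((R⁻¹ : ℝ) • z) * g z ≤ S * K :=
            mul_le_mul (hSle _) (hgK _) (hg0 _) hS0
          have h4 : 0 ≤ ε / 2 * χ ((R⁻¹ : ℝ) • z) := mul_nonneg (by linarith) (hχ0 _)
          linarith [mul_comm S K]
        · push Not at h2
          have h3 : χ ((R⁻¹ : ℝ) • z) * g z ≤ χ ((R⁻¹ : ℝ) • z) * (ε / 2) :=
            mul_le_mul_of_nonneg_left h2.le (hχ0 _)
          have h4 : 0 ≤ (ball (0 : EC n) (A * R) ∩ {z | ε / 2 ≤ g z}).indicator (fun _ => K * S) z :=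
            indicator_nonneg (fun _ _ => mul_nonneg hK0 hS0) z
          linarith
    have hbound := integral_mono (hint2 R hR) (((hint1 R hR).const_mul (ε / 2)).add hint3) hpt
    rw [integral_add' ((hint1 R hR).const_mul (ε / 2)) hint3, integral_const_mul,
      integral_indicator hE, setIntegral_const, smul_eq_mul, hDR R hR] at hbound
    have hmeas : (volume.real (ball (0 : EC n) (A * R) ∩ {z | ε / 2 ≤ g z})) =
      ρ R * ((A * R) ^ Module.finrank ℝ (EC n) * ω) := hρeq R hR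
    rw [hmeas] at hbound
    have hRd : 0 < R ^ Module.finrank ℝ (EC n) := by positivity
    rw [hDR R hR, div_lt_iff₀ (mul_pos hRd hpos)]
    refine lt_of_le_of_lt hbound ?_
    rw [mul_pow]
    have h6 : (K * S * A ^ Module.finrank ℝ (EC n) * ω / I) * ρ R * (R ^ Module.finrank ℝ (EC n) * I) <
        ε / 2 * (R ^ Module.finrank ℝ (EC n) * I) :=
      mul_lt_mul_of_pos_right hR2 (mul_pos hRd hpos)
    have h7 : (K * S * A ^ Module.finrank ℝ (EC n) * ω / I) * ρ R * (R ^ Module.finrank ℝ (EC n) * I) =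
        ρ R * (A ^ Module.finrank ℝ (EC n) * R ^ Module.finrank ℝ (EC n) * ω) * (K * S) := by
      field_simp
    rw [h7] at h6
    linarith

end CMAL
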