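import Mathlib
import Pool.Agent.Helper706.CMA.Base
open MeasureTheory Metric Set Filter Topology
open scoped ENNReal ComplexOrder
noncomputable section
namespace CMAL


private theorem barrier_D2 {E : Type*} [NormedAddCommGroup E] [NormedSpace ℝ E] (u h : E → ℝ)
    (hu : ContDiff ℝ 2 u) (hh : ContDiff ℝ 2 h) (hpos : ∀ z, 0 < u z) (A p : ℝ) :
    ContDiff ℝ 2 (fun z => A * u z ^ p - h z ^ 2 * u z ^ (p - 2)) ∧
    ∀ z ξ, fderiv ℝ (fderiv ℝ (fun z => A * u z ^ p - h z ^ 2 * u z ^ (p - 2))) z ξ ξ =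
      (A * p * u z ^ (p - 1) + (2 - p) * h z ^ 2 * u z ^ (p - 3)) * fderiv ℝ (fderiv ℝ u) z ξ ξ +
      (A * p * (p - 1) * u z ^ (p - 2) - (2 - p) * (3 - p) * h z ^ 2 * u z ^ (p - 4)) *
        (fderiv ℝ u z ξ) ^ 2 +
      4 * (2 - p) * h z * u z ^ (p - 3) * (fderiv ℝ u z ξ) * (fderiv ℝ h z ξ) -
      2 * u z ^ (p - 2) * (fderiv ℝ h z ξ) ^ 2 -
      2 * h z * u z ^ (p - 2) * fderiv ℝ (fderiv ℝ h) z ξ ξ := by
  have hu' : ∀ z, HasFDerivAt u (fderiv ℝ u z) z :=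
    fun z => (hu.differentiable (by norm_num) z).hasFDerivAt
  have hh' : ∀ z, HasFDerivAt h (fderiv ℝ h z) z :=
    fun z => (hh.differentiable (by norm_num) z).hasFDerivAt
  have hu2 : ∀ z, HasFDerivAt (fderiv ℝ u) (fderiv ℝ (fderiv ℝ u) z) z := fun z =>
    ((hu.fderiv_right (m := 1) (by norm_num)).differentiable (by norm_num) z).hasFDerivAt
  have hh2 : ∀ z, HasFDerivAt (fderiv ℝ h) (fderiv ℝ (fderiv ℝ h) z) z := fun z =>
    ((hh.fderiv_right (m := 1) (by norm_num)).differentiable (by norm_num) z).hasFDerivAt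
  have hr : ∀ (q : ℝ) z, HasFDerivAt (fun z => u z ^ q) ((q * u z ^ (q - 1)) • fderiv ℝ u z) z :=
    fun q z => (hu' z).rpow_const (Or.inl (hpos z).ne')
  have hF' : ∀ z, HasFDerivAt (fun z => A * u z ^ p - h z ^ 2 * u z ^ (p - 2))
      ((A * p * u z ^ (p - 1) + (2 - p) * h z ^ 2 * u z ^ (p - 3)) • fderiv ℝ u z -
        (2 * h z * u z ^ (p - 2)) • fderiv ℝ h z) z := by
    intro z
    have h4 := ((hr p z).const_mul A).sub (((hh' z).pow 2).mul (hr (p - 2) z))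
    refine h4.congr_fderiv ?_
    ext ξ
    have e1 : p - 2 - 1 = p - 3 := by ring
    simp [e1]
    ring
  have hF'' : fderiv ℝ (fun z => A * u z ^ p - h z ^ 2 * u z ^ (p - 2)) =
      fun z => ((A * p * u z ^ (p - 1) + (2 - p) * h z ^ 2 * u z ^ (p - 3)) • fderiv ℝ u z -
        (2 * h z * u z ^ (p - 2)) • fderiv ℝ h z) := funext fun z => (hF' z).fderiv
  refine ⟨?_, ?_⟩
  · exact (contDiff_const.mul (hu.rpow_const_of_ne (fun z => (hpos z).ne'))).sub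
      ((hh.pow 2).mul (hu.rpow_const_of_ne (fun z => (hpos z).ne')))
  · intro z ξ
    rw [hF'']
    have h5 := (((((hr (p - 1) z).const_mul (A * p)).add
      ((((hh' z).pow 2).const_mul (2 - p)).mul (hr (p - 3) z))).smul (hu2 z)).sub
      ((((hh' z).const_mul 2).mul (hr (p - 2) z)).smul (hh2 z)))
    have h6 := h5.fderiv
    simp only [Pi.add_apply, Pi.mul_apply] at h6
    have e1 : p - 2 - 1 = p - 3 := by ring
    have e2 : p - 1 - 1 = p - 2 := by ring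
    have e3 : p - 3 - 1 = p - 4 := by ring
    erw [h6]
    simp [e1, e2, e3]
    ring


private theorem hq_facts {n : ℕ} : ContDiff ℝ 2 (fun z : EC n => 1 + ‖z‖ ^ 2) ∧
    (∀ z ξ : EC n, fderiv ℝ (fun z : EC n => 1 + ‖z‖ ^ 2) z ξ = 2 * inner ℝ z ξ) ∧
    ∀ z ξ : EC n, fderiv ℝ (fderiv ℝ (fun z : EC n => 1 + ‖z‖ ^ 2)) z ξ ξ = 2 * ‖ξ‖ ^ 2 := by
  have h0 : ∀ z : EC n, HasFDerivAt (fun z : EC n => 1 + ‖z‖ ^ 2) (2 • (innerSL ℝ z)) z :=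
    fun z => ((hasStrictFDerivAt_norm_sq z).hasFDerivAt).const_add 1
  set L : EC n →L[ℝ] EC n →L[ℝ] ℝ :=
    (isBoundedBilinearMap_inner (𝕜 := ℝ) (E := EC n)).toContinuousLinearMap with hL
  have hLa : ∀ z ξ, L z ξ = inner ℝ z ξ := fun z ξ => rfl
  refine ⟨contDiff_const.add (contDiff_norm_sq ℝ), ?_, ?_⟩
  · intro z ξ
    rw [(h0 z).fderiv]
    simp
  · intro z ξ
    have h1 : fderiv ℝ (fun z : EC n => 1 + ‖z‖ ^ 2) = fun z => (2 : ℝ) • L z := by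
      funext z
      rw [(h0 z).fderiv]
      ext ξ
      simp [hLa]
    have h2 : HasFDerivAt (fun z => (2 : ℝ) • L z) ((2 : ℝ) • L) z := ((2 : ℝ) • L).hasFDerivAt
    rw [h1, h2.fderiv]
    simp [hLa]

private theorem inner_sq_sum {n : ℕ} (z ξ : EC n) :
    (inner ℝ z ξ) ^ 2 + (inner ℝ z (Complex.I • ξ)) ^ 2 ≤ ‖z‖ ^ 2 * ‖ξ‖ ^ 2 := by
  have hre : ∀ x y : EC n, inner ℝ x y = (inner ℂ x y).re := by
    intro x y
    rw [PiLp.inner_apply, PiLp.inner_apply, Complex.re_sum]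
    refine Finset.sum_congr rfl (fun i _ => ?_)
    simp [Complex.inner]
  rw [hre, hre, inner_smul_right]
  have h1 : (Complex.I * inner ℂ z ξ).re = - (inner ℂ z ξ).im := by simp
  rw [h1]
  have h2 := norm_inner_le_norm (𝕜 := ℂ) z ξ
  have h3 : ‖inner ℂ z ξ‖ ^ 2 = (inner ℂ z ξ).re ^ 2 + (inner ℂ z ξ).im ^ 2 := by
    rw [← Complex.normSq_eq_norm_sq, Complex.normSq_apply]
    ring
  have h4 : ‖inner ℂ z ξ‖ ^ 2 ≤ (‖z‖ * ‖ξ‖) ^ 2 := by gcongr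
  nlinarith

private theorem barrier_quad (A p H P a b : ℝ) (hP : 0 ≤ P) (hp2 : p < 2)
    (hq : A * p * (p - 1) ≤ (2 - p) * H ^ 2) :
    P * ((A * p * (p - 1) - (2 - p) * (3 - p) * H ^ 2) * a ^ 2 + 4 * (2 - p) * H * a * b -
      4 * b ^ 2) ≤ 0 := by
  have h1 : (A * p * (p - 1) - (2 - p) * (3 - p) * H ^ 2) * a ^ 2 + 4 * (2 - p) * H * a * b -
      4 * b ^ 2 ≤ 0 := by
    nlinarith [sq_nonneg ((2 - p) * H * a - 2 * b), mul_le_mul_of_nonneg_right hq (sq_nonneg a)]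
  exact mul_nonpos_of_nonneg_of_nonpos hP h1

/-- J10: the barrier -/
theorem barrier {n : ℕ} (u : EC n → ℝ) (hu : ContDiff ℝ 2 u) (c C p : ℝ) (hc : 0 < c) (hcC : c ≤ C)
    (h1 : ∀ z, c * (1 + ‖z‖ ^ 2) ≤ u z) (h2 : ∀ z, u z ≤ C * (1 + ‖z‖ ^ 2)) (hp1 : 1 < p) (hp2 : p < 2)
    (hp : 2 / c ^ 2 * p * (p - 1) ≤ (2 - p) / C ^ 2) :
    ∃ F φ : EC n → ℝ, ContDiff ℝ 2 F ∧ (∀ z, (u z) ^ p / c ^ 2 ≤ F z) ∧ (∀ z, F z ≤ 2 / c ^ 2 * (u z) ^ p) ∧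
      (∀ z, 0 ≤ φ z) ∧ (∀ z, φ z ≤ 4 / c ^ 2 * (u z) ^ (p - 1)) ∧ ∀ z ξ, levi F z ξ ≤ φ z * levi u z ξ := by
  obtain ⟨g1, g2, g3⟩ := hq_facts (n := n)
  have hhp : ∀ z : EC n, 1 ≤ 1 + ‖z‖ ^ 2 := fun z => by nlinarith [sq_nonneg ‖z‖]
  have hpos : ∀ z, 0 < u z := by
    intro z
    have h3 := h1 z
    have h4 := mul_le_mul_of_nonneg_left (hhp z) hc.le
    linarith
  have hC : 0 < C := lt_of_lt_of_le hc hcC
  obtain ⟨k1, k2⟩ := barrier_D2 u (fun z : EC n => 1 + ‖z‖ ^ 2) hu g1 hpos (2 / c ^ 2) p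
  have hH1 : ∀ z, (1 + ‖z‖ ^ 2) / u z ≤ 1 / c := by
    intro z
    rw [div_le_div_iff₀ (hpos z) hc]
    have := h1 z
    linarith
  have hH0 : ∀ z, 1 / C ≤ (1 + ‖z‖ ^ 2) / u z := by
    intro z
    rw [div_le_div_iff₀ hC (hpos z)]
    have := h2 z
    linarith
  have hHsq : ∀ z, ((1 + ‖z‖ ^ 2) / u z) ^ 2 ≤ 1 / c ^ 2 := by
    intro z
    have h3 := hH1 z
    have h4 : 0 ≤ (1 + ‖z‖ ^ 2) / u z := le_trans (by positivity) (hH0 z)
    calc ((1 + ‖z‖ ^ 2) / u z) ^ 2 ≤ (1 / c) ^ 2 := by gcongr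
      _ = 1 / c ^ 2 := by ring
  have hHsq0 : ∀ z, 1 / C ^ 2 ≤ ((1 + ‖z‖ ^ 2) / u z) ^ 2 := by
    intro z
    have h3 := hH0 z
    calc 1 / C ^ 2 = (1 / C) ^ 2 := by ring
      _ ≤ ((1 + ‖z‖ ^ 2) / u z) ^ 2 := by gcongr
  have r1 : ∀ z, u z ^ (p - 1) = u z ^ (p - 2) * u z := by
    intro z
    rw [show p - 1 = p - 2 + 1 by ring, Real.rpow_add_one (hpos z).ne']
  have r0 : ∀ z, u z ^ p = u z ^ (p - 2) * u z ^ 2 := by
    intro z
    have h3 : u z ^ p = u z ^ (p - 1) * u z := by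
      rw [← Real.rpow_add_one (hpos z).ne']
      congr 1
      ring
    rw [h3, r1]
    ring
  have r3 : ∀ z, u z ^ (p - 3) = u z ^ (p - 2) / u z := by
    intro z
    rw [show p - 3 = p - 2 - 1 by ring, Real.rpow_sub_one (hpos z).ne']
  have r4 : ∀ z, u z ^ (p - 4) = u z ^ (p - 2) / u z ^ 2 := by
    intro z
    rw [show p - 4 = p - 3 - 1 by ring, Real.rpow_sub_one (hpos z).ne', r3]
    rw [div_div]
    congr 1
    ring
  have hP : ∀ z, 0 < u z ^ (p - 2) := fun z => Real.rpow_pos_of_pos (hpos z) _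
  refine ⟨fun z => 2 / c ^ 2 * u z ^ p - (1 + ‖z‖ ^ 2) ^ 2 * u z ^ (p - 2),
    fun z => 2 / c ^ 2 * p * u z ^ (p - 1) + (2 - p) * (1 + ‖z‖ ^ 2) ^ 2 * u z ^ (p - 3),
    k1, ?_, ?_, ?_, ?_, ?_⟩
  · intro z
    have h3 := hHsq z
    have h4 : (1 + ‖z‖ ^ 2) ^ 2 * u z ^ (p - 2) = ((1 + ‖z‖ ^ 2) / u z) ^ 2 * u z ^ p := by
      rw [r0]
      have := (hpos z).ne'
      field_simp
    have h5 : 0 < u z ^ p := Real.rpow_pos_of_pos (hpos z) _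
    show u z ^ p / c ^ 2 ≤ 2 / c ^ 2 * u z ^ p - (1 + ‖z‖ ^ 2) ^ 2 * u z ^ (p - 2)
    rw [h4]
    have h6 := mul_le_mul_of_nonneg_right h3 h5.le
    have h7 : u z ^ p / c ^ 2 = 1 / c ^ 2 * u z ^ p := by ring
    have h8 : 2 / c ^ 2 * u z ^ p = 2 * (1 / c ^ 2 * u z ^ p) := by ring
    linarith
  · intro z
    have h3 : 0 ≤ (1 + ‖z‖ ^ 2) ^ 2 * u z ^ (p - 2) := by
      have := hP z
      positivity
    show 2 / c ^ 2 * u z ^ p - (1 + ‖z‖ ^ 2) ^ 2 * u z ^ (p - 2) ≤ _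
    linarith
  · intro z
    have h3 : 0 < u z ^ (p - 1) := Real.rpow_pos_of_pos (hpos z) _
    have h4 : 0 < u z ^ (p - 3) := Real.rpow_pos_of_pos (hpos z) _
    have h5 : 0 < 2 - p := by linarith
    have h6 : 0 < p := by linarith
    show 0 ≤ 2 / c ^ 2 * p * u z ^ (p - 1) + (2 - p) * (1 + ‖z‖ ^ 2) ^ 2 * u z ^ (p - 3)
    positivity
  · intro z
    have h3 := hHsq z
    have h4 : (1 + ‖z‖ ^ 2) ^ 2 * u z ^ (p - 3) = ((1 + ‖z‖ ^ 2) / u z) ^ 2 * u z ^ (p - 1) := by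
      rw [r3, r1]
      have := (hpos z).ne'
      field_simp
    have h5 : 0 < u z ^ (p - 1) := Real.rpow_pos_of_pos (hpos z) _
    have h6 : 0 < 2 - p := by linarith
    show 2 / c ^ 2 * p * u z ^ (p - 1) + (2 - p) * (1 + ‖z‖ ^ 2) ^ 2 * u z ^ (p - 3) ≤ _
    rw [mul_assoc (2 - p), h4]
    have h7 := mul_le_mul_of_nonneg_left (mul_le_mul_of_nonneg_right h3 h5.le) h6.le
    have h8 : 2 / c ^ 2 * p * u z ^ (p - 1) = 2 * p * (1 / c ^ 2 * u z ^ (p - 1)) := by ring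
    have h9 : 4 / c ^ 2 * u z ^ (p - 1) = 4 * (1 / c ^ 2 * u z ^ (p - 1)) := by ring
    have h10 : 0 < 1 / c ^ 2 * u z ^ (p - 1) := by positivity
    rw [h8, h9]
    nlinarith
  · intro z ξ
    have hU := hpos z
    have hPz := hP z
    unfold levi D2
    rw [k2 z ξ, k2 z (Complex.I • ξ)]
    simp only []
    rw [g2, g2, g3, g3, norm_smul, Complex.norm_I, one_mul]
    have hq : 2 / c ^ 2 * p * (p - 1) ≤ (2 - p) * ((1 + ‖z‖ ^ 2) / u z) ^ 2 := by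
      have h3 := hHsq0 z
      have h4 : 0 ≤ 2 - p := by linarith
      have h5 := mul_le_mul_of_nonneg_left h3 h4
      have h6 : (2 - p) / C ^ 2 = (2 - p) * (1 / C ^ 2) := by ring
      linarith
    have q1 := barrier_quad (2 / c ^ 2) p ((1 + ‖z‖ ^ 2) / u z) (u z ^ (p - 2))
      (fderiv ℝ u z ξ) (2 * inner ℝ z ξ) hPz.le hp2 hq
    have q2 := barrier_quad (2 / c ^ 2) p ((1 + ‖z‖ ^ 2) / u z) (u z ^ (p - 2))
      (fderiv ℝ u z (Complex.I • ξ)) (2 * inner ℝ z (Complex.I • ξ)) hPz.le hp2 hq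
    have q3 := inner_sq_sum z ξ
    have e4 : (1 + ‖z‖ ^ 2) ^ 2 * u z ^ (p - 4) =
        u z ^ (p - 2) * ((1 + ‖z‖ ^ 2) / u z) ^ 2 := by
      rw [r4]
      field_simp
    have e3 : (1 + ‖z‖ ^ 2) * u z ^ (p - 3) = u z ^ (p - 2) * ((1 + ‖z‖ ^ 2) / u z) := by
      rw [r3]
      field_simp
    have q4 : 8 * u z ^ (p - 2) * ((inner ℝ z ξ) ^ 2 + (inner ℝ z (Complex.I • ξ)) ^ 2) ≤
        8 * u z ^ (p - 2) * ((1 + ‖z‖ ^ 2) * ‖ξ‖ ^ 2) := by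
      refine mul_le_mul_of_nonneg_left ?_ (by positivity)
      nlinarith [sq_nonneg ‖ξ‖]
    generalize fderiv ℝ u z ξ = a at *
    generalize fderiv ℝ u z (Complex.I • ξ) = a' at *
    generalize fderiv ℝ (fderiv ℝ u) z ξ ξ = m at *
    generalize fderiv ℝ (fderiv ℝ u) z (Complex.I • ξ) (Complex.I • ξ) = m' at *
    generalize inner ℝ z ξ = b at *
    generalize inner ℝ z (Complex.I • ξ) = b' at *
    generalize u z ^ (p - 4) = P4 at *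
    generalize u z ^ (p - 3) = P3 at *
    generalize u z ^ (p - 2) = P2 at *
    generalize u z ^ (p - 1) = P1 at *
    generalize (1 + ‖z‖ ^ 2) / u z = H at *
    generalize 1 + ‖z‖ ^ 2 = h at *
    generalize ‖ξ‖ ^ 2 = N at *
    generalize 2 / c ^ 2 = A at *
    have s1 : (A * p * (p - 1) * P2 - (2 - p) * (3 - p) * h ^ 2 * P4) * a ^ 2 +
        4 * (2 - p) * h * P3 * a * (2 * b) - 2 * P2 * (2 * b) ^ 2 =
        P2 * ((A * p * (p - 1) - (2 - p) * (3 - p) * H ^ 2) * a ^ 2 +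
        4 * (2 - p) * H * a * (2 * b) - 4 * (2 * b) ^ 2) + 8 * P2 * b ^ 2 := by
      linear_combination (-(2 - p) * (3 - p) * a ^ 2) * e4 + (8 * (2 - p) * a * b) * e3
    have s2 : (A * p * (p - 1) * P2 - (2 - p) * (3 - p) * h ^ 2 * P4) * a' ^ 2 +
        4 * (2 - p) * h * P3 * a' * (2 * b') - 2 * P2 * (2 * b') ^ 2 =
        P2 * ((A * p * (p - 1) - (2 - p) * (3 - p) * H ^ 2) * a' ^ 2 +
        4 * (2 - p) * H * a' * (2 * b') - 4 * (2 * b') ^ 2) + 8 * P2 * b' ^ 2 := by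
      linear_combination (-(2 - p) * (3 - p) * a' ^ 2) * e4 + (8 * (2 - p) * a' * b') * e3
    have s3 : (A * p * P1 + (2 - p) * h ^ 2 * P3) * (1 / 4 * (m + m')) =
        1 / 4 * ((A * p * P1 + (2 - p) * h ^ 2 * P3) * m +
          (A * p * P1 + (2 - p) * h ^ 2 * P3) * m') := by ring
    rw [s3]
    linarith

end CMAL
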