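import Mathlib
import Pool.Agent.Helper706.CMA.Base
open MeasureTheory Metric Set Filter Topology
open scoped ENNReal ComplexOrder
noncomputable section
namespace CMAL
theorem finrank_EC (n : ℕ) : Module.finrank ℝ (EC n) = 2 * n := by
  rw [finrank_real_of_complex, finrank_euclideanSpace_fin]

theorem vol_ball {n : ℕ} (x : EC n) (r : ℝ) (hr : 0 < r) :
    volume (ball x r) = ENNReal.ofReal (r ^ (2 * n)) * volume (ball (0 : EC n) 1) := by
  rw [Measure.addHaar_ball_of_pos volume x hr, finrank_EC]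

theorem exists_inv {n : ℕ} (R : EC n →ₗ[ℂ] EC n) (hR : ‖LinearMap.det R‖ = 1) :
    ∃ P : EC n →ₗ[ℂ] EC n, R ∘ₗ P = LinearMap.id ∧ ‖LinearMap.det P‖ = 1 := by
  have h0 : LinearMap.det R ≠ 0 := by
    intro h; rw [h] at hR; simp at hR
  let e := LinearMap.equivOfDetNeZero R h0
  have he : R ∘ₗ (e.symm : EC n →ₗ[ℂ] EC n) = LinearMap.id := by
    ext x
    have : R (e.symm x) = x := e.apply_symm_apply x
    simp [this]
  refine ⟨e.symm, he, ?_⟩
  have := congrArg LinearMap.det he
  rw [LinearMap.det_comp, LinearMap.det_id] at this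
  have h2 := congrArg norm this
  rw [norm_mul, hR, one_mul, norm_one] at h2
  exact h2

theorem norm_bv {n : ℕ} (k : Fin n) : ‖(bv k : EC n)‖ = 1 := by
  simp [bv]

theorem lop_self {n : ℕ} (u : EC n → ℝ) (z : EC n) (R P : EC n →ₗ[ℂ] EC n) (hR : ∀ ξ, levi u z ξ = ‖R ξ‖ ^ 2)
    (hP : R ∘ₗ P = LinearMap.id) : Lop P u z = n := by
  unfold Lop
  have : ∀ k : Fin n, levi u z (P (bv k)) = 1 := by
    intro k
    rw [hR]
    have : R (P (bv k)) = bv k := by
      have := LinearMap.congr_fun hP (bv k)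
      simpa using this
    rw [this, norm_bv]; norm_num
  simp [this]

theorem D2_sub {n : ℕ} (f g : EC n → ℝ) (hf : ContDiff ℝ 2 f) (hg : ContDiff ℝ 2 g) (z : EC n) :
    D2 (fun x => f x - g x) z = D2 f z - D2 g z := by
  unfold D2
  have h1 : fderiv ℝ (fun x => f x - g x) = fun x => fderiv ℝ f x - fderiv ℝ g x := by
    funext x
    exact fderiv_fun_sub ((hf.differentiable (by norm_num)) x) ((hg.differentiable (by norm_num)) x)
  rw [h1]
  have hf' : Differentiable ℝ (fderiv ℝ f) := (hf.fderiv_right (m := 1) (by norm_num)).differentiable (by norm_num)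
  have hg' : Differentiable ℝ (fderiv ℝ g) := (hg.fderiv_right (m := 1) (by norm_num)).differentiable (by norm_num)
  exact fderiv_fun_sub (hf' z) (hg' z)

theorem D2_const_mul {n : ℕ} (a : ℝ) (f : EC n → ℝ) (hf : ContDiff ℝ 2 f) (z : EC n) :
    D2 (fun x => a * f x) z = a • D2 f z := by
  unfold D2
  have h1 : fderiv ℝ (fun x => a * f x) = fun x => a • fderiv ℝ f x := by
    funext x
    exact fderiv_const_mul ((hf.differentiable (by norm_num)) x) a
  rw [h1]
  have hf' : Differentiable ℝ (fderiv ℝ f) := (hf.fderiv_right (m := 1) (by norm_num)).differentiable (by norm_num)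
  exact fderiv_fun_const_smul (hf' z) a

theorem levi_sub {n : ℕ} (f g : EC n → ℝ) (hf : ContDiff ℝ 2 f) (hg : ContDiff ℝ 2 g) (z ξ : EC n) :
    levi (fun x => f x - g x) z ξ = levi f z ξ - levi g z ξ := by
  unfold levi; rw [D2_sub f g hf hg]; simp; ring

theorem levi_const_mul {n : ℕ} (a : ℝ) (f : EC n → ℝ) (hf : ContDiff ℝ 2 f) (z ξ : EC n) :
    levi (fun x => a * f x) z ξ = a * levi f z ξ := by
  unfold levi; rw [D2_const_mul a f hf]; simp; ring

theorem Lop_sub {n : ℕ} (P : EC n →ₗ[ℂ] EC n) (f g : EC n → ℝ) (hf : ContDiff ℝ 2 f) (hg : ContDiff ℝ 2 g) (z : EC n) :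
    Lop P (fun x => f x - g x) z = Lop P f z - Lop P g z := by
  unfold Lop; simp only [levi_sub f g hf hg, Finset.sum_sub_distrib]

theorem Lop_const_mul {n : ℕ} (P : EC n →ₗ[ℂ] EC n) (a : ℝ) (f : EC n → ℝ) (hf : ContDiff ℝ 2 f) (z : EC n) :
    Lop P (fun x => a * f x) z = a * Lop P f z := by
  unfold Lop; simp only [levi_const_mul a f hf, Finset.mul_sum]


end CMAL
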