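import Mathlib
import Pool.Agent.Helper706.CMA.Base
open MeasureTheory Metric Set Filter Topology
open scoped ENNReal ComplexOrder
noncomputable section
namespace CMAL


/-- unnormalised circle integral of a vector valued function -/
private def cavI {n : ℕ} {G : Type*} [NormedAddCommGroup G] [NormedSpace ℝ G] (f : EC n → G) (τ z : EC n) :
    G := ∫ θ in (0:ℝ)..(2 * Real.pi), f (z + Complex.exp (θ * Complex.I) • τ)

private theorem cavI_cont {n : ℕ} {G : Type*} [NormedAddCommGroup G] [NormedSpace ℝ G] (f : EC n → G)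
    (hf : Continuous f) (τ : EC n) : Continuous (cavI f τ) := by
  unfold cavI
  apply intervalIntegral.continuous_parametric_intervalIntegral_of_continuous'
  fun_prop

private theorem cavI_hasFDerivAt {n : ℕ} {G : Type*} [NormedAddCommGroup G] [NormedSpace ℝ G]
    (f : EC n → G) (hf : ContDiff ℝ 1 f) (τ z0 : EC n) :
    HasFDerivAt (cavI f τ) (cavI (fderiv ℝ f) τ z0) z0 := by
  have hfc : Continuous f := hf.continuous
  have hf'c : Continuous (fderiv ℝ f) := hf.continuous_fderiv (by norm_num)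
  have hcont : Continuous (fun p : EC n × ℝ =>
      fderiv ℝ f (p.1 + Complex.exp (p.2 * Complex.I) • τ)) := by fun_prop
  obtain ⟨C, hC⟩ := ((isCompact_closedBall z0 1).prod
    (isCompact_uIcc (a := (0 : ℝ)) (b := 2 * Real.pi))).exists_bound_of_continuousOn hcont.continuousOn
  refine intervalIntegral.hasFDerivAt_integral_of_dominated_of_fderiv_le
    (s := closedBall z0 1) (bound := fun _ => C)
    (F := fun z θ => f (z + Complex.exp (θ * Complex.I) • τ))
    (F' := fun z θ => fderiv ℝ f (z + Complex.exp (θ * Complex.I) • τ))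
    (closedBall_mem_nhds z0 one_pos) ?_ ?_ ?_ ?_ ?_ ?_
  · refine Filter.Eventually.of_forall (fun z => ?_)
    have : Continuous (fun θ : ℝ => f (z + Complex.exp (θ * Complex.I) • τ)) := by fun_prop
    exact this.aestronglyMeasurable
  · have : Continuous (fun θ : ℝ => f (z0 + Complex.exp (θ * Complex.I) • τ)) := by fun_prop
    exact this.intervalIntegrable _ _
  · have : Continuous (fun θ : ℝ => fderiv ℝ f (z0 + Complex.exp (θ * Complex.I) • τ)) := by
      fun_prop
    exact this.aestronglyMeasurable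
  · refine Filter.Eventually.of_forall (fun θ hθ z hz => ?_)
    exact hC (z, θ) ⟨hz, uIoc_subset_uIcc hθ⟩
  · exact intervalIntegrable_const
  · refine Filter.Eventually.of_forall (fun θ _ z _ => ?_)
    have h1 : HasFDerivAt f (fderiv ℝ f (z + Complex.exp (θ * Complex.I) • τ))
        (z + Complex.exp (θ * Complex.I) • τ) := (hf.differentiable (by norm_num) _).hasFDerivAt
    have h2 : HasFDerivAt (fun z : EC n => z + Complex.exp (θ * Complex.I) • τ)
        (ContinuousLinearMap.id ℝ (EC n)) z := (hasFDerivAt_id z).add_const _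
    have h3 := h1.comp z h2
    rw [ContinuousLinearMap.comp_id] at h3
    exact h3

private theorem cavI_fderiv {n : ℕ} {G : Type*} [NormedAddCommGroup G] [NormedSpace ℝ G]
    (f : EC n → G) (hf : ContDiff ℝ 1 f) (τ : EC n) :
    fderiv ℝ (cavI f τ) = cavI (fderiv ℝ f) τ :=
  funext fun z => (cavI_hasFDerivAt f hf τ z).fderiv

private theorem cavI_contDiff_one {n : ℕ} {G : Type*} [NormedAddCommGroup G] [NormedSpace ℝ G]
    (f : EC n → G) (hf : ContDiff ℝ 1 f) (τ : EC n) : ContDiff ℝ 1 (cavI f τ) := by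
  rw [contDiff_one_iff_fderiv]
  refine ⟨fun z => (cavI_hasFDerivAt f hf τ z).differentiableAt, ?_⟩
  rw [cavI_fderiv f hf τ]
  exact cavI_cont _ (hf.continuous_fderiv (by norm_num)) τ

private theorem cavI_contDiff_two {n : ℕ} {G : Type*} [NormedAddCommGroup G] [NormedSpace ℝ G]
    (f : EC n → G) (hf : ContDiff ℝ 2 f) (τ : EC n) : ContDiff ℝ 2 (cavI f τ) := by
  have hf1 : ContDiff ℝ 1 f := hf.of_le (by norm_num)
  have e : (2 : WithTop ℕ∞) = 1 + 1 := by norm_num
  have hf' : ContDiff ℝ 1 (fderiv ℝ f) := hf.fderiv_right (by rw [← e])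
  rw [e, contDiff_succ_iff_fderiv]
  refine ⟨fun z => (cavI_hasFDerivAt f hf1 τ z).differentiableAt, fun h => ?_, ?_⟩
  · exact absurd h (by simp)
  · rw [cavI_fderiv f hf1 τ]
    exact cavI_contDiff_one _ hf' τ

private theorem cav_eq {n : ℕ} (u : EC n → ℝ) (τ : EC n) :
    cav u τ = fun z => (2 * Real.pi)⁻¹ • cavI u τ z := by
  funext z
  rfl

/-- J4a -/
theorem cav_contDiff {n : ℕ} (u : EC n → ℝ) (hu : ContDiff ℝ 2 u) (τ : EC n) : ContDiff ℝ 2 (cav u τ) := by
  rw [cav_eq]
  exact (cavI_contDiff_two u hu τ).const_smul ((2 * Real.pi)⁻¹ : ℝ)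

private theorem cav_D2 {n : ℕ} (u : EC n → ℝ) (hu : ContDiff ℝ 2 u) (τ z : EC n) :
    D2 (cav u τ) z = (2 * Real.pi)⁻¹ • cavI (D2 u) τ z := by
  have e : (2 : WithTop ℕ∞) = 1 + 1 := by norm_num
  have hu1 : ContDiff ℝ 1 u := hu.of_le (by norm_num)
  have hu' : ContDiff ℝ 1 (fderiv ℝ u) := hu.fderiv_right (by rw [← e])
  have h1 : fderiv ℝ (cav u τ) = fun z => (2 * Real.pi)⁻¹ • cavI (fderiv ℝ u) τ z := by
    funext z
    rw [cav_eq]
    have h := (cavI_hasFDerivAt u hu1 τ z).const_smul ((2 * Real.pi)⁻¹ : ℝ)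
    exact h.fderiv
  unfold D2
  rw [h1]
  have h := (cavI_hasFDerivAt (fderiv ℝ u) hu' τ z).const_smul ((2 * Real.pi)⁻¹ : ℝ)
  exact h.fderiv

private theorem cavI_apply2 {n : ℕ} (F : EC n → (EC n →L[ℝ] EC n →L[ℝ] ℝ)) (hF : Continuous F)
    (τ z ξ η : EC n) :
    cavI F τ z ξ η = ∫ θ in (0:ℝ)..(2 * Real.pi), F (z + Complex.exp (θ * Complex.I) • τ) ξ η := by
  have h1 : Continuous (fun θ : ℝ => F (z + Complex.exp (θ * Complex.I) • τ)) := by fun_prop
  have h2 : Continuous (fun θ : ℝ => F (z + Complex.exp (θ * Complex.I) • τ) ξ) := by fun_prop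
  unfold cavI
  rw [ContinuousLinearMap.intervalIntegral_apply (h1.intervalIntegrable _ _),
    ContinuousLinearMap.intervalIntegral_apply (h2.intervalIntegrable _ _)]

/-- J4b -/
theorem cav_levi {n : ℕ} (u : EC n → ℝ) (hu : ContDiff ℝ 2 u) (τ z ξ : EC n) :
    levi (cav u τ) z ξ = (2 * Real.pi)⁻¹ * ∫ θ in (0:ℝ)..(2 * Real.pi), levi u (z + Complex.exp (θ * Complex.I) • τ) ξ := by
  have e : (2 : WithTop ℕ∞) = 1 + 1 := by norm_num
  have hu' : ContDiff ℝ 1 (fderiv ℝ u) := hu.fderiv_right (by rw [← e])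
  have hD : Continuous (D2 u) := hu'.continuous_fderiv (by norm_num)
  have hc : ∀ η : EC n, Continuous (fun θ : ℝ =>
      D2 u (z + Complex.exp (θ * Complex.I) • τ) η η) := fun η => by fun_prop
  unfold levi
  rw [cav_D2 u hu τ z]
  simp only [smul_apply, smul_eq_mul]
  rw [cavI_apply2 _ hD, cavI_apply2 _ hD, intervalIntegral.integral_const_mul,
    intervalIntegral.integral_add ((hc ξ).intervalIntegrable _ _)
      ((hc (Complex.I • ξ)).intervalIntegrable _ _)]
  ring

end CMAL
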