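import Mathlib
import Pool.Agent.Helper706.CMA.Base
open MeasureTheory Metric Set Filter Topology
open scoped ENNReal ComplexOrder
noncomputable section
namespace CMAL


/-- second order Taylor estimate -/
private theorem taylor2_aux {E : Type*} [NormedAddCommGroup E] [NormedSpace ℝ E] (u : E → ℝ)
    (hu : ContDiff ℝ 2 u) (z : E) : ∀ ε > 0, ∃ r > 0, ∀ h : E, ‖h‖ < r →
      |u (z + h) - u z - fderiv ℝ u z h - (1 / 2) * (fderiv ℝ (fderiv ℝ u) z h h)| ≤ ε * ‖h‖ ^ 2 := by
  intro ε hε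
  have hd : ∀ y, HasFDerivAt u (fderiv ℝ u y) y := fun y =>
    ((hu.differentiable (by norm_num)) y).hasFDerivAt
  have hc1 : ContDiff ℝ 1 (fderiv ℝ u) := hu.fderiv_right (by norm_num)
  have hd2 : HasFDerivAt (fderiv ℝ u) (fderiv ℝ (fderiv ℝ u) z) z :=
    ((hc1.differentiable (by norm_num)) z).hasFDerivAt
  have hsymm : ∀ v w, fderiv ℝ (fderiv ℝ u) z v w = fderiv ℝ (fderiv ℝ u) z w v := fun v w =>
    second_derivative_symmetric hd hd2 v w
  have h1 := (hasFDerivAt_iff_isLittleO_nhds_zero.1 hd2).def hε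
  obtain ⟨r, hr, hr'⟩ := Metric.eventually_nhds_iff_ball.1 h1
  refine ⟨r, hr, ?_⟩
  intro h hh
  have hg : ∀ k : E, HasFDerivAt (fun k : E => u (z + k) - u z - fderiv ℝ u z k -
      (1 / 2) * (fderiv ℝ (fderiv ℝ u) z k k))
      (fderiv ℝ u (z + k) - fderiv ℝ u z - fderiv ℝ (fderiv ℝ u) z k) k := by
    intro k
    have g1 : HasFDerivAt (fun k : E => u (z + k)) (fderiv ℝ u (z + k)) k := by
      have h5 : HasFDerivAt (fun k : E => u (z + k))
          ((fderiv ℝ u (z + k)).comp (ContinuousLinearMap.id ℝ E)) k :=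
        (hd (z + k)).comp k ((hasFDerivAt_id k).const_add z)
      rwa [ContinuousLinearMap.comp_id] at h5
    have g2 : HasFDerivAt (fun k : E => fderiv ℝ u z k) (fderiv ℝ u z) k :=
      (fderiv ℝ u z).hasFDerivAt
    have g3 := ((fderiv ℝ (fderiv ℝ u) z).hasFDerivAt (x := k)).clm_apply (hasFDerivAt_id k)
    have g4 := ((g1.sub_const (u z)).sub g2).sub (g3.const_mul (1 / 2))
    refine g4.congr_fderiv ?_
    ext v
    simp only [sub_apply, smul_apply,
      add_apply, ContinuousLinearMap.comp_apply,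
      ContinuousLinearMap.flip_apply, ContinuousLinearMap.id_apply, id_eq, smul_eq_mul]
    rw [hsymm v k]
    ring
  have hb : ∀ k ∈ closedBall (0 : E) ‖h‖,
      ‖fderiv ℝ u (z + k) - fderiv ℝ u z - fderiv ℝ (fderiv ℝ u) z k‖ ≤ ε * ‖h‖ := by
    intro k hk
    have hk' : ‖k‖ ≤ ‖h‖ := by simpa using hk
    have h2 := hr' k (by simpa using lt_of_le_of_lt hk' hh)
    exact h2.trans (mul_le_mul_of_nonneg_left hk' hε.le)
  have h3 := (convex_closedBall (0 : E) ‖h‖).norm_image_sub_le_of_norm_hasFDerivWithin_le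
    (fun k _ => (hg k).hasFDerivWithinAt) hb (x := 0) (y := h) (by simp) (by simp)
  simp only [add_zero, sub_self, map_zero, mul_zero, sub_zero] at h3
  rw [Real.norm_eq_abs] at h3
  refine h3.trans (le_of_eq (by ring))

/-- J7: second order expansion of the circle average at a point -/
theorem cav_tendsto {n : ℕ} (u : EC n → ℝ) (hu : ContDiff ℝ 2 u) (z e : EC n) :
    Tendsto (fun δ : ℝ => (cav u ((δ : ℂ) • e) z - u z) / δ ^ 2) (𝓝[>] 0) (𝓝 (levi u z e)) := by
  rw [Metric.tendsto_nhdsWithin_nhds]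
  intro ε hε
  have he0 : 0 ≤ ‖e‖ := norm_nonneg e
  set η : ℝ := ε / (2 * (‖e‖ ^ 2 + 1)) with hη
  have hη0 : 0 < η := by positivity
  obtain ⟨r, hr, hT⟩ := taylor2_aux u hu z η hη0
  refine ⟨r / (‖e‖ + 1), by positivity, ?_⟩
  intro δ hδ hδr
  have hδ0 : 0 < δ := hδ
  have hδe : δ * ‖e‖ < r := by
    have h1 : |δ| < r / (‖e‖ + 1) := by simpa [Real.dist_eq] using hδr
    rw [abs_of_pos hδ0, lt_div_iff₀ (by positivity)] at h1
    nlinarith
  set a : ℝ := fderiv ℝ u z e with ha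
  set b : ℝ := fderiv ℝ u z (Complex.I • e) with hb
  set A : ℝ := D2 u z e e with hA
  set B : ℝ := D2 u z e (Complex.I • e) with hB
  set B' : ℝ := D2 u z (Complex.I • e) e with hB'
  set C : ℝ := D2 u z (Complex.I • e) (Complex.I • e) with hC
  -- the displacement
  have hh : ∀ θ : ℝ, Complex.exp (θ * Complex.I) • ((δ : ℂ) • e) =
      (δ * Real.cos θ) • e + (δ * Real.sin θ) • (Complex.I • e) := by
    intro θ
    rw [Complex.exp_mul_I, ← Complex.ofReal_cos, ← Complex.ofReal_sin]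
    have e1 : ∀ (x : ℝ) (v : EC n), x • v = (x : ℂ) • v := fun x v => by
      rw [Complex.coe_smul]
    rw [e1, e1, smul_smul, smul_smul, ← add_smul]
    congr 1
    push_cast
    ring
  have hnorm : ∀ θ : ℝ, ‖Complex.exp (θ * Complex.I) • ((δ : ℂ) • e)‖ = δ * ‖e‖ := by
    intro θ
    rw [norm_smul, Complex.norm_exp_ofReal_mul_I, one_mul, norm_smul, Complex.norm_real,
      Real.norm_eq_abs, abs_of_pos hδ0]
  set Q : ℝ → ℝ := fun θ => u z + (δ * Real.cos θ * a + δ * Real.sin θ * b) +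
    (1 / 2) * (δ ^ 2 * (Real.cos θ ^ 2 * A + Real.cos θ * Real.sin θ * (B + B') +
      Real.sin θ ^ 2 * C)) with hQ
  have hQe : ∀ θ : ℝ, |u (z + Complex.exp (θ * Complex.I) • ((δ : ℂ) • e)) - Q θ| ≤
      η * (δ * ‖e‖) ^ 2 := by
    intro θ
    have h1 := hT (Complex.exp (θ * Complex.I) • ((δ : ℂ) • e)) (by rw [hnorm]; exact hδe)
    rw [hnorm] at h1
    have h2 : u (z + Complex.exp (θ * Complex.I) • ((δ : ℂ) • e)) - Q θ =
        u (z + Complex.exp (θ * Complex.I) • ((δ : ℂ) • e)) - u z -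
        fderiv ℝ u z (Complex.exp (θ * Complex.I) • ((δ : ℂ) • e)) -
        (1 / 2) * (fderiv ℝ (fderiv ℝ u) z (Complex.exp (θ * Complex.I) • ((δ : ℂ) • e))
          (Complex.exp (θ * Complex.I) • ((δ : ℂ) • e))) := by
      have h3 : fderiv ℝ u z (Complex.exp (θ * Complex.I) • ((δ : ℂ) • e)) =
          δ * Real.cos θ * a + δ * Real.sin θ * b := by
        rw [hh, map_add, map_smul, map_smul, smul_eq_mul, smul_eq_mul]
      have h4 : fderiv ℝ (fderiv ℝ u) z (Complex.exp (θ * Complex.I) • ((δ : ℂ) • e))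
          (Complex.exp (θ * Complex.I) • ((δ : ℂ) • e)) =
          δ ^ 2 * (Real.cos θ ^ 2 * A + Real.cos θ * Real.sin θ * (B + B') +
            Real.sin θ ^ 2 * C) := by
        have h5 : ∀ v w : EC n, fderiv ℝ (fderiv ℝ u) z v w = D2 u z v w := fun v w => rfl
        rw [h5, hh]
        simp only [map_add, map_smul, add_apply,
          smul_apply, smul_eq_mul]
        rw [← hA, ← hB, ← hB', ← hC]
        ring
      rw [h3, h4]
      simp only [hQ]
      ring
    rw [h2]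
    exact h1
  have hQc : Continuous Q := by
    simp only [hQ]
    fun_prop
  have huc : Continuous fun θ : ℝ => u (z + Complex.exp (θ * Complex.I) • ((δ : ℂ) • e)) := by
    have := hu.continuous
    fun_prop
  have hQi : ∫ θ in (0:ℝ)..(2 * Real.pi), Q θ = 2 * Real.pi * (u z + δ ^ 2 * levi u z e) := by
    have i1 : ∫ θ in (0:ℝ)..(2 * Real.pi), Real.cos θ = 0 := by simp
    have i2 : ∫ θ in (0:ℝ)..(2 * Real.pi), Real.sin θ = 0 := by simp
    have i3 : ∫ θ in (0:ℝ)..(2 * Real.pi), Real.cos θ ^ 2 = Real.pi := by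
      rw [integral_cos_sq]; simp
    have i4 : ∫ θ in (0:ℝ)..(2 * Real.pi), Real.sin θ ^ 2 = Real.pi := by
      rw [integral_sin_sq]; simp
    have i5 : ∫ θ in (0:ℝ)..(2 * Real.pi), Real.cos θ * Real.sin θ = 0 := by
      have := integral_sin_mul_cos₁ (a := 0) (b := 2 * Real.pi)
      simp only [mul_comm (Real.cos _) (Real.sin _)]
      rw [this]; simp
    have e1 : ∀ θ, Q θ = u z + ((δ * a) * Real.cos θ + (δ * b) * Real.sin θ) +
        ((δ ^ 2 / 2 * A) * Real.cos θ ^ 2 + (δ ^ 2 / 2 * (B + B')) * (Real.cos θ * Real.sin θ) +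
          (δ ^ 2 / 2 * C) * Real.sin θ ^ 2) := by
      intro θ
      simp only [hQ]
      ring
    simp_rw [e1]
    rw [intervalIntegral.integral_add, intervalIntegral.integral_add,
      intervalIntegral.integral_add, intervalIntegral.integral_add,
      intervalIntegral.integral_add, intervalIntegral.integral_const_mul,
      intervalIntegral.integral_const_mul, intervalIntegral.integral_const_mul,
      intervalIntegral.integral_const_mul, intervalIntegral.integral_const_mul, i1, i2, i3, i4, i5,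
      intervalIntegral.integral_const, smul_eq_mul, levi, ← hA, ← hC]
    · ring
    all_goals exact Continuous.intervalIntegrable (by fun_prop) _ _
  have hdiff : cav u ((δ : ℂ) • e) z - u z - δ ^ 2 * levi u z e =
      (2 * Real.pi)⁻¹ * ∫ θ in (0:ℝ)..(2 * Real.pi),
        (u (z + Complex.exp (θ * Complex.I) • ((δ : ℂ) • e)) - Q θ) := by
    rw [intervalIntegral.integral_sub (huc.intervalIntegrable _ _) (hQc.intervalIntegrable _ _),
      hQi]
    unfold cav
    have hpi : (2 * Real.pi) ≠ 0 := by positivity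
    generalize (∫ θ in (0:ℝ)..(2 * Real.pi),
      u (z + Complex.exp (θ * Complex.I) • ((δ : ℂ) • e))) = J
    field_simp
    ring
  have hbound : |cav u ((δ : ℂ) • e) z - u z - δ ^ 2 * levi u z e| ≤ η * (δ * ‖e‖) ^ 2 := by
    rw [hdiff, abs_mul, abs_of_pos (by positivity : (0:ℝ) < (2 * Real.pi)⁻¹)]
    have h6 := intervalIntegral.norm_integral_le_of_norm_le_const (a := (0:ℝ)) (b := 2 * Real.pi)
      (C := η * (δ * ‖e‖) ^ 2)
      (f := fun θ => u (z + Complex.exp (θ * Complex.I) • ((δ : ℂ) • e)) - Q θ)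
      (fun θ _ => by rw [Real.norm_eq_abs]; exact hQe θ)
    rw [Real.norm_eq_abs, sub_zero, abs_of_pos (by positivity : (0:ℝ) < 2 * Real.pi)] at h6
    calc (2 * Real.pi)⁻¹ * |∫ θ in (0:ℝ)..(2 * Real.pi),
          (u (z + Complex.exp (θ * Complex.I) • ((δ : ℂ) • e)) - Q θ)|
        ≤ (2 * Real.pi)⁻¹ * (η * (δ * ‖e‖) ^ 2 * (2 * Real.pi)) :=
          mul_le_mul_of_nonneg_left h6 (by positivity)
      _ = η * (δ * ‖e‖) ^ 2 := by field_simp
  rw [Real.dist_eq]
  have h7 : (cav u ((δ : ℂ) • e) z - u z) / δ ^ 2 - levi u z e =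
      (cav u ((δ : ℂ) • e) z - u z - δ ^ 2 * levi u z e) / δ ^ 2 := by
    field_simp
  rw [h7, abs_div, abs_of_pos (by positivity : (0:ℝ) < δ ^ 2), div_lt_iff₀ (by positivity)]
  refine lt_of_le_of_lt hbound ?_
  have h8 : η * (δ * ‖e‖) ^ 2 = (η * ‖e‖ ^ 2) * δ ^ 2 := by ring
  rw [h8]
  apply mul_lt_mul_of_pos_right _ (by positivity)
  have h9 : η * (‖e‖ ^ 2 + 1) = ε / 2 := by
    rw [hη]; field_simp
  nlinarith [sq_nonneg ‖e‖]

end CMAL
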