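import Mathlib
import Pool.Agent.Helper706.CMA.Base
open MeasureTheory Metric Set Filter Topology
open scoped ENNReal ComplexOrder
noncomputable section
namespace CMAL

/-- Wirtinger derivative `∂/∂z_k` -/
def dz {n : ℕ} (k : Fin n) (f : EC n → ℂ) (z : EC n) : ℂ :=
  (1 / 2) * (fderiv ℝ f z (EuclideanSpace.single k (1 : ℂ)) - Complex.I * fderiv ℝ f z (EuclideanSpace.single k Complex.I))

/-- Wirtinger derivative `∂/∂\bar z_k` -/
def dzbar {n : ℕ} (k : Fin n) (f : EC n → ℂ) (z : EC n) : ℂ :=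
  (1 / 2) * (fderiv ℝ f z (EuclideanSpace.single k (1 : ℂ)) + Complex.I * fderiv ℝ f z (EuclideanSpace.single k Complex.I))

/-- complex Hessian `u_{i \bar j} = ∂² u / ∂z_i ∂\bar z_j` -/
def complexHessian {n : ℕ} (u : EC n → ℝ) (z : EC n) : Matrix (Fin n) (Fin n) ℂ :=
  Matrix.of fun i j => dz i (fun w => dzbar j (fun x => (u x : ℂ)) w) z


end CMAL
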