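import Mathlib
import Pool.Agent.Helper706.CMA.Base
import Pool.Agent.Helper706.CMA.Defs
open MeasureTheory Metric Set Filter Topology
open scoped ENNReal ComplexOrder
noncomputable section
namespace CMAL






private theorem j18_single_I {n : ℕ} (j : Fin n) :
    (EuclideanSpace.single j Complex.I : EC n) = Complex.I • bv j := by
  ext k
  by_cases h : k = j
  · subst h; simp [bv]
  · simp [bv, h]

private theorem j18_fderiv_ofReal {n : ℕ} (f : EC n → ℝ) (w v : EC n) (hf : DifferentiableAt ℝ f w) :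
    fderiv ℝ (fun x => (f x : ℂ)) w v = ((fderiv ℝ f w v : ℝ) : ℂ) := by
  have h := (Complex.ofRealCLM.hasFDerivAt (x := f w)).comp w hf.hasFDerivAt
  have h2 : fderiv ℝ (fun x => (f x : ℂ)) w = Complex.ofRealCLM.comp (fderiv ℝ f w) := h.fderiv
  rw [h2]; rfl

private theorem j18_dzbar {n : ℕ} (u : EC n → ℝ) (hu : ContDiff ℝ 2 u) (j : Fin n) (w : EC n) :
    dzbar j (fun x => (u x : ℂ)) w = (1 / 2) * (((fderiv ℝ u w (bv j) : ℝ) : ℂ) +
      Complex.I * ((fderiv ℝ u w (Complex.I • bv j) : ℝ) : ℂ)) := by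
  have hd : DifferentiableAt ℝ u w := (hu.differentiable (by norm_num)) w
  unfold dzbar
  rw [j18_fderiv_ofReal u w _ hd, j18_fderiv_ofReal u w _ hd, j18_single_I]
  rfl

/-- the sesquilinear form -/
private def SS {n : ℕ} (u : EC n → ℝ) (z a b : EC n) : ℂ :=
  (1 / 4) * (((D2 u z a b + D2 u z (Complex.I • a) (Complex.I • b) : ℝ) : ℂ) +
    Complex.I * ((D2 u z a (Complex.I • b) - D2 u z (Complex.I • a) b : ℝ) : ℂ))

private theorem j18_hess {n : ℕ} (u : EC n → ℝ) (hu : ContDiff ℝ 2 u) (z : EC n) (i j : Fin n) :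
    complexHessian u z i j = SS u z (bv i) (bv j) := by
  have hD : HasFDerivAt (fderiv ℝ u) (D2 u z) z := by
    have h1 : ContDiff ℝ 1 (fderiv ℝ u) := hu.fderiv_right (by norm_num)
    exact ((h1.differentiable (by norm_num)) z).hasFDerivAt
  have hv : ∀ v : EC n, HasFDerivAt (fun w => ((fderiv ℝ u w v : ℝ) : ℂ))
      (Complex.ofRealCLM.comp ((ContinuousLinearMap.apply ℝ ℝ v).comp (D2 u z))) z := by
    intro v
    have h1 := (ContinuousLinearMap.apply ℝ ℝ v).hasFDerivAt.comp z hD
    exact Complex.ofRealCLM.hasFDerivAt.comp z h1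
  have hg : HasFDerivAt (fun w => dzbar j (fun x => (u x : ℂ)) w)
      ((1 / 2 : ℂ) • ((Complex.ofRealCLM.comp ((ContinuousLinearMap.apply ℝ ℝ (bv j)).comp (D2 u z))) +
        Complex.I • (Complex.ofRealCLM.comp
          ((ContinuousLinearMap.apply ℝ ℝ (Complex.I • bv j)).comp (D2 u z))))) z := by
    have h2 : (fun w => dzbar j (fun x => (u x : ℂ)) w) = fun w =>
        (1 / 2) * (((fderiv ℝ u w (bv j) : ℝ) : ℂ) +
      Complex.I * ((fderiv ℝ u w (Complex.I • bv j) : ℝ) : ℂ)) := by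
      funext w; exact j18_dzbar u hu j w
    rw [h2]
    exact ((hv (bv j)).add ((hv (Complex.I • bv j)).const_mul Complex.I)).const_mul (1 / 2 : ℂ)
  unfold complexHessian
  rw [Matrix.of_apply]
  unfold dz
  rw [hg.fderiv, j18_single_I]
  have e : ∀ v : EC n, ((1 / 2 : ℂ) • ((Complex.ofRealCLM.comp
      ((ContinuousLinearMap.apply ℝ ℝ (bv j)).comp (D2 u z))) +
        Complex.I • (Complex.ofRealCLM.comp
          ((ContinuousLinearMap.apply ℝ ℝ (Complex.I • bv j)).comp (D2 u z))))) v =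
      (1 / 2) * (((D2 u z v (bv j) : ℝ) : ℂ) + Complex.I * ((D2 u z v (Complex.I • bv j) : ℝ) : ℂ)) := by
    intro v; rfl
  rw [e, e]
  unfold SS
  have hI : Complex.I * Complex.I = -1 := Complex.I_mul_I
  have : (EuclideanSpace.single i 1 : EC n) = bv i := rfl
  rw [this]
  push_cast
  linear_combination (-(1/4) * ((D2 u z (Complex.I • bv i) (Complex.I • bv j) : ℝ) : ℂ)) * hI

private theorem j18_smul {n : ℕ} (c : ℂ) (a : EC n) : c • a = c.re • a + c.im • (Complex.I • a) := by
  ext k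
  simp only [PiLp.smul_apply, PiLp.add_apply, smul_eq_mul, Complex.real_smul]
  nth_rewrite 1 [← Complex.re_add_im c]
  ring

private theorem SS_add_left {n : ℕ} (u : EC n → ℝ) (z a a' b : EC n) :
    SS u z (a + a') b = SS u z a b + SS u z a' b := by
  unfold SS
  simp only [smul_add, map_add, ContinuousLinearMap.add_apply]
  push_cast; ring

private theorem SS_add_right {n : ℕ} (u : EC n → ℝ) (z a b b' : EC n) :
    SS u z a (b + b') = SS u z a b + SS u z a b' := by
  unfold SS
  simp only [smul_add, map_add]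
  push_cast; ring

private theorem j18_I_smul_smul {n : ℕ} (r : ℝ) (a : EC n) : Complex.I • (r • a) = r • (Complex.I • a) :=
  smul_comm _ _ _

private theorem j18_I_I {n : ℕ} (a : EC n) : Complex.I • (Complex.I • a) = -a := by
  rw [smul_smul, Complex.I_mul_I, neg_smul, one_smul]

private theorem SS_rsmul_left {n : ℕ} (u : EC n → ℝ) (z a b : EC n) (r : ℝ) :
    SS u z (r • a) b = r * SS u z a b := by
  unfold SS
  rw [j18_I_smul_smul]
  simp only [map_smul, ContinuousLinearMap.smul_apply, smul_eq_mul]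
  push_cast; ring

private theorem SS_rsmul_right {n : ℕ} (u : EC n → ℝ) (z a b : EC n) (r : ℝ) :
    SS u z a (r • b) = r * SS u z a b := by
  unfold SS
  rw [j18_I_smul_smul]
  simp only [map_smul, smul_eq_mul]
  push_cast; ring

private theorem SS_I_left {n : ℕ} (u : EC n → ℝ) (z a b : EC n) :
    SS u z (Complex.I • a) b = Complex.I * SS u z a b := by
  unfold SS
  rw [j18_I_I]
  simp only [map_neg, ContinuousLinearMap.neg_apply]
  have hI : Complex.I * Complex.I = -1 := Complex.I_mul_I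
  push_cast
  linear_combination (-(1/4) * (((D2 u z a (Complex.I • b) : ℝ) : ℂ) -
    ((D2 u z (Complex.I • a) b : ℝ) : ℂ))) * hI

private theorem SS_I_right {n : ℕ} (u : EC n → ℝ) (z a b : EC n) :
    SS u z a (Complex.I • b) = -Complex.I * SS u z a b := by
  unfold SS
  rw [j18_I_I]
  simp only [map_neg]
  have hI : Complex.I * Complex.I = -1 := Complex.I_mul_I
  push_cast
  linear_combination ((1/4) * (((D2 u z a (Complex.I • b) : ℝ) : ℂ) -
    ((D2 u z (Complex.I • a) b : ℝ) : ℂ))) * hI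

private theorem SS_smul_left {n : ℕ} (u : EC n → ℝ) (z a b : EC n) (c : ℂ) :
    SS u z (c • a) b = c * SS u z a b := by
  rw [j18_smul, SS_add_left, SS_rsmul_left, SS_rsmul_left, SS_I_left]
  nth_rewrite 3 [← Complex.re_add_im c]
  ring

private theorem SS_smul_right {n : ℕ} (u : EC n → ℝ) (z a b : EC n) (c : ℂ) :
    SS u z a (c • b) = (starRingEnd ℂ c) * SS u z a b := by
  rw [j18_smul, SS_add_right, SS_rsmul_right, SS_rsmul_right, SS_I_right]
  have : (starRingEnd ℂ c) = c.re - c.im * Complex.I := by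
    apply Complex.ext <;> simp
  rw [this]
  ring

private theorem SS_sum_left {n : ℕ} (u : EC n → ℝ) (z b : EC n) (s : Finset (Fin n)) (f : Fin n → EC n) :
    SS u z (∑ i ∈ s, f i) b = ∑ i ∈ s, SS u z (f i) b := by
  classical
  induction s using Finset.induction_on with
  | empty => simp [SS]
  | insert a s ha ih => rw [Finset.sum_insert ha, Finset.sum_insert ha, SS_add_left, ih]

private theorem SS_sum_right {n : ℕ} (u : EC n → ℝ) (z a : EC n) (s : Finset (Fin n)) (f : Fin n → EC n) :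
    SS u z a (∑ i ∈ s, f i) = ∑ i ∈ s, SS u z a (f i) := by
  classical
  induction s using Finset.induction_on with
  | empty => simp [SS]
  | insert b s ha ih => rw [Finset.sum_insert ha, Finset.sum_insert ha, SS_add_right, ih]

private theorem j18_expand {n : ℕ} (ξ : EC n) : ξ = ∑ i, ξ i • bv i := by
  have h := (EuclideanSpace.basisFun (Fin n) ℂ).sum_repr ξ
  simp only [EuclideanSpace.basisFun_apply, EuclideanSpace.basisFun_repr] at h
  exact h.symm

private theorem SS_expand {n : ℕ} (u : EC n → ℝ) (z ξ : EC n) :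
    SS u z ξ ξ = ∑ i, ∑ j, SS u z (bv i) (bv j) * ξ i * (starRingEnd ℂ (ξ j)) := by
  conv_lhs => rw [j18_expand ξ]
  rw [SS_sum_left]
  apply Finset.sum_congr rfl
  intro i _
  rw [SS_sum_right]
  apply Finset.sum_congr rfl
  intro j _
  rw [SS_smul_left, SS_smul_right]
  ring

private theorem j18_levi {n : ℕ} (u : EC n → ℝ) (hu : ContDiff ℝ 2 u) (z ξ : EC n) :
    ((levi u z ξ : ℝ) : ℂ) = SS u z ξ ξ := by
  have hsymm : D2 u z ξ (Complex.I • ξ) = D2 u z (Complex.I • ξ) ξ := by
    have h1 : IsSymmSndFDerivAt ℝ u z := (hu.contDiffAt).isSymmSndFDerivAt (by simp)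
    exact h1.eq _ _
  unfold levi SS
  rw [hsymm, sub_self]
  push_cast; ring

section aux
open scoped MatrixOrder

private theorem j18_factor {m : ℕ} {A : Matrix (Fin m) (Fin m) ℂ} (hA : A.PosSemidef) :
    ∃ S : Matrix (Fin m) (Fin m) ℂ, A = S.conjTranspose * S := by
  obtain ⟨B, hB⟩ := CStarAlgebra.nonneg_iff_eq_star_mul_self.mp hA.nonneg
  exact ⟨B, hB⟩

end aux

/-- J18 -/
theorem frame_of_hess {n : ℕ} (u : EC n → ℝ) (hu : ContDiff ℝ 2 u) (z : EC n)
    (hpsd : (complexHessian u z).PosSemidef) (hdet : (complexHessian u z).det = 1) :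
    ∃ R : EC n →ₗ[ℂ] EC n, ‖LinearMap.det R‖ = 1 ∧ ∀ ξ, levi u z ξ = ‖R ξ‖ ^ 2 := by
  obtain ⟨B, hB⟩ := j18_factor hpsd
  refine ⟨Matrix.toEuclideanLin (B.map (starRingEnd ℂ)), ?_, ?_⟩
  · have h1 : LinearMap.det (Matrix.toEuclideanLin (B.map (starRingEnd ℂ))) =
        (B.map (starRingEnd ℂ)).det := by
      rw [Matrix.toEuclideanLin_eq_toLin, LinearMap.det_toLin]
    rw [h1]
    have h2 : (B.map (starRingEnd ℂ)).det = starRingEnd ℂ B.det := by
      rw [RingHom.map_det]; rfl
    rw [h2, RCLike.norm_conj]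
    rw [hB, Matrix.det_mul, Matrix.det_conjTranspose] at hdet
    have h3 : ‖star B.det * B.det‖ = 1 := by rw [hdet]; simp
    rw [norm_mul, norm_star] at h3
    nlinarith [norm_nonneg B.det]
  · intro ξ
    have h1 : ((levi u z ξ : ℝ) : ℂ) = ((‖Matrix.toEuclideanLin (B.map (starRingEnd ℂ)) ξ‖ ^ 2 : ℝ) : ℂ) := by
      rw [j18_levi u hu, SS_expand, EuclideanSpace.norm_sq_eq]
      push_cast
      have h2 : ∀ k, ((‖(Matrix.toEuclideanLin (B.map (starRingEnd ℂ)) ξ) k‖ : ℝ) : ℂ) ^ 2 =
          (∑ i, starRingEnd ℂ (B k i) * ξ i) * starRingEnd ℂ (∑ j, starRingEnd ℂ (B k j) * ξ j) := by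
        intro k
        have h3 : (Matrix.toEuclideanLin (B.map (starRingEnd ℂ)) ξ) k =
            ∑ i, starRingEnd ℂ (B k i) * ξ i := by
          simp [Matrix.toEuclideanLin_apply, Matrix.mulVec, dotProduct]
        rw [h3, Complex.mul_conj, Complex.normSq_eq_norm_sq]
        push_cast; rfl
      simp only [h2]
      simp only [← j18_hess u hu, hB, Matrix.mul_apply, Matrix.conjTranspose_apply, map_sum, map_mul,
        Complex.conj_conj, Finset.sum_mul, Finset.mul_sum]
      have hswap : ∀ f : Fin n → Fin n → Fin n → ℂ,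
          ∑ k, ∑ y, ∑ i, f k y i = ∑ i, ∑ y, ∑ k, f k y i := by
        intro f
        calc ∑ k, ∑ y, ∑ i, f k y i = ∑ y, ∑ k, ∑ i, f k y i := Finset.sum_comm
          _ = ∑ y, ∑ i, ∑ k, f k y i := Finset.sum_congr rfl fun y _ => Finset.sum_comm
          _ = ∑ i, ∑ y, ∑ k, f k y i := Finset.sum_comm
      rw [hswap (fun k y i => (starRingEnd ℂ) (B k i) * ξ.ofLp i *
        (B k y * (starRingEnd ℂ) (ξ.ofLp y)))]
      refine Finset.sum_congr rfl fun x _ => Finset.sum_congr rfl fun y _ =>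
        Finset.sum_congr rfl fun k _ => ?_
      have : star (B k x) = (starRingEnd ℂ) (B k x) := rfl
      rw [this]
      ring
    exact_mod_cast h1

end CMAL
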