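import Mathlib
import Pool.Agent.Helper706.CMA.Base
import Pool.Agent.Helper706.CMA.AmgmFrame
open MeasureTheory Metric Set Filter Topology
open scoped ENNReal ComplexOrder
noncomputable section
namespace CMAL




private theorem fr_sum {n : ℕ} (N : EC n → ℝ) (h0 : ∀ x, 0 ≤ N x)
    (hN2 : ∀ x y, N (x + y) + N (x - y) = 2 * N x + 2 * N y)
    (hN3 : ∀ (a : ℂ) x, N (a • x) = ‖a‖ ^ 2 * N x)
    {ι : Type*} [DecidableEq ι] (s : Finset ι) (x : ι → EC n) :
    N (∑ k ∈ s, x k) ≤ 2 ^ s.card * ∑ k ∈ s, N (x k) := by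
  induction s using Finset.induction_on with
  | empty =>
    have h := hN3 0 0
    rw [zero_smul, norm_zero] at h
    rw [Finset.sum_empty, Finset.sum_empty, h]
    norm_num
  | insert a s ha ih =>
    rw [Finset.sum_insert ha, Finset.sum_insert ha, Finset.card_insert_of_notMem ha]
    have h1 := hN2 (x a) (∑ k ∈ s, x k)
    have h2 := h0 (x a - ∑ k ∈ s, x k)
    have h3 : (1:ℝ) ≤ 2 ^ s.card := one_le_pow₀ (by norm_num)
    have h4 := h0 (x a)
    have h5 : 2 * N (x a) ≤ 2 ^ (s.card + 1) * N (x a) := by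
      rw [pow_succ]; nlinarith
    have h6 : 2 * N (∑ k ∈ s, x k) ≤ 2 ^ (s.card + 1) * ∑ k ∈ s, N (x k) := by
      rw [pow_succ]; nlinarith
    nlinarith

private theorem fr_bound {n : ℕ} (N : EC n → ℝ) (h0 : ∀ x, 0 ≤ N x)
    (hN2 : ∀ x y, N (x + y) + N (x - y) = 2 * N x + 2 * N y)
    (hN3 : ∀ (a : ℂ) x, N (a • x) = ‖a‖ ^ 2 * N x) (ε : ℝ)
    (he : ∀ k : Fin n, N (bv k) ≤ ε) (x : EC n) :
    N x ≤ 2 ^ n * ε * ‖x‖ ^ 2 := by
  have hx : x = ∑ k : Fin n, (x k) • (bv k : EC n) := by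
    ext i
    simp [bv, Finset.sum_apply, Pi.single_apply]
  have h1 := fr_sum N h0 hN2 hN3 Finset.univ (fun k : Fin n => (x k) • (bv k : EC n))
  rw [← hx, Finset.card_univ, Fintype.card_fin] at h1
  refine h1.trans ?_
  rw [mul_assoc]
  refine mul_le_mul_of_nonneg_left ?_ (by positivity)
  rw [EuclideanSpace.norm_sq_eq, Finset.mul_sum]
  refine Finset.sum_le_sum fun k _ => ?_
  rw [hN3, mul_comm]
  exact mul_le_mul_of_nonneg_right (he k) (by positivity)

private theorem fr_unit {n : ℕ} (A : EC n →ₗ[ℂ] EC n) (hA : ‖LinearMap.det A‖ = 1) (η : EC n) (hη : ‖η‖ = 1)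
    (c : ℝ) (hc : 0 ≤ c) (hb : ∀ v : EC n, ‖v‖ = 1 → ‖A v‖ ^ 2 ≤ 1 + c) :
    1 - n * c ≤ ‖A η‖ ^ 2 := by
  classical
  have hn : 0 < n := by
    rcases Nat.eq_zero_or_pos n with h | h
    · subst h
      have : η = 0 := Subsingleton.elim _ _
      rw [this, norm_zero] at hη
      exact absurd hη (by norm_num)
    · exact h
  let i0 : Fin n := ⟨0, hn⟩
  have hv : Orthonormal ℂ (({i0} : Set (Fin n)).domRestrict (fun _ : Fin n => η)) := by
    rw [orthonormal_iff_ite]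
    intro i j
    have : i = j := Subsingleton.elim _ _
    subst this
    simp [hη, inner_self_eq_norm_sq_to_K]
  obtain ⟨b, hbb⟩ := hv.exists_orthonormalBasis_extension_of_card_eq (by simp)
  have hb0 : b i0 = η := hbb i0 (by simp)
  let U : EC n →ₗ[ℂ] EC n := ((EuclideanSpace.basisFun (Fin n) ℂ).equiv b (Equiv.refl _)).toLinearEquiv.toLinearMap
  have hU : ∀ k, U (bv k) = b k := by
    intro k
    have := (EuclideanSpace.basisFun (Fin n) ℂ).equiv_apply_basis b (Equiv.refl _) k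
    simpa [U, bv] using this
  have hdU : ‖LinearMap.det U‖ = 1 := by
    have h1 := (EuclideanSpace.basisFun (Fin n) ℂ).det_to_matrix_orthonormalBasis b
    have h2 : (⇑b : Fin n → EC n) = U ∘ (EuclideanSpace.basisFun (Fin n) ℂ).toBasis := by
      funext k
      simp only [Function.comp_apply, OrthonormalBasis.coe_toBasis]
      rw [← hU k]
      simp [bv]
    rw [h2, Module.Basis.det_comp, Module.Basis.det_self, mul_one] at h1
    exact h1
  have h1 := amgm_frame (A.comp U) (by rw [LinearMap.det_comp, norm_mul, hA, hdU]; norm_num)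
  have h2 : ∑ k : Fin n, ‖(A.comp U) (bv k)‖ ^ 2 = ‖A η‖ ^ 2 + ∑ k ∈ Finset.univ.erase i0, ‖A (b k)‖ ^ 2 := by
    rw [← Finset.add_sum_erase Finset.univ _ (Finset.mem_univ i0)]
    simp only [LinearMap.comp_apply, hU, hb0]
  have h3 : ∑ k ∈ Finset.univ.erase i0, ‖A (b k)‖ ^ 2 ≤ ∑ k ∈ Finset.univ.erase i0, (1 + c) :=
    Finset.sum_le_sum fun k _ => hb _ (b.norm_eq_one k)
  rw [Finset.sum_const, Finset.card_erase_of_mem (Finset.mem_univ i0), Finset.card_univ, Fintype.card_fin,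
    nsmul_eq_mul, Nat.cast_sub hn, Nat.cast_one] at h3
  have h4 : (1:ℝ) ≤ n := by exact_mod_cast hn
  rw [h2] at h1
  nlinarith

/-- J16: rigidity from averages: if `levi u` has frames, and `G` dominates every `levi u z` and is approached -/
theorem frame_rigid {n : ℕ} (q : EC n → EC n → ℝ)
    (hfr : ∀ z, ∃ R : EC n →ₗ[ℂ] EC n, ‖LinearMap.det R‖ = 1 ∧ ∀ ξ, q z ξ = ‖R ξ‖ ^ 2)
    (G : EC n → ℝ) (hG : ∀ z ξ, q z ξ ≤ G ξ)
    (hG2 : ∀ x y, G (x + y) + G (x - y) = 2 * G x + 2 * G y) (hG3 : ∀ (a : ℂ) x, G (a • x) = ‖a‖ ^ 2 * G x)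
    (happ : ∀ ε > 0, ∃ z, ∀ k : Fin n, G (bv k) - ε ≤ q z (bv k)) (z : EC n) (ξ : EC n) :
    q z ξ = G ξ := by
  refine le_antisymm (hG z ξ) ?_
  obtain ⟨R, hR, hqR⟩ := hfr z
  have hRdet : LinearMap.det R ≠ 0 := by
    intro h; rw [h, norm_zero] at hR; exact absurd hR (by norm_num)
  have hker : LinearMap.ker R = ⊥ := by
    have := (R.equivOfDetNeZero hRdet).ker
    simpa using this
  obtain ⟨K, hK0, hK⟩ := R.exists_antilipschitzWith hker
  have hK0' : (0:ℝ) < K := by exact_mod_cast hK0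
  have hKb : ∀ x, ‖x‖ ^ 2 ≤ K ^ 2 * ‖R x‖ ^ 2 := by
    intro x
    have := hK.le_mul_dist x 0
    simp only [dist_zero_right, map_zero] at this
    rw [← mul_pow]
    exact pow_le_pow_left₀ (norm_nonneg _) this 2
  rcases eq_or_ne ξ 0 with rfl | hξ
  · have := hG3 0 0
    simp only [zero_smul, norm_zero] at this
    rw [hqR, this]
    simp
  -- main inequality
  set D : ℝ := 2 ^ n * ‖ξ‖ ^ 2 with hD
  set C : ℝ := n * (2 * 2 ^ n * K ^ 2) with hC
  have hG0 : 0 ≤ G ξ := by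
    have := hG z ξ
    rw [hqR] at this
    exact le_trans (by positivity) this
  have key : ∀ ε : ℝ, 0 < ε → 2 * (2 ^ n * ε) * K ^ 2 ≤ 1 → (1 - C * ε) * (G ξ - D * ε) ≤ q z ξ ∨ 1 - C * ε ≤ 0 := by
    intro ε hε hεs
    by_cases hC1 : 1 - C * ε ≤ 0
    · exact Or.inr hC1
    left
    push Not at hC1
    obtain ⟨z', hz'⟩ := happ ε hε
    obtain ⟨R', hR', hqR'⟩ := hfr z'
    have hR'det : LinearMap.det R' ≠ 0 := by
      intro h; rw [h, norm_zero] at hR'; exact absurd hR' (by norm_num)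
    have hNb : ∀ x, G x - ‖R' x‖ ^ 2 ≤ 2 ^ n * ε * ‖x‖ ^ 2 := by
      intro x
      refine fr_bound (fun x => G x - ‖R' x‖ ^ 2) ?_ ?_ ?_ ε ?_ x
      · intro x
        have := hG z' x
        rw [hqR'] at this
        linarith
      · intro x y
        have h1 := hG2 x y
        have h2 := parallelogram_law_with_norm ℂ (R' x) (R' y)
        simp only [map_add, map_sub]
        nlinarith
      · intro a x
        simp only [hG3, map_smul, norm_smul]
        ring
      · intro k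
        have := hz' k
        rw [hqR'] at this
        linarith
    -- inverse bound
    have hinv : ∀ x, ‖x‖ ^ 2 ≤ 2 * K ^ 2 * ‖R' x‖ ^ 2 := by
      intro x
      have h1 := hKb x
      have h2 := hG z x
      rw [hqR] at h2
      have h3 := hNb x
      have h4 : ‖R x‖ ^ 2 ≤ ‖R' x‖ ^ 2 + 2 ^ n * ε * ‖x‖ ^ 2 := by linarith
      have h5 : K ^ 2 * ‖R x‖ ^ 2 ≤ K ^ 2 * (‖R' x‖ ^ 2 + 2 ^ n * ε * ‖x‖ ^ 2) :=
        mul_le_mul_of_nonneg_left h4 (by positivity)
      have h6 : 2 * (2 ^ n * ε) * K ^ 2 * ‖x‖ ^ 2 ≤ 1 * ‖x‖ ^ 2 :=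
        mul_le_mul_of_nonneg_right hεs (by positivity)
      nlinarith
    let e := R'.equivOfDetNeZero hR'det
    have he : ∀ x, e x = R' x := fun x => rfl
    let A : EC n →ₗ[ℂ] EC n := R.comp e.symm.toLinearMap
    have hAR : ∀ x, A (R' x) = R x := by
      intro x
      simp only [A, LinearMap.comp_apply, LinearEquiv.coe_coe]
      rw [← he x, e.symm_apply_apply]
    have hdA : ‖LinearMap.det A‖ = 1 := by
      have h1 : A.comp R' = R := LinearMap.ext hAR
      have h2 := congrArg (fun f => ‖LinearMap.det f‖) h1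
      simp only [LinearMap.det_comp, norm_mul, hR', hR, mul_one] at h2
      exact h2
    have hAb : ∀ v : EC n, ‖v‖ = 1 → ‖A v‖ ^ 2 ≤ 1 + 2 ^ n * ε * (2 * K ^ 2) := by
      intro v hv
      have hx : R' (e.symm v) = v := e.apply_symm_apply v
      have h1 := hinv (e.symm v)
      have h2 := hG z (e.symm v)
      have h3 := hNb (e.symm v)
      rw [hqR, ← hAR] at h2
      rw [hx] at h1 h2 h3
      rw [hv] at h1 h3
      have h4 : 2 ^ n * ε * ‖e.symm v‖ ^ 2 ≤ 2 ^ n * ε * (2 * K ^ 2 * 1 ^ 2) :=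
        mul_le_mul_of_nonneg_left h1 (by positivity)
      nlinarith
    have hR'ξ : R' ξ ≠ 0 := by
      intro h
      have := hinv ξ
      rw [h, norm_zero] at this
      have h2 : 0 < ‖ξ‖ := norm_pos_iff.2 hξ
      nlinarith
    have hrp : 0 < ‖R' ξ‖ := norm_pos_iff.2 hR'ξ
    have hu := fr_unit A hdA ((‖R' ξ‖⁻¹ : ℂ) • R' ξ)
      (by rw [norm_smul, norm_inv, Complex.norm_real, norm_norm, inv_mul_cancel₀ hrp.ne']) _ (by positivity) hAb
    rw [map_smul, hAR, norm_smul, norm_inv, Complex.norm_real, norm_norm, mul_pow] at hu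
    have h7 : (1 - C * ε) * ‖R' ξ‖ ^ 2 ≤ ‖R ξ‖ ^ 2 := by
      have h8 : (1 - C * ε) ≤ (‖R' ξ‖⁻¹) ^ 2 * ‖R ξ‖ ^ 2 := by
        refine le_trans (le_of_eq ?_) hu
        rw [hC]; ring
      have h9 := mul_le_mul_of_nonneg_right h8 (by positivity : 0 ≤ ‖R' ξ‖ ^ 2)
      refine h9.trans (le_of_eq ?_)
      field_simp
    rw [hqR]
    refine le_trans ?_ h7
    refine mul_le_mul_of_nonneg_left ?_ hC1.le
    have := hNb ξ
    rw [hD]
    nlinarith
  -- limit
  have hlim : Tendsto (fun ε : ℝ => (1 - C * ε) * (G ξ - D * ε)) (𝓝[>] 0) (𝓝 (G ξ)) := by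
    have : Continuous (fun ε : ℝ => (1 - C * ε) * (G ξ - D * ε)) := by fun_prop
    have h := this.tendsto 0
    simp only [mul_zero, sub_zero, one_mul] at h
    exact h.mono_left nhdsWithin_le_nhds
  have hsmall1 : ∀ᶠ ε : ℝ in 𝓝[>] 0, 2 * (2 ^ n * ε) * K ^ 2 < 1 := by
    have : Continuous (fun ε : ℝ => 2 * (2 ^ n * ε) * (K:ℝ) ^ 2) := by fun_prop
    have h := this.tendsto 0
    simp only [mul_zero, zero_mul] at h
    exact (h.mono_left nhdsWithin_le_nhds).eventually (gt_mem_nhds (by norm_num))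
  have hsmall2 : ∀ᶠ ε : ℝ in 𝓝[>] 0, 0 < 1 - C * ε := by
    have : Continuous (fun ε : ℝ => 1 - C * ε) := by fun_prop
    have h := this.tendsto 0
    simp only [mul_zero, sub_zero] at h
    exact (h.mono_left nhdsWithin_le_nhds).eventually (lt_mem_nhds (by norm_num))
  refine le_of_tendsto hlim ?_
  filter_upwards [hsmall1, hsmall2, self_mem_nhdsWithin] with ε h1 h2 h3
  rcases key ε h3 h1.le with h | h
  · exact h
  · exact absurd h (not_le.2 h2)

end CMAL
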