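import Mathlib
import Pool.Agent.Helper706.CMA.Base
import Pool.Agent.Helper706.CMA.Abp
open MeasureTheory Metric Set Filter Topology
open scoped ENNReal ComplexOrder
noncomputable section
namespace CMAL




private theorem fderiv_nsq {n : ℕ} (y : EC n) :
    fderiv ℝ (fun z : EC n => ‖z - y‖ ^ 2) = fun z => (2 : ℝ) • (innerSL ℝ (z - y) : EC n →L[ℝ] ℝ) := by
  ext1 z
  have h1 : HasFDerivAt (fun z : EC n => z - y) (ContinuousLinearMap.id ℝ (EC n)) z :=
    (hasFDerivAt_id z).sub_const y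
  have h2 := h1.norm_sq
  rw [h2.fderiv]
  ext w
  simp

private theorem D2_nsq {n : ℕ} (y z ξ : EC n) : D2 (fun z : EC n => ‖z - y‖ ^ 2) z ξ ξ = 2 * ‖ξ‖ ^ 2 := by
  unfold D2
  rw [fderiv_nsq]
  have h1 : HasFDerivAt (fun z : EC n => z - y) (ContinuousLinearMap.id ℝ (EC n)) z :=
    (hasFDerivAt_id z).sub_const y
  have h3 : HasFDerivAt (fun z : EC n => (innerSL ℝ (z - y) : EC n →L[ℝ] ℝ))
      ((innerSL ℝ : EC n →L[ℝ] EC n →L[ℝ] ℝ).comp (ContinuousLinearMap.id ℝ (EC n))) z :=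
    (innerSL ℝ : EC n →L[ℝ] EC n →L[ℝ] ℝ).hasFDerivAt.comp z h1
  have h2 : HasFDerivAt (fun z : EC n => (2 : ℝ) • (innerSL ℝ (z - y) : EC n →L[ℝ] ℝ))
      ((2 : ℝ) • ((innerSL ℝ : EC n →L[ℝ] EC n →L[ℝ] ℝ).comp (ContinuousLinearMap.id ℝ (EC n)))) z :=
    h3.const_smul (2:ℝ)
  rw [h2.fderiv]
  exact congrArg (fun s : ℝ => (2 : ℝ) * s) (real_inner_self_eq_norm_sq ξ)

private theorem levi_nsq {n : ℕ} (y z ξ : EC n) : levi (fun z : EC n => ‖z - y‖ ^ 2) z ξ = ‖ξ‖ ^ 2 := by
  unfold levi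
  rw [D2_nsq, D2_nsq, norm_smul, Complex.norm_I]
  ring

private theorem D2_comb {n : ℕ} {f g : EC n → ℝ} (hf : ContDiff ℝ 2 f) (hg : ContDiff ℝ 2 g) (a c : ℝ)
    (z : EC n) : D2 (fun z => 1 - a * f z - c * g z) z = - (a • D2 f z) - c • D2 g z := by
  have hf1 : Differentiable ℝ f := hf.differentiable (by norm_num)
  have hg1 : Differentiable ℝ g := hg.differentiable (by norm_num)
  have hf2 : Differentiable ℝ (fderiv ℝ f) :=
    (hf.fderiv_right (m := 1) (by norm_num)).differentiable (by norm_num)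
  have hg2 : Differentiable ℝ (fderiv ℝ g) :=
    (hg.fderiv_right (m := 1) (by norm_num)).differentiable (by norm_num)
  have h1 : fderiv ℝ (fun z => 1 - a * f z - c * g z) =
      fun z => - (a • fderiv ℝ f z) - c • fderiv ℝ g z := by
    ext1 w
    have e : HasFDerivAt (fun z => 1 - a * f z - c * g z)
        (0 - (a • fderiv ℝ f w) - c • fderiv ℝ g w) w :=
      (((hasFDerivAt_const (1:ℝ) w).sub ((hf1 w).hasFDerivAt.const_mul a))).sub
        ((hg1 w).hasFDerivAt.const_mul c)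
    rw [e.fderiv, zero_sub]
  unfold D2
  rw [h1]
  have e : HasFDerivAt (fun z => - (a • fderiv ℝ f z) - c • fderiv ℝ g z)
      (- (a • fderiv ℝ (fderiv ℝ f) z) - c • fderiv ℝ (fderiv ℝ g) z) z :=
    (((hf2 z).hasFDerivAt.const_smul a).neg).sub ((hg2 z).hasFDerivAt.const_smul c)
  rw [e.fderiv]

private theorem Lop_comb {n : ℕ} {f g : EC n → ℝ} (hf : ContDiff ℝ 2 f) (hg : ContDiff ℝ 2 g) (a c : ℝ)
    (P : EC n →ₗ[ℂ] EC n) (z : EC n) :
    Lop P (fun z => 1 - a * f z - c * g z) z = - (a * Lop P f z) - c * Lop P g z := by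
  unfold Lop
  rw [Finset.mul_sum, Finset.mul_sum, ← Finset.sum_neg_distrib, ← Finset.sum_sub_distrib]
  apply Finset.sum_congr rfl
  intro k _
  unfold levi
  rw [D2_comb hf hg]
  simp
  ring

/-- J13a: first growth lemma -/
theorem gl1 (n : ℕ) (hn : 0 < n) (C1 : ℝ) (hC1 : 0 < C1) : ∃ μ1 : ℝ, 0 < μ1 ∧ μ1 < 1 ∧
    ∀ (P : EC n → (EC n →ₗ[ℂ] EC n)), (∀ z, ‖LinearMap.det (P z)‖ = 1) → (∀ z, ∑ k : Fin n, ‖P z (bv k)‖ ^ 2 ≤ C1) →
    ∀ f : EC n → ℝ, ContDiff ℝ 2 f → (∀ z, 0 ≤ f z) → (∀ z, Lop (P z) f z ≤ 0) →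
    ∀ (x : EC n) (r t : ℝ), 0 < r → 0 < t →
      volume (ball x r ∩ {z | f z < t}) ≤ ENNReal.ofReal μ1 * volume (ball x r) →
      ∀ y ∈ ball x (r / 2), t / 2 ≤ f y := by
  have hn' : (0:ℝ) < n := by exact_mod_cast hn
  set κ : ℝ := (n / (32 * C1)) ^ (2 * n) with hκ
  have hκ0 : 0 < κ := by positivity
  refine ⟨min (1 / 2) (κ / 2), lt_min (by norm_num) (by positivity),
    lt_of_le_of_lt (min_le_left _ _) (by norm_num), ?_⟩
  intro P hdet htr f hf hf0 hLf x r t hr ht hvol y hy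
  by_contra hlt
  push Not at hlt
  set g : EC n → ℝ := fun z => ‖z - y‖ ^ 2 with hg
  have hgc : ContDiff ℝ 2 g := by
    have : ContDiff ℝ 2 (fun z : EC n => z - y) := by fun_prop
    exact this.norm_sq ℝ
  set v : EC n → ℝ := fun z => 1 - (1 / t) * f z - (8 / r ^ 2) * g z with hv
  have hvc : ContDiff ℝ 2 v := by
    apply ContDiff.sub
    · apply ContDiff.sub contDiff_const
      exact contDiff_const.mul hf
    · exact contDiff_const.mul hgc
  have hdxy : dist y x < r / 2 := hy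
  have hsub : ball y (r / 2) ⊆ ball x r := by
    intro z hz
    have h1 : dist z y < r / 2 := hz
    have := dist_triangle z y x
    show dist z x < r
    linarith
  have hr2 : (r / 2) ≠ 0 := by positivity
  have key := abp hn P hdet v hvc (ball y (r / 2)) isOpen_ball r hr
    (by
      intro a ha b hb
      have h1 : dist a y < r / 2 := ha
      have h2 : dist b y < r / 2 := hb
      have := dist_triangle_right a b y
      linarith)
    (by
      intro z hz
      rw [frontier_ball y hr2] at hz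
      have h1 : ‖z - y‖ = r / 2 := by
        rw [← dist_eq_norm]; exact hz
      have h2 : (8 / r ^ 2) * g z = 2 := by
        rw [hg]
        simp only [h1]
        field_simp
        norm_num
      have h3 : 0 ≤ (1 / t) * f z := mul_nonneg (by positivity) (hf0 z)
      show 1 - (1 / t) * f z - (8 / r ^ 2) * g z ≤ 0
      linarith)
    (8 / r ^ 2 * C1) (by positivity)
    (by
      intro z _ _
      rw [hv, Lop_comb hf hgc]
      have h1 : Lop (P z) g z ≤ C1 := by
        have : Lop (P z) g z = ∑ k : Fin n, ‖P z (bv k)‖ ^ 2 := by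
          unfold Lop
          apply Finset.sum_congr rfl
          intro k _
          exact levi_nsq y z _
        rw [this]
        exact htr z
      have h2 : (1 / t) * Lop (P z) f z ≤ 0 :=
        mul_nonpos_of_nonneg_of_nonpos (by positivity) (hLf z)
      have h3 : (8 / r ^ 2) * Lop (P z) g z ≤ 8 / r ^ 2 * C1 :=
        mul_le_mul_of_nonneg_left h1 (by positivity)
      linarith)
    y (mem_ball_self (by positivity)) (1 / 2) (by norm_num)
    (by
      have h1 : g y = 0 := by simp [hg]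
      show 1 / 2 ≤ 1 - (1 / t) * f y - (8 / r ^ 2) * g y
      rw [h1]
      have h2 : (1 / t) * f y < 1 / 2 := by
        rw [one_div, inv_mul_lt_iff₀ ht]
        linarith
      linarith)
  have hset : ball y (r / 2) ∩ {z | 0 < v z} ⊆ ball x r ∩ {z | f z < t} := by
    rintro z ⟨hz1, hz2⟩
    refine ⟨hsub hz1, ?_⟩
    have hz3 : 0 < 1 - (1 / t) * f z - (8 / r ^ 2) * g z := hz2
    have h1 : 0 ≤ (8 / r ^ 2) * g z := by positivity
    have h2 : (1 / t) * f z < 1 := by linarith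
    rw [one_div, inv_mul_lt_iff₀ ht] at h2
    show f z < t
    linarith
  have hfin : Module.finrank ℝ (EC n) = 2 * n := by
    rw [finrank_real_of_complex, finrank_euclideanSpace, Fintype.card_fin]
  have hvx : volume (ball x r) = ENNReal.ofReal (r ^ (2 * n)) * volume (ball (0 : EC n) 1) := by
    rw [Measure.addHaar_ball_of_pos _ _ hr, hfin]
  have hv0 : volume (ball (0 : EC n) (1 / 2 / r)) =
      ENNReal.ofReal ((1 / 2 / r) ^ (2 * n)) * volume (ball (0 : EC n) 1) := by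
    rw [Measure.addHaar_ball_of_pos _ _ (by positivity), hfin]
  have hkey2 : ENNReal.ofReal ((1 / 2 / r) ^ (2 * n)) * volume (ball (0 : EC n) 1) ≤
      ENNReal.ofReal ((2 * (8 / r ^ 2 * C1) / n) ^ (2 * n)) *
        (ENNReal.ofReal (min (1 / 2) (κ / 2)) *
          (ENNReal.ofReal (r ^ (2 * n)) * volume (ball (0 : EC n) 1))) := by
    rw [← hv0, ← hvx]
    refine le_trans key ?_
    gcongr
    exact le_trans (measure_mono hset) hvol
  rw [← mul_assoc, ← mul_assoc, ← ENNReal.ofReal_mul (by positivity),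
    ← ENNReal.ofReal_mul (by positivity)] at hkey2
  have hB0 : volume (ball (0 : EC n) 1) ≠ 0 := (measure_ball_pos _ _ one_pos).ne'
  have hB1 : volume (ball (0 : EC n) 1) ≠ ⊤ := measure_ball_lt_top.ne
  rw [ENNReal.mul_le_mul_iff_left hB0 hB1, ENNReal.ofReal_le_ofReal_iff (by positivity)] at hkey2
  have e1 : (2 * (8 / r ^ 2 * C1) / n) ^ (2 * n) * κ * r ^ (2 * n) = (1 / 2 / r) ^ (2 * n) := by
    rw [hκ, ← mul_pow, ← mul_pow]
    congr 1
    field_simp
    norm_num
  have hm : min (1 / 2) (κ / 2) ≤ κ / 2 := min_le_right _ _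
  have h5 : (2 * (8 / r ^ 2 * C1) / n) ^ (2 * n) * min (1 / 2) (κ / 2) * r ^ (2 * n) ≤
      (2 * (8 / r ^ 2 * C1) / n) ^ (2 * n) * (κ / 2) * r ^ (2 * n) := by gcongr
  have h6 : (2 * (8 / r ^ 2 * C1) / n) ^ (2 * n) * (κ / 2) * r ^ (2 * n) =
      (1 / 2 / r) ^ (2 * n) / 2 := by rw [← e1]; ring
  have h7 : 0 < (1 / 2 / r) ^ (2 * n) := by positivity
  linarith

end CMAL
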