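import Mathlib
import Pool.Agent.Helper706.CMA.Base
open MeasureTheory Metric Set Filter Topology
open scoped ENNReal ComplexOrder
noncomputable section
namespace CMAL


private theorem h441_third (F : ℂ → ℂ) (hF : Differentiable ℂ F) (A : ℝ)
    (hA : ∀ z, ‖F z‖ ≤ A * (1 + ‖z‖ ^ 2)) (c : ℂ) : iteratedDeriv 3 F c = 0 := by
  have hA0 : 0 ≤ A := by
    have h1 := hA 0
    rw [norm_zero] at h1
    have h2 := norm_nonneg (F 0)
    nlinarith
  have h1 : ∀ R : ℝ, 1 + ‖c‖ ≤ R → ‖iteratedDeriv 3 F c‖ * R ≤ 30 * A := by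
    intro R hR
    have hc := norm_nonneg c
    have hR0 : 0 < R := by linarith
    have h2 := Complex.norm_iteratedDeriv_le_of_forall_mem_sphere_norm_le (c := c) (R := R)
      (C := 5 * A * R ^ 2) (f := F) 3 hR0 hF.diffContOnCl (fun z hz => by
        refine (hA z).trans ?_
        have h3 : ‖z‖ ≤ 2 * R := by
          have h4 : ‖z - c‖ = R := mem_sphere_iff_norm.1 hz
          have h5 : ‖z‖ ≤ ‖z - c‖ + ‖c‖ := by
            have := norm_add_le (z - c) c
            rwa [sub_add_cancel] at this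
          linarith
        have h6 : ‖z‖ ^ 2 ≤ (2 * R) ^ 2 := pow_le_pow_left₀ (norm_nonneg z) h3 2
        have h7 : 1 + ‖z‖ ^ 2 ≤ 5 * R ^ 2 := by nlinarith
        nlinarith)
    have h8 : ((Nat.factorial 3 : ℕ) : ℝ) * (5 * A * R ^ 2) / R ^ 3 = 30 * A / R := by
      have : ((Nat.factorial 3 : ℕ) : ℝ) = 6 := by norm_num [Nat.factorial]
      rw [this]
      field_simp
      ring
    rw [h8, le_div_iff₀ hR0] at h2
    exact h2
  by_contra hne
  have hpos : 0 < ‖iteratedDeriv 3 F c‖ := norm_pos_iff.mpr hne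
  have h9 := h1 (1 + ‖c‖ + 30 * A / ‖iteratedDeriv 3 F c‖) (by
    have : 0 ≤ 30 * A / ‖iteratedDeriv 3 F c‖ := by positivity
    linarith)
  rw [mul_add, mul_div_cancel₀ _ hpos.ne'] at h9
  have hc := norm_nonneg c
  nlinarith

private theorem h441_poly (F : ℂ → ℂ) (hF : Differentiable ℂ F) (h3 : ∀ c, iteratedDeriv 3 F c = 0) :
    ∃ c0 c1 c2 : ℂ, ∀ z, F z = c0 + c1 * z + c2 * z ^ 2 := by
  have hA : AnalyticOnNhd ℂ F univ := hF.differentiableOn.analyticOnNhd isOpen_univ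
  have hd1 : Differentiable ℂ (deriv F) := fun z => (hA.deriv z (mem_univ z)).differentiableAt
  have hd2 : Differentiable ℂ (deriv (deriv F)) :=
    fun z => (hA.deriv.deriv z (mem_univ z)).differentiableAt
  have e3 : ∀ c, deriv (deriv (deriv F)) c = 0 := by
    intro c
    have := h3 c
    simpa [iteratedDeriv_succ, iteratedDeriv_zero] using this
  have k2 : ∀ z, deriv (deriv F) z = deriv (deriv F) 0 :=
    fun z => is_const_of_deriv_eq_zero hd2 e3 z 0
  generalize deriv (deriv F) 0 = a2 at k2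
  have k1 : ∀ z, deriv F z - a2 * z = deriv F 0 - a2 * 0 := by
    have hder : ∀ z, HasDerivAt (fun z => deriv F z - a2 * z) 0 z := by
      intro z
      have h4 : HasDerivAt (fun z => deriv F z - a2 * z) (deriv (deriv F) z - a2 * 1) z :=
        (hd1 z).hasDerivAt.sub ((hasDerivAt_id z).const_mul a2)
      rw [k2, mul_one, sub_self] at h4
      exact h4
    exact fun z => is_const_of_deriv_eq_zero (fun z => (hder z).differentiableAt)
      (fun z => (hder z).deriv) z 0
  generalize deriv F 0 = a1 at k1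
  have k0 : ∀ z, F z - (a1 * z + a2 / 2 * z ^ 2) = F 0 - (a1 * 0 + a2 / 2 * 0 ^ 2) := by
    have hder : ∀ z, HasDerivAt (fun z => F z - (a1 * z + a2 / 2 * z ^ 2)) 0 z := by
      intro z
      have h5 : HasDerivAt (fun z : ℂ => z ^ 2) (2 * z) z := by
        have := hasDerivAt_pow 2 z
        simpa using this
      have h4 : HasDerivAt (fun z => F z - (a1 * z + a2 / 2 * z ^ 2))
          (deriv F z - (a1 * 1 + a2 / 2 * (2 * z))) z :=
        (hF z).hasDerivAt.sub (((hasDerivAt_id z).const_mul a1).add (h5.const_mul (a2 / 2)))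
      have h6 : deriv F z - (a1 * 1 + a2 / 2 * (2 * z)) = 0 := by
        have := k1 z
        linear_combination this
      rw [h6] at h4
      exact h4
    exact fun z => is_const_of_deriv_eq_zero (fun z => (hder z).differentiableAt)
      (fun z => (hder z).deriv) z 0
  refine ⟨F 0, a1, a2 / 2, fun z => ?_⟩
  linear_combination k0 z


/-- J17: Liouville for harmonic functions of one complex variable of quadratic growth -/
theorem harm1 (f : ℂ → ℝ) (hf : ContDiff ℝ 2 f)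
    (hh : ∀ z, fderiv ℝ (fderiv ℝ f) z 1 1 + fderiv ℝ (fderiv ℝ f) z Complex.I Complex.I = 0)
    (C : ℝ) (hC : ∀ z, |f z| ≤ C * (1 + ‖z‖ ^ 2)) :
    f 1 = f 0 + fderiv ℝ f 0 1 + (1 / 2) * fderiv ℝ (fderiv ℝ f) 0 1 1 := by
  
  have hharm : InnerProductSpace.HarmonicOnNhd f univ := by
    intro x _
    refine ⟨hf.contDiffAt, Filter.Eventually.of_forall fun z => ?_⟩
    rw [InnerProductSpace.laplacian_eq_iteratedFDeriv_complexPlane]
    simp only [iteratedFDeriv_two_apply]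
    exact hh z
  obtain ⟨F, hF, hFf⟩ := hharm.exists_analyticOnNhd_univ_re_eq
  have hFd : Differentiable ℂ F := fun z => (hF z (mem_univ z)).differentiableAt
  have hre : ∀ z, (F z).re = f z := fun z => congrFun hFf z
  have hCf : ∀ z, f z ≤ (|C| + 1) * (1 + ‖z‖ ^ 2) := by
    intro z
    refine (le_abs_self _).trans ((hC z).trans ?_)
    apply mul_le_mul_of_nonneg_right _ (by positivity)
    have := le_abs_self C
    linarith
  have hC0 : 0 < |C| + 1 := by positivity
  have hgrow : ∀ z, ‖F z‖ ≤ (12 * (|C| + 1) + 3 * ‖F 0‖) * (1 + ‖z‖ ^ 2) := by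
    intro z
    have hz0 := norm_nonneg z
    have h1 := Complex.borelCaratheodory (f := F) (z := z) (R := 2 * ‖z‖ + 1)
      (M := (|C| + 1) * (1 + (2 * ‖z‖ + 1) ^ 2)) (by positivity) hFd.differentiableOn (by
        intro w hw
        rw [mem_ball_zero_iff] at hw
        show (F w).re ≤ _
        rw [hre]
        refine (hCf w).trans ?_
        apply mul_le_mul_of_nonneg_left _ hC0.le
        have := pow_le_pow_left₀ (norm_nonneg w) hw.le 2
        linarith) (by linarith) (by rw [mem_ball_zero_iff]; linarith)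
    have h2 : 0 < 2 * ‖z‖ + 1 - ‖z‖ := by linarith
    have h3 : 2 * ((|C| + 1) * (1 + (2 * ‖z‖ + 1) ^ 2)) * ‖z‖ / (2 * ‖z‖ + 1 - ‖z‖) ≤
        2 * ((|C| + 1) * (1 + (2 * ‖z‖ + 1) ^ 2)) := by
      rw [div_le_iff₀ h2]
      apply mul_le_mul_of_nonneg_left _ (by positivity)
      linarith
    have h4 : ‖F 0‖ * (2 * ‖z‖ + 1 + ‖z‖) / (2 * ‖z‖ + 1 - ‖z‖) ≤ 3 * ‖F 0‖ := by
      rw [div_le_iff₀ h2]
      have := norm_nonneg (F 0)
      nlinarith
    have h5 : 1 + (2 * ‖z‖ + 1) ^ 2 ≤ 6 * (1 + ‖z‖ ^ 2) := by nlinarith [sq_nonneg (‖z‖ - 1)]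
    have h6 : (|C| + 1) * (1 + (2 * ‖z‖ + 1) ^ 2) ≤ (|C| + 1) * (6 * (1 + ‖z‖ ^ 2)) :=
      mul_le_mul_of_nonneg_left h5 hC0.le
    have h7 : ‖F 0‖ * 1 ≤ ‖F 0‖ * (1 + ‖z‖ ^ 2) :=
      mul_le_mul_of_nonneg_left (by nlinarith) (norm_nonneg _)
    linarith
  obtain ⟨c0, c1, c2, hp⟩ := h441_poly F hFd (h441_third F hFd _ hgrow)
  have hft : ∀ t : ℝ, f (t : ℂ) = c0.re + c1.re * t + c2.re * t ^ 2 := by
    intro t
    rw [← hre, hp]
    simp only [Complex.add_re, Complex.mul_re, Complex.ofReal_re, Complex.ofReal_im, mul_zero,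
      sub_zero, ← Complex.ofReal_pow]
  have hof : ∀ t : ℝ, HasDerivAt (fun s : ℝ => (s : ℂ)) 1 t := fun t => by
    have h := (hasDerivAt_id t).ofReal_comp
    rw [Complex.ofReal_one] at h
    exact h
  have hd1 : ∀ t : ℝ, HasDerivAt (fun s : ℝ => f (s : ℂ)) (fderiv ℝ f (t : ℂ) 1) t := by
    intro t
    exact ((hf.differentiable (by norm_num)) (t : ℂ)).hasFDerivAt.comp_hasDerivAt t (hof t)
  have hd1' : ∀ t : ℝ, fderiv ℝ f (t : ℂ) 1 = c1.re + 2 * c2.re * t := by
    intro t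
    have h1 : HasDerivAt (fun s : ℝ => f (s : ℂ)) (c1.re + 2 * c2.re * t) t := by
      have h2 : (fun s : ℝ => f (s : ℂ)) = fun s => c0.re + c1.re * s + c2.re * s ^ 2 :=
        funext hft
      rw [h2]
      have h3 : HasDerivAt (fun s : ℝ => s ^ 2) (2 * t) t := by
        have := hasDerivAt_pow 2 t
        simpa using this
      have h4 := (((hasDerivAt_id t).const_mul c1.re).const_add c0.re).add (h3.const_mul c2.re)
      have h5 : c1.re * 1 + c2.re * (2 * t) = c1.re + 2 * c2.re * t := by ring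
      rw [h5] at h4
      exact h4
    exact (hd1 t).unique h1
  have hd2 : HasDerivAt (fun s : ℝ => fderiv ℝ f (s : ℂ) 1) (fderiv ℝ (fderiv ℝ f) 0 1 1) 0 := by
    have h1 : Differentiable ℝ (fderiv ℝ f) :=
      (hf.fderiv_right (m := 1) (by norm_num)).differentiable (by norm_num)
    have h2 : HasDerivAt (fun s : ℝ => fderiv ℝ f (s : ℂ)) (fderiv ℝ (fderiv ℝ f) ((0 : ℝ) : ℂ) 1) 0 :=
      (h1 ((0 : ℝ) : ℂ)).hasFDerivAt.comp_hasDerivAt 0 (hof 0)
    rw [Complex.ofReal_zero] at h2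
    exact ((ContinuousLinearMap.apply ℝ ℝ (1 : ℂ)).hasFDerivAt.comp_hasDerivAt (0 : ℝ) h2)
  have hd2' : fderiv ℝ (fderiv ℝ f) 0 1 1 = 2 * c2.re := by
    have h1 : HasDerivAt (fun s : ℝ => fderiv ℝ f (s : ℂ) 1) (2 * c2.re) 0 := by
      have h2 : (fun s : ℝ => fderiv ℝ f (s : ℂ) 1) = fun s => c1.re + 2 * c2.re * s :=
        funext hd1'
      rw [h2]
      have h4 := ((hasDerivAt_id (0 : ℝ)).const_mul (2 * c2.re)).const_add c1.re
      rw [mul_one] at h4
      exact h4
    exact hd2.unique h1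
  have e1 := hft 1
  have e0 := hft 0
  have e2 := hd1' 0
  rw [Complex.ofReal_one] at e1
  rw [Complex.ofReal_zero] at e0 e2
  rw [e1, e0, e2, hd2']
  ring -- TARGET

end CMAL
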