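import Mathlib
import Pool.Agent.Helper706.CMA.Base
open MeasureTheory Metric Set Filter Topology
open scoped ENNReal ComplexOrder
noncomputable section
namespace CMAL


/-- interchange of two interval integrals of a continuous function -/
private theorem cav_swap {F : ℝ → ℝ → ℝ} (hF : Continuous (Function.uncurry F)) (a b c d : ℝ) :
    ∫ x in a..b, ∫ y in c..d, F x y = ∫ y in c..d, ∫ x in a..b, F x y := by
  apply intervalIntegral_intervalIntegral_swap
  refine (hF.continuousOn.integrableOn_compact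
    ((isCompact_uIcc (a := a) (b := b)).prod (isCompact_uIcc (a := c) (b := d)))).mono_set ?_
  exact Set.prod_mono uIoc_subset_uIcc uIoc_subset_uIcc

/-- the rotating vector -/
private def rT {n : ℕ} (τ : EC n) (θ : ℝ) : EC n := Complex.exp (θ * Complex.I) • τ

private theorem rT_hasDerivAt {n : ℕ} (τ : EC n) (θ : ℝ) :
    HasDerivAt (rT τ) (Complex.I • rT τ θ) θ := by
  have h1 : HasDerivAt (fun θ : ℝ => Complex.exp (θ * Complex.I))
      (Complex.exp (θ * Complex.I) * Complex.I) θ := by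
    have h2 : HasDerivAt (fun θ : ℝ => (θ : ℂ) * Complex.I) (1 * Complex.I) θ :=
      (Complex.ofRealCLM.hasDerivAt (x := θ)).mul_const Complex.I
    rw [one_mul] at h2
    exact h2.cexp
  have h3 := h1.smul_const τ
  unfold rT
  rw [smul_smul, mul_comm Complex.I]
  exact h3

private theorem rT_cont {n : ℕ} (τ : EC n) : Continuous (rT τ) := by
  unfold rT
  fun_prop

/-- J6: sub-mean value property -/
theorem le_cav {n : ℕ} (u : EC n → ℝ) (hu : ContDiff ℝ 2 u) (hl : ∀ z ξ, 0 ≤ levi u z ξ) (τ z : EC n) :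
    u z ≤ cav u τ z := by
  have hT := rT_cont τ
  have hu1 : Differentiable ℝ u := hu.differentiable (by norm_num)
  have hdu : ContDiff ℝ 1 (fderiv ℝ u) := hu.fderiv_right (by norm_num)
  have hdu1 : Differentiable ℝ (fderiv ℝ u) := hdu.differentiable (by norm_num)
  have hc0 : Continuous u := hu.continuous
  have hc1 : Continuous (fderiv ℝ u) := hdu.continuous
  have hc2 : Continuous (D2 u) := hdu.continuous_fderiv (by norm_num)
  have hpi : (0 : ℝ) < 2 * Real.pi := by positivity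
  have hpr : ∀ r θ : ℝ, HasDerivAt (fun r : ℝ => z + r • rT τ θ) (rT τ θ) r := by
    intro r θ
    have := ((hasDerivAt_id r).smul_const (rT τ θ)).const_add z
    simpa using this
  have hpθ : ∀ r θ : ℝ, HasDerivAt (fun θ : ℝ => z + r • rT τ θ) (r • Complex.I • rT τ θ) θ := by
    intro r θ
    exact ((rT_hasDerivAt τ θ).const_smul r).const_add z
  -- derivative in the radial direction
  have hgr : ∀ r θ : ℝ, HasDerivAt (fun r : ℝ => u (z + r • rT τ θ))
      (fderiv ℝ u (z + r • rT τ θ) (rT τ θ)) r := by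
    intro r θ
    exact (hu1 _).hasFDerivAt.comp_hasDerivAt r (hpr r θ)
  have hgθ : ∀ r θ : ℝ, HasDerivAt (fun θ : ℝ => u (z + r • rT τ θ))
      (fderiv ℝ u (z + r • rT τ θ) (r • Complex.I • rT τ θ)) θ := by
    intro r θ
    exact (hu1 _).hasFDerivAt.comp_hasDerivAt θ (hpθ r θ)
  have hdr : ∀ r θ : ℝ, HasDerivAt (fun r : ℝ => fderiv ℝ u (z + r • rT τ θ))
      (D2 u (z + r • rT τ θ) (rT τ θ)) r := by
    intro r θ
    exact (hdu1 _).hasFDerivAt.comp_hasDerivAt r (hpr r θ)
  have hdθ : ∀ r θ : ℝ, HasDerivAt (fun θ : ℝ => fderiv ℝ u (z + r • rT τ θ))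
      (D2 u (z + r • rT τ θ) (r • Complex.I • rT τ θ)) θ := by
    intro r θ
    exact (hdu1 _).hasFDerivAt.comp_hasDerivAt θ (hpθ r θ)
  have hhr : ∀ r θ : ℝ, HasDerivAt (fun r : ℝ => fderiv ℝ u (z + r • rT τ θ) (r • rT τ θ))
      (D2 u (z + r • rT τ θ) (rT τ θ) (r • rT τ θ) + fderiv ℝ u (z + r • rT τ θ) (rT τ θ)) r := by
    intro r θ
    have h1 : HasDerivAt (fun r : ℝ => r • rT τ θ) (rT τ θ) r := by
      have := (hasDerivAt_id r).smul_const (rT τ θ)
      simpa using this
    exact (hdr r θ).clm_apply h1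
  have hgθθ : ∀ r θ : ℝ, HasDerivAt
      (fun θ : ℝ => fderiv ℝ u (z + r • rT τ θ) (r • Complex.I • rT τ θ))
      (D2 u (z + r • rT τ θ) (r • Complex.I • rT τ θ) (r • Complex.I • rT τ θ) +
        fderiv ℝ u (z + r • rT τ θ) (r • Complex.I • Complex.I • rT τ θ)) θ := by
    intro r θ
    have h1 : HasDerivAt (fun θ : ℝ => r • Complex.I • rT τ θ) (r • Complex.I • Complex.I • rT τ θ)
        θ := ((rT_hasDerivAt τ θ).const_smul Complex.I).const_smul r
    exact (hdθ r θ).clm_apply h1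
  -- pointwise inequality
  have hpt : ∀ r θ : ℝ, 0 ≤ r * (D2 u (z + r • rT τ θ) (rT τ θ) (r • rT τ θ) +
      fderiv ℝ u (z + r • rT τ θ) (rT τ θ)) +
      (D2 u (z + r • rT τ θ) (r • Complex.I • rT τ θ) (r • Complex.I • rT τ θ) +
        fderiv ℝ u (z + r • rT τ θ) (r • Complex.I • Complex.I • rT τ θ)) := by
    intro r θ
    have h1 := hl (z + r • rT τ θ) (r • rT τ θ)
    unfold levi at h1
    have e1 : Complex.I • (r • rT τ θ) = r • Complex.I • rT τ θ := smul_comm _ _ _
    have e2 : r • Complex.I • Complex.I • rT τ θ = -(r • rT τ θ) := by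
      rw [smul_smul Complex.I Complex.I, Complex.I_mul_I, neg_one_smul, smul_neg]
    rw [e1] at h1
    rw [e2, map_neg]
    have e3 : D2 u (z + r • rT τ θ) (r • rT τ θ) (r • rT τ θ) =
        r * D2 u (z + r • rT τ θ) (rT τ θ) (r • rT τ θ) := by
      rw [map_smul (D2 u (z + r • rT τ θ)) r (rT τ θ)]
      rfl
    have e4 : fderiv ℝ u (z + r • rT τ θ) (r • rT τ θ) =
        r * fderiv ℝ u (z + r • rT τ θ) (rT τ θ) := by
      rw [map_smul]
      rfl
    rw [e3] at h1
    rw [e4]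
    linarith
  have hper : rT τ (2 * Real.pi) = rT τ 0 := by
    unfold rT
    congr 1
    push_cast
    rw [Complex.exp_two_pi_mul_I]
    simp
  -- continuity
  have hcont1 : Continuous (Function.uncurry fun θ r : ℝ =>
      D2 u (z + r • rT τ θ) (rT τ θ) (r • rT τ θ) + fderiv ℝ u (z + r • rT τ θ) (rT τ θ)) := by
    unfold Function.uncurry
    fun_prop
  have hcont2 : Continuous (Function.uncurry fun θ r : ℝ =>
      fderiv ℝ u (z + r • rT τ θ) (rT τ θ)) := by
    unfold Function.uncurry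
    fun_prop
  have hcont3 : ∀ r : ℝ, Continuous (fun θ : ℝ =>
      D2 u (z + r • rT τ θ) (r • Complex.I • rT τ θ) (r • Complex.I • rT τ θ) +
        fderiv ℝ u (z + r • rT τ θ) (r • Complex.I • Complex.I • rT τ θ)) := by
    intro r
    fun_prop
  -- (1)
  have hJ : ∀ r : ℝ, 0 < r → 0 ≤ ∫ θ in (0:ℝ)..(2 * Real.pi),
      (D2 u (z + r • rT τ θ) (rT τ θ) (r • rT τ θ) + fderiv ℝ u (z + r • rT τ θ) (rT τ θ)) := by
    intro r hr
    have hc : Continuous (fun θ : ℝ => D2 u (z + r • rT τ θ) (rT τ θ) (r • rT τ θ) +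
        fderiv ℝ u (z + r • rT τ θ) (rT τ θ)) := by fun_prop
    have h1 : 0 ≤ ∫ θ in (0:ℝ)..(2 * Real.pi), (r * (D2 u (z + r • rT τ θ) (rT τ θ) (r • rT τ θ) +
      fderiv ℝ u (z + r • rT τ θ) (rT τ θ)) +
      (D2 u (z + r • rT τ θ) (r • Complex.I • rT τ θ) (r • Complex.I • rT τ θ) +
        fderiv ℝ u (z + r • rT τ θ) (r • Complex.I • Complex.I • rT τ θ))) :=
      intervalIntegral.integral_nonneg hpi.le fun θ _ => hpt r θ
    rw [intervalIntegral.integral_add ((hc.const_mul r).intervalIntegrable _ _)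
      ((hcont3 r).intervalIntegrable _ _), intervalIntegral.integral_const_mul,
      intervalIntegral.integral_eq_sub_of_hasDerivAt (fun θ _ => hgθθ r θ)
        ((hcont3 r).intervalIntegrable _ _), hper, sub_self, add_zero] at h1
    exact nonneg_of_mul_nonneg_right h1 hr
  -- (2)
  have hH : ∀ r : ℝ, 0 ≤ r → 0 ≤ ∫ θ in (0:ℝ)..(2 * Real.pi),
      fderiv ℝ u (z + r • rT τ θ) (r • rT τ θ) := by
    intro r hr
    have h1 : ∀ θ : ℝ, fderiv ℝ u (z + r • rT τ θ) (r • rT τ θ) = ∫ s in (0:ℝ)..r,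
        (D2 u (z + s • rT τ θ) (rT τ θ) (s • rT τ θ) + fderiv ℝ u (z + s • rT τ θ) (rT τ θ)) := by
      intro θ
      have hc : Continuous (fun s : ℝ => D2 u (z + s • rT τ θ) (rT τ θ) (s • rT τ θ) +
        fderiv ℝ u (z + s • rT τ θ) (rT τ θ)) := by fun_prop
      rw [intervalIntegral.integral_eq_sub_of_hasDerivAt (fun s _ => hhr s θ)
        (hc.intervalIntegrable _ _)]
      simp
    simp_rw [h1]
    rw [cav_swap hcont1, intervalIntegral.integral_of_le hr]
    exact setIntegral_nonneg measurableSet_Ioc fun s hs => hJ s hs.1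
  -- (3)
  have hK : ∀ r : ℝ, 0 < r → 0 ≤ ∫ θ in (0:ℝ)..(2 * Real.pi),
      fderiv ℝ u (z + r • rT τ θ) (rT τ θ) := by
    intro r hr
    have h1 := hH r hr.le
    have h2 : ∀ θ : ℝ, fderiv ℝ u (z + r • rT τ θ) (r • rT τ θ) =
        r * fderiv ℝ u (z + r • rT τ θ) (rT τ θ) := by
      intro θ
      rw [map_smul]
      rfl
    simp_rw [h2] at h1
    rw [intervalIntegral.integral_const_mul] at h1
    exact nonneg_of_mul_nonneg_right h1 hr
  have hM : 0 ≤ ∫ θ in (0:ℝ)..(2 * Real.pi), (u (z + (1 : ℝ) • rT τ θ) - u z) := by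
    have h1 : ∀ θ : ℝ, u (z + (1 : ℝ) • rT τ θ) - u z =
        ∫ r in (0:ℝ)..1, fderiv ℝ u (z + r • rT τ θ) (rT τ θ) := by
      intro θ
      have hc : Continuous (fun s : ℝ => fderiv ℝ u (z + s • rT τ θ) (rT τ θ)) := by fun_prop
      rw [intervalIntegral.integral_eq_sub_of_hasDerivAt (fun s _ => hgr s θ)
        (hc.intervalIntegrable _ _)]
      simp
    simp_rw [h1]
    rw [cav_swap hcont2, intervalIntegral.integral_of_le zero_le_one]
    exact setIntegral_nonneg measurableSet_Ioc fun s hs => hK s hs.1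
  have hcu : Continuous (fun θ : ℝ => u (z + rT τ θ)) := by fun_prop
  simp only [one_smul] at hM
  rw [intervalIntegral.integral_sub (hcu.intervalIntegrable _ _)
    (continuous_const.intervalIntegrable _ _), intervalIntegral.integral_const, sub_zero,
    smul_eq_mul] at hM
  unfold cav
  rw [inv_mul_eq_div, le_div_iff₀ hpi]
  have e5 : ∫ θ in (0:ℝ)..(2 * Real.pi), u (z + Complex.exp (θ * Complex.I) • τ) =
      ∫ θ in (0:ℝ)..(2 * Real.pi), u (z + rT τ θ) := rfl
  rw [e5]
  linarith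

end CMAL
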