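import Mathlib
import Pool.Agent.Helper706.CMA.Base
import Pool.Agent.Helper706.CMA.LeCav
import Pool.Agent.Helper706.CMA.Duality
import Pool.Agent.Helper706.CMA.AbsCav
open MeasureTheory Metric Set Filter Topology
open scoped ENNReal ComplexOrder
noncomputable section
namespace CMAL








/-- the second derivative of a rescaled function -/
private theorem D2_scale {n : ℕ} (f : EC n → ℝ) (hf : ContDiff ℝ 2 f) (c : ℝ) (z ξ : EC n) :
    D2 (fun y => f (c • y)) z ξ ξ = c * (c * D2 f (c • z) ξ ξ) := by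
  have h1 : fderiv ℝ (fun y => f (c • y)) = fun y => c • fderiv ℝ f (c • y) := by
    funext y
    exact fderiv_comp_smul c
  have hd : Differentiable ℝ (fderiv ℝ f) := by
    have h3 : ContDiff ℝ 1 (fderiv ℝ f) := hf.fderiv_right (by norm_num)
    exact h3.differentiable (by norm_num)
  have h2 : fderiv ℝ (fun y => c • fderiv ℝ f (c • y)) z =
      c • (c • fderiv ℝ (fderiv ℝ f) (c • z)) := by
    have h4 : DifferentiableAt ℝ (fun y => fderiv ℝ f (c • y)) z :=
      (hd (c • z)).comp z (differentiableAt_id.const_smul c)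
    rw [fderiv_fun_const_smul h4 c, fderiv_comp_smul]
  unfold D2
  rw [h1, h2]
  simp [smul_eq_mul]

private theorem D2_bound {n : ℕ} (f : EC n → ℝ) (hf : ContDiff ℝ 2 f) (hc : HasCompactSupport f) :
    ∃ K0 : ℝ, 0 ≤ K0 ∧ ∀ z ξ, |D2 f z ξ ξ| ≤ K0 * ‖ξ‖ ^ 2 := by
  have h1 : HasCompactSupport (fderiv ℝ (fderiv ℝ f)) := (hc.fderiv ℝ).fderiv ℝ
  have h2 : Continuous (fderiv ℝ (fderiv ℝ f)) := by
    have h3 : ContDiff ℝ 1 (fderiv ℝ f) := hf.fderiv_right (by norm_num)
    exact h3.continuous_fderiv (by norm_num)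
  have h3 : Continuous (fun p : EC n × EC n => fderiv ℝ (fderiv ℝ f) p.1 p.2 p.2) :=
    ((h2.comp continuous_fst).clm_apply continuous_snd).clm_apply continuous_snd
  have h4 : IsCompact (tsupport (fderiv ℝ (fderiv ℝ f)) ×ˢ closedBall (0 : EC n) 1) :=
    h1.isCompact.prod (isCompact_closedBall _ _)
  obtain ⟨M, hM⟩ := h4.exists_bound_of_continuousOn h3.continuousOn
  refine ⟨max M 0, le_max_right _ _, ?_⟩
  intro z ξ
  unfold D2
  by_cases hz : z ∈ tsupport (fderiv ℝ (fderiv ℝ f))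
  · by_cases hξ : ξ = 0
    · rw [hξ]; simp
    · have hξ' : 0 < ‖ξ‖ := norm_pos_iff.2 hξ
      have h5 := hM (z, ‖ξ‖⁻¹ • ξ) ⟨hz, by
        rw [mem_closedBall, dist_zero_right, norm_smul, norm_inv, norm_norm,
          inv_mul_cancel₀ hξ'.ne']⟩
      simp only [map_smul, ContinuousLinearMap.smul_apply, smul_eq_mul] at h5
      rw [Real.norm_eq_abs, abs_mul, abs_mul, abs_of_pos (inv_pos.2 hξ')] at h5
      have h6 : |fderiv ℝ (fderiv ℝ f) z ξ ξ| =
          (‖ξ‖⁻¹ * (‖ξ‖⁻¹ * |fderiv ℝ (fderiv ℝ f) z ξ ξ|)) * ‖ξ‖ ^ 2 := by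
        field_simp
      rw [h6]
      exact mul_le_mul_of_nonneg_right (h5.trans (le_max_left _ _)) (by positivity)
  · rw [image_eq_zero_of_notMem_tsupport hz]
    simp only [ContinuousLinearMap.zero_apply, abs_zero]
    positivity

private theorem bump_exists (n : ℕ) : ∃ (χ : EC n → ℝ), ContDiff ℝ 2 χ ∧ HasCompactSupport χ ∧
    (∀ z, 0 ≤ χ z) ∧ (∀ z, 2 ≤ ‖z‖ → χ z = 0) ∧ (∀ z, ‖z‖ ≤ 1 → χ z = 1) := by
  let χ : ContDiffBump (0 : EC n) := ⟨1, 2, one_pos, one_lt_two⟩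
  refine ⟨χ, χ.contDiff, χ.hasCompactSupport, fun z => χ.nonneg, ?_, ?_⟩
  · intro z hz
    apply χ.zero_of_le_dist
    rw [dist_zero_right]
    exact hz
  · intro z hz
    apply χ.one_of_mem_closedBall
    rw [mem_closedBall, dist_zero_right]
    exact hz

private theorem cont_cav {n : ℕ} (u : EC n → ℝ) (hu : Continuous u) (τ : EC n) :
    Continuous (cav u τ) := by
  unfold cav
  refine continuous_const.mul ?_
  refine intervalIntegral.continuous_parametric_intervalIntegral_of_continuous' ?_ _ _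
  unfold Function.uncurry
  fun_prop

private theorem norm_rot {n : ℕ} (θ : ℝ) (τ : EC n) : ‖Complex.exp (θ * Complex.I) • τ‖ = ‖τ‖ := by
  rw [norm_smul, Complex.norm_exp_ofReal_mul_I, one_mul]

private theorem finrank_EC (n : ℕ) : Module.finrank ℝ (EC n) = 2 * n := by
  rw [finrank_real_of_complex, finrank_euclideanSpace_fin]

/-- J24: `L¹` bound of circle averages, by duality -/
theorem l1_bound {n : ℕ} (hn : 0 < n) (C : ℝ) (hC : 0 < C) : ∃ K : ℝ, 0 < K ∧ ∀ u : EC n → ℝ, ContDiff ℝ 2 u →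
    (∀ z ξ, 0 ≤ levi u z ξ) → (∀ z, |u z| ≤ C * (1 + ‖z‖ ^ 2)) → ∀ (τ : EC n), ‖τ‖ ≤ 1 → ∀ R : ℝ, 1 ≤ R →
    ∀ s : ℝ, 0 < s → volume (ball (0 : EC n) R ∩ {z | s ≤ cav u τ z - u z}) ≤ ENNReal.ofReal (K * ‖τ‖ ^ 2 * R ^ (2 * n) / s) := by
  obtain ⟨χ, hχ2, hχc, hχ0, hχo, hχi⟩ := bump_exists n
  obtain ⟨K0, hK00, hK0'⟩ := D2_bound χ hχ2 hχc
  obtain ⟨V, hV⟩ : ∃ V : ℝ, V = (volume (ball (0 : EC n) 1)).toReal := ⟨_, rfl⟩
  have hV0 : 0 ≤ V := by rw [hV]; exact ENNReal.toReal_nonneg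
  refine ⟨5 * C * K0 * 3 ^ (2 * n) * V + 1, by positivity, ?_⟩
  intro u hu hl hub τ hτ R hR s hs
  have hR0 : 0 < R := by linarith
  -- the rescaled cutoff
  let χR : EC n → ℝ := fun z => χ (R⁻¹ • z)
  have hχR2 : ContDiff ℝ 2 χR := hχ2.comp (contDiff_const_smul R⁻¹)
  have hχRcont : Continuous χR := hχR2.continuous
  have hχR0 : ∀ z, 0 ≤ χR z := fun z => hχ0 _
  have hχRout : ∀ z : EC n, 2 * R ≤ ‖z‖ → χR z = 0 := by
    intro z hz
    apply hχo
    rw [norm_smul, norm_inv, Real.norm_of_nonneg hR0.le]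
    rw [inv_mul_eq_div, le_div_iff₀ hR0]
    exact hz
  have hχRin : ∀ z : EC n, ‖z‖ < R → χR z = 1 := by
    intro z hz
    apply hχi
    rw [norm_smul, norm_inv, Real.norm_of_nonneg hR0.le]
    rw [inv_mul_eq_div, div_le_one hR0]
    exact hz.le
  have hχRc : HasCompactSupport χR := by
    apply HasCompactSupport.intro (isCompact_closedBall (0 : EC n) (2 * R))
    intro z hz
    apply hχRout
    rw [mem_closedBall, dist_zero_right, not_le] at hz
    exact hz.le
  have hD : ∀ z ξ, |D2 χR z ξ ξ| ≤ (K0 / R ^ 2) * ‖ξ‖ ^ 2 := by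
    intro z ξ
    have h1 : D2 χR z ξ ξ = R⁻¹ * (R⁻¹ * D2 χ (R⁻¹ • z) ξ ξ) := D2_scale χ hχ2 R⁻¹ z ξ
    rw [h1, abs_mul, abs_mul, abs_of_pos (inv_pos.2 hR0)]
    have h2 := hK0' (R⁻¹ • z) ξ
    have h3 : (K0 / R ^ 2) * ‖ξ‖ ^ 2 = R⁻¹ * (R⁻¹ * (K0 * ‖ξ‖ ^ 2)) := by
      field_simp
    rw [h3]
    exact mul_le_mul_of_nonneg_left (mul_le_mul_of_nonneg_left h2 (inv_pos.2 hR0).le)
      (inv_pos.2 hR0).le
  have hcav : ∀ z, |cav χR τ z - χR z| ≤ K0 / R ^ 2 / 2 * ‖τ‖ ^ 2 := fun z =>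
    abs_cav_sub_le χR hχR2 (K0 / R ^ 2) hD τ z
  have hucont : Continuous u := hu.continuous
  have hdual := duality u χR hucont hχRcont hχRc τ
  -- upper bound of the right side
  have hvan : ∀ z : EC n, 2 * R + 1 ≤ ‖z‖ → u z * (cav χR τ z - χR z) = 0 := by
    intro z hz
    have h1 : χR z = 0 := hχRout z (by linarith)
    have h2 : cav χR τ z = 0 := by
      unfold cav
      have h3 : ∀ θ : ℝ, χR (z + Complex.exp (θ * Complex.I) • τ) = 0 := by
        intro θ
        apply hχRout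
        have h4 : ‖z‖ ≤ ‖z + Complex.exp (θ * Complex.I) • τ‖ + ‖τ‖ := by
          have h5 := norm_sub_le (z + Complex.exp (θ * Complex.I) • τ) (Complex.exp (θ * Complex.I) • τ)
          rw [add_sub_cancel_right, norm_rot] at h5
          exact h5
        linarith
      simp [h3]
    rw [h1, h2]; ring
  have hvol : (volume (ball (0 : EC n) (2 * R + 1))).toReal ≤ 3 ^ (2 * n) * R ^ (2 * n) * V := by
    have h1 : volume (ball (0 : EC n) (2 * R + 1)) ≤ volume (ball (0 : EC n) (3 * R * 1)) :=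
      measure_mono (ball_subset_ball (by linarith))
    rw [Measure.addHaar_ball_mul_of_pos volume (0 : EC n) (show (0 : ℝ) < 3 * R by positivity) 1,
      finrank_EC] at h1
    have h2 := ENNReal.toReal_mono (ENNReal.mul_ne_top ENNReal.ofReal_ne_top
      measure_ball_lt_top.ne) h1
    rw [ENNReal.toReal_mul, ENNReal.toReal_ofReal (by positivity), ← hV, mul_pow] at h2
    exact h2
  have hle : ∫ z, u z * (cav χR τ z - χR z) ≤
      (5 * C * K0 * ‖τ‖ ^ 2) * (3 ^ (2 * n) * R ^ (2 * n) * V) := by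
    rw [← setIntegral_eq_integral_of_forall_compl_eq_zero (s := ball (0 : EC n) (2 * R + 1)) (by
      intro z hz
      apply hvan
      rw [mem_ball, dist_zero_right, not_lt] at hz
      exact hz)]
    have h1 : ‖∫ z in ball (0 : EC n) (2 * R + 1), u z * (cav χR τ z - χR z)‖ ≤
        (5 * C * K0 * ‖τ‖ ^ 2) * volume.real (ball (0 : EC n) (2 * R + 1)) := by
      refine norm_setIntegral_le_of_norm_le_const measure_ball_lt_top ?_
      intro z hz
      rw [mem_ball, dist_zero_right] at hz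
      rw [norm_mul, Real.norm_eq_abs, Real.norm_eq_abs]
      have h2 : |u z| ≤ C * (10 * R ^ 2) := by
        refine (hub z).trans (mul_le_mul_of_nonneg_left ?_ hC.le)
        have h3 : ‖z‖ ^ 2 ≤ (3 * R) ^ 2 :=
          pow_le_pow_left₀ (norm_nonneg _) (by linarith) 2
        have h4 : (1 : ℝ) ≤ R ^ 2 := one_le_pow₀ hR
        linarith [mul_pow 3 R 2]
      calc |u z| * |cav χR τ z - χR z| ≤ (C * (10 * R ^ 2)) * (K0 / R ^ 2 / 2 * ‖τ‖ ^ 2) :=
            mul_le_mul h2 (hcav z) (abs_nonneg _) (by positivity)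
        _ = 5 * C * K0 * ‖τ‖ ^ 2 := by
            field_simp
            ring
    refine (le_abs_self _).trans ?_
    rw [Real.norm_eq_abs] at h1
    refine h1.trans (mul_le_mul_of_nonneg_left ?_ (by positivity))
    exact hvol
  -- Markov
  let g : EC n → ℝ := fun z => χR z * (cav u τ z - u z)
  have hgcont : Continuous g := hχRcont.mul ((cont_cav u hucont τ).sub hucont)
  have hgc : HasCompactSupport g := hχRc.mul_right
  have hgint : Integrable g := hgcont.integrable_of_hasCompactSupport hgc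
  have hg0 : ∀ z, 0 ≤ g z := fun z => mul_nonneg (hχR0 z) (sub_nonneg.2 (le_cav u hu hl τ z))
  have hmark := mul_meas_ge_le_integral_of_nonneg (μ := volume) (Filter.Eventually.of_forall hg0) hgint s
  have hfin : volume {z | s ≤ g z} ≠ ⊤ := by
    have h1 : {z | s ≤ g z} ⊆ closedBall (0 : EC n) (2 * R) := by
      intro z hz
      by_contra hcon
      rw [mem_closedBall, dist_zero_right, not_le] at hcon
      have h2 : g z = 0 := by
        show χR z * _ = 0
        rw [hχRout z hcon.le, zero_mul]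
      have h3 : s ≤ g z := hz
      rw [h2] at h3
      linarith
    exact ((measure_mono h1).trans_lt measure_closedBall_lt_top).ne
  have hsub : ball (0 : EC n) R ∩ {z | s ≤ cav u τ z - u z} ⊆ {z | s ≤ g z} := by
    rintro z ⟨h1, h2⟩
    rw [mem_ball, dist_zero_right] at h1
    show s ≤ χR z * (cav u τ z - u z)
    rw [hχRin z h1, one_mul]
    exact h2
  refine (measure_mono hsub).trans ?_
  rw [← ENNReal.ofReal_toReal hfin]
  apply ENNReal.ofReal_le_ofReal
  rw [le_div_iff₀ hs]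
  have h5 : (volume {z | s ≤ g z}).toReal * s ≤ ∫ z, g z := by
    rw [mul_comm]; exact hmark
  refine h5.trans ?_
  have h6 : ∫ z, g z = ∫ z, u z * (cav χR τ z - χR z) := hdual
  rw [h6]
  refine hle.trans ?_
  have h7 : 0 ≤ ‖τ‖ ^ 2 * R ^ (2 * n) := by positivity
  nlinarith

end CMAL
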