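import Mathlib
import Pool.Agent.Helper706.CMA.Base
import Pool.Agent.Helper706.CMA.AmgmFrame
import Pool.Agent.Helper706.CMA.Cav
open MeasureTheory Metric Set Filter Topology
open scoped ENNReal ComplexOrder
noncomputable section
namespace CMAL






private theorem levi_cont {n : ℕ} (u : EC n → ℝ) (hu : ContDiff ℝ 2 u) (τ z ξ : EC n) :
    Continuous fun θ : ℝ => levi u (z + Complex.exp (θ * Complex.I) • τ) ξ := by
  have h1 : ContDiff ℝ 1 (fderiv ℝ u) := hu.fderiv_right (by norm_num)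
  have h2 : Continuous (fderiv ℝ (fderiv ℝ u)) := h1.continuous_fderiv (by norm_num)
  have h3 : Continuous fun θ : ℝ => z + Complex.exp (θ * Complex.I) • τ := by fun_prop
  have h4 : Continuous fun θ : ℝ => D2 u (z + Complex.exp (θ * Complex.I) • τ) := h2.comp h3
  unfold levi
  exact ((((h4.clm_apply continuous_const).clm_apply continuous_const)).add
    ((h4.clm_apply continuous_const).clm_apply continuous_const)).const_mul (1 / 4)

/-- J5 -/
theorem lop_cav {n : ℕ} (u : EC n → ℝ) (hu : ContDiff ℝ 2 u)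
    (hfr : ∀ z, ∃ R : EC n →ₗ[ℂ] EC n, ‖LinearMap.det R‖ = 1 ∧ ∀ ξ, levi u z ξ = ‖R ξ‖ ^ 2)
    (P : EC n →ₗ[ℂ] EC n) (hP : ‖LinearMap.det P‖ = 1) (τ z : EC n) :
    (n : ℝ) ≤ Lop P (cav u τ) z := by
  have hpi : (0:ℝ) < 2 * Real.pi := by positivity
  have hint : ∀ k ∈ (Finset.univ : Finset (Fin n)), IntervalIntegrable
      (fun θ : ℝ => levi u (z + Complex.exp (θ * Complex.I) • τ) (P (bv k))) volume 0 (2 * Real.pi) :=
    fun k _ => (levi_cont u hu τ z (P (bv k))).intervalIntegrable _ _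
  have h1 : Lop P (cav u τ) z = (2 * Real.pi)⁻¹ * ∫ θ in (0:ℝ)..(2 * Real.pi),
      ∑ k : Fin n, levi u (z + Complex.exp (θ * Complex.I) • τ) (P (bv k)) := by
    unfold Lop
    rw [intervalIntegral.integral_finsetSum hint, Finset.mul_sum]
    exact Finset.sum_congr rfl fun k _ => cav_levi u hu τ z (P (bv k))
  have h2 : ∀ θ : ℝ, (n : ℝ) ≤ ∑ k : Fin n, levi u (z + Complex.exp (θ * Complex.I) • τ) (P (bv k)) := by
    intro θ
    obtain ⟨R, hR, hRl⟩ := hfr (z + Complex.exp (θ * Complex.I) • τ)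
    have h3 := amgm_frame (R ∘ₗ P) (by rw [LinearMap.det_comp, norm_mul, hR, hP, mul_one])
    calc (n : ℝ) ≤ ∑ k : Fin n, ‖(R ∘ₗ P) (bv k)‖ ^ 2 := h3
      _ = _ := Finset.sum_congr rfl fun k _ => by rw [hRl]; rfl
  have h4 : (2 * Real.pi) * n ≤ ∫ θ in (0:ℝ)..(2 * Real.pi),
      ∑ k : Fin n, levi u (z + Complex.exp (θ * Complex.I) • τ) (P (bv k)) := by
    have h5 : ∫ θ in (0:ℝ)..(2 * Real.pi), (n : ℝ) = (2 * Real.pi) * n := by
      rw [intervalIntegral.integral_const]; simp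
    rw [← h5]
    refine intervalIntegral.integral_mono_on hpi.le intervalIntegrable_const ?_ fun θ _ => h2 θ
    exact (continuous_finset_sum _ fun k _ => levi_cont u hu τ z (P (bv k))).intervalIntegrable _ _
  rw [h1]
  calc (n : ℝ) = (2 * Real.pi)⁻¹ * ((2 * Real.pi) * n) := by field_simp
    _ ≤ _ := mul_le_mul_of_nonneg_left h4 (by positivity)

end CMAL
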