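import Mathlib
import Pool.Agent.Helper706.CMA.Base
import Pool.Agent.Helper706.CMA.Basic
import Pool.Agent.Helper706.CMA.AmgmFrame
import Pool.Agent.Helper706.CMA.Abp
import Pool.Agent.Helper706.CMA.Cav
import Pool.Agent.Helper706.CMA.LopCav
import Pool.Agent.Helper706.CMA.LeCav
import Pool.Agent.Helper706.CMA.Barrier
import Pool.Agent.Helper706.CMA.L1Bound
import Pool.Agent.Helper706.CMA.CavTendsto
open MeasureTheory Metric Set Filter Topology
open scoped ENNReal ComplexOrder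
noncomputable section
namespace CMAL
theorem star {n : ℕ} (hn : 0 < n) (u : EC n → ℝ) (hu : ContDiff ℝ 2 u)
    (hfr : ∀ z, ∃ R : EC n →ₗ[ℂ] EC n, ‖LinearMap.det R‖ = 1 ∧ ∀ ξ, levi u z ξ = ‖R ξ‖ ^ 2)
    (c C : ℝ) (hc : 0 < c) (hcC : c ≤ C)
    (h1 : ∀ z, c * (1 + ‖z‖ ^ 2) ≤ u z) (h2 : ∀ z, u z ≤ C * (1 + ‖z‖ ^ 2)) :
    ∃ M K : ℝ, 1 < M ∧ 0 < K ∧ ∀ τ : EC n, ‖τ‖ ≤ 1 → ∀ Λ : ℝ, 1 ≤ Λ → ∀ a : ℝ, 0 ≤ a →
      (∀ z, u z ≤ M * Λ → cav u τ z - u z ≤ a) → ∀ z, u z ≤ Λ → cav u τ z - u z ≤ a / (2 * M) + K * ‖τ‖ ^ 2 := by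
  have hC : 0 < C := lt_of_lt_of_le hc hcC
  have hl : ∀ z ξ, 0 ≤ levi u z ξ := by
    intro z ξ
    obtain ⟨R, _, hR⟩ := hfr z
    rw [hR]; positivity
  have hupos : ∀ z, 0 < u z := fun z => lt_of_lt_of_le (by positivity) (h1 z)
  choose Rf hRdet hRf using hfr
  choose Pf hPf hPdet using fun z => exists_inv (Rf z) (hRdet z)
  -- exponent
  set ε : ℝ := (c / C) ^ 2 / 8 with hε
  have hcCle : c / C ≤ 1 := (div_le_one hC).2 hcC
  have hcCpos : 0 < c / C := div_pos hc hC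
  have hεpos : 0 < ε := by positivity
  have hεle : ε ≤ 1 / 8 := by
    have : (c / C) ^ 2 ≤ 1 := by
      have := mul_le_mul hcCle hcCle hcCpos.le (by norm_num : (0:ℝ) ≤ 1)
      nlinarith
    rw [hε]; linarith
  set p : ℝ := 1 + ε with hp
  have hp1 : 1 < p := by linarith
  have hp2 : p < 2 := by linarith
  have hpc : 2 / c ^ 2 * p * (p - 1) ≤ (2 - p) / C ^ 2 := by
    have e1 : 2 / c ^ 2 * p * (p - 1) = (1 / C ^ 2) * (p / 4) := by
      have : p - 1 = (c / C) ^ 2 / 8 := by rw [hp, hε]; ring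
      rw [this]; field_simp; ring
    have e2 : (2 - p) / C ^ 2 = (1 / C ^ 2) * (2 - p) := by ring
    rw [e1, e2]
    apply mul_le_mul_of_nonneg_left _ (by positivity)
    linarith
  obtain ⟨F, φ, hF, hF1, hF2, hφ0, hφ1, hFl⟩ := barrier u hu c C p hc hcC h1 h2 hp1 hp2 hpc
  obtain ⟨K1, hK1, hl1⟩ := l1_bound hn C hC
  have hl1u := hl1 u hu hl (fun z => by rw [abs_of_pos (hupos z)]; exact h2 z)
  -- M
  set M : ℝ := max ((8:ℝ) ^ (1 / ε)) (max c 2) with hM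
  have hM8 : (8:ℝ) ^ (1 / ε) ≤ M := le_max_left _ _
  have hMc : c ≤ M := le_trans (le_max_left _ _) (le_max_right _ _)
  have hM2 : 2 ≤ M := le_trans (le_max_right _ _) (le_max_right _ _)
  have hMpos : 0 < M := by linarith
  have hMε : 8 ≤ M ^ ε := by
    calc (8:ℝ) = ((8:ℝ) ^ (1 / ε)) ^ ε := by
          rw [← Real.rpow_mul (by norm_num)]; rw [one_div, inv_mul_cancel₀ hεpos.ne']; simp
      _ ≤ M ^ ε := Real.rpow_le_rpow (by positivity) hM8 hεpos.le
  have hMp : 8 * M ≤ M ^ p := by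
    rw [hp, Real.rpow_add hMpos, Real.rpow_one]; nlinarith
  set β : ℝ := (c ^ 2 / (128 ^ 2 * M ^ 2)) ^ p with hβ
  have hβpos : 0 < β := by positivity
  set W := volume (ball (0 : EC n) 1) with hW
  have hWpos : 0 < W := measure_ball_pos _ _ one_pos
  have hWtop : W ≠ ⊤ := measure_ball_lt_top.ne
  set ω : ℝ := W.toReal with hω
  have hωpos : 0 < ω := ENNReal.toReal_pos hWpos.ne' hWtop
  have hWω : W = ENNReal.ofReal ω := (ENNReal.ofReal_toReal hWtop).symm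
  set K2 : ℝ := K1 / (β * ω * (c / (128 * M)) ^ (2 * n)) with hK2
  have hK2pos : 0 < K2 := by positivity
  refine ⟨M, K2, by linarith, hK2pos, ?_⟩
  intro τ hτ Λ hΛ a ha haw z0 hz0
  by_cases hcase : a ≤ K2 * ‖τ‖ ^ 2
  · have h3 : u z0 ≤ M * Λ := by nlinarith
    have h4 := haw z0 h3
    have : 0 ≤ a / (2 * M) := by positivity
    linarith
  push_neg at hcase
  have hapos : 0 < a := lt_of_le_of_lt (by positivity) hcase
  have hΛpos : 0 < Λ := by linarith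
  have hMΛ : 0 < M * Λ := by positivity
  -- κ
  set κ : ℝ := c ^ 2 * a / (M * Λ) ^ p with hκ
  have hκpos : 0 < κ := by positivity
  set ρ : ℝ := Real.sqrt (M * Λ / c) with hρ
  have hρsq : ρ ^ 2 = M * Λ / c := Real.sq_sqrt (by positivity)
  have hρ1 : 1 ≤ ρ := by
    rw [hρ]; apply Real.one_le_sqrt.2
    rw [le_div_iff₀ hc]; nlinarith
  have hρpos : 0 < ρ := by linarith
  set r1 : ℝ := Λ / (128 * ρ) with hr1
  have hr1pos : 0 < r1 := by positivity
  have hρr1 : ρ * r1 = Λ / 128 := by rw [hr1]; field_simp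
  have hr1ρ : r1 = ρ * (c / (128 * M)) := by
    rw [hr1]
    have : Λ = ρ ^ 2 * c / M := by rw [hρsq]; field_simp
    rw [this]; field_simp
  have hr1sq : c * r1 ^ 2 / (M * Λ) = c ^ 2 / (128 ^ 2 * M ^ 2) := by
    rw [hr1ρ, mul_pow, hρsq]; field_simp
  have hw0 : ∀ z, 0 ≤ cav u τ z - u z := fun z => by have := le_cav u hu hl τ z; linarith
  have hcu : ContDiff ℝ 2 (cav u τ) := cav_contDiff u hu τ
  set w : EC n → ℝ := fun z => cav u τ z - u z with hw
  have hwC : ContDiff ℝ 2 w := hcu.sub hu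
  have hκF : ContDiff ℝ 2 (fun z => κ * F z) := contDiff_const.mul hF
  set v : EC n → ℝ := fun z => w z - κ * F z with hv
  have hvC : ContDiff ℝ 2 v := hwC.sub hκF
  set D : Set (EC n) := {z | u z < M * Λ} with hD
  have hDopen : IsOpen D := isOpen_lt hu.continuous continuous_const
  have hDball : ∀ z ∈ D, ‖z‖ < ρ := by
    intro z hz
    have h3 := h1 z
    have h4 : u z < M * Λ := hz
    have h5 : ‖z‖ ^ 2 < ρ ^ 2 := by
      rw [hρsq, lt_div_iff₀ hc]; nlinarith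
    exact lt_of_pow_lt_pow_left₀ 2 hρpos.le h5
  have hdiam : ∀ x ∈ D, ∀ y ∈ D, dist x y ≤ 2 * ρ := by
    intro x hx y hy
    have := hDball x hx
    have := hDball y hy
    calc dist x y = ‖x - y‖ := dist_eq_norm _ _
      _ ≤ ‖x‖ + ‖y‖ := norm_sub_le _ _
      _ ≤ 2 * ρ := by linarith
  have hfront : ∀ x ∈ frontier D, v x ≤ 0 := by
    intro x hx
    have hxu : u x = M * Λ := by
      have h3 : frontier D ⊆ {z | u z = M * Λ} := frontier_lt_subset_eq hu.continuous continuous_const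
      exact h3 hx
    have h4 : w x ≤ a := haw x hxu.le
    have h5 : a ≤ κ * F x := by
      have h6 := hF1 x
      rw [hxu] at h6
      calc a = κ * ((M * Λ) ^ p / c ^ 2) := by
            rw [hκ]; have : (M * Λ) ^ p ≠ 0 := by positivity
            field_simp
        _ ≤ κ * F x := mul_le_mul_of_nonneg_left h6 hκpos.le
    show w x - κ * F x ≤ 0
    linarith
  set b : ℝ := 4 * n * a / (M * Λ) with hb
  have hbn : 0 ≤ b := by positivity
  have hLop : ∀ z ∈ D, 0 < v z → -b ≤ Lop (Pf z) v z := by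
    intro z hz _
    have e1 : Lop (Pf z) v z = (Lop (Pf z) (cav u τ) z - Lop (Pf z) u z) - κ * Lop (Pf z) F z := by
      have := Lop_sub (Pf z) w (fun z => κ * F z) hwC hκF z
      rw [Lop_const_mul (Pf z) κ F hF z] at this
      have h7 := Lop_sub (Pf z) (cav u τ) u hcu hu z
      rw [← h7]; exact this
    have e2 : (n : ℝ) ≤ Lop (Pf z) (cav u τ) z := lop_cav u hu (fun z => ⟨Rf z, hRdet z, hRf z⟩) (Pf z) (hPdet z) τ z
    have e3 : Lop (Pf z) u z = n := lop_self u z (Rf z) (Pf z) (hRf z) (hPf z)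
    have e4 : Lop (Pf z) F z ≤ φ z * n := by
      calc Lop (Pf z) F z = ∑ k : Fin n, levi F z (Pf z (bv k)) := rfl
        _ ≤ ∑ k : Fin n, φ z * levi u z (Pf z (bv k)) := Finset.sum_le_sum (fun k _ => hFl z _)
        _ = φ z * Lop (Pf z) u z := by rw [← Finset.mul_sum]; rfl
        _ = φ z * n := by rw [e3]
    have e5 : φ z ≤ 4 / c ^ 2 * (M * Λ) ^ (p - 1) := by
      refine (hφ1 z).trans ?_
      apply mul_le_mul_of_nonneg_left _ (by positivity)
      exact Real.rpow_le_rpow (hupos z).le (le_of_lt hz) (by linarith)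
    have e6 : κ * (4 / c ^ 2 * (M * Λ) ^ (p - 1) * n) = b := by
      rw [hκ, hb, Real.rpow_sub hMΛ, Real.rpow_one]
      have : (M * Λ) ^ p ≠ 0 := by positivity
      field_simp
    have e7 : κ * Lop (Pf z) F z ≤ b := by
      rw [← e6]
      apply mul_le_mul_of_nonneg_left _ hκpos.le
      refine e4.trans ?_
      exact mul_le_mul_of_nonneg_right e5 (by positivity)
    rw [e1]; linarith
  -- measure bound
  have hmeas : volume (D ∩ {z | 0 < v z}) ≤ 2 * (ENNReal.ofReal (r1 ^ (2 * n)) * W) := by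
    have hsub : D ∩ {z | 0 < v z} ⊆ ball 0 r1 ∪ (ball 0 ρ ∩ {z | a * β ≤ cav u τ z - u z}) := by
      rintro z ⟨hz, hvz⟩
      by_cases hzr : ‖z‖ < r1
      · left; simpa using hzr
      · right
        push_neg at hzr
        refine ⟨by simpa using hDball z hz, ?_⟩
        have h8 : c * r1 ^ 2 ≤ u z := by
          have h9 := h1 z
          have h10 : r1 ^ 2 ≤ ‖z‖ ^ 2 := by gcongr
          nlinarith
        have h11 : (c * r1 ^ 2) ^ p / c ^ 2 ≤ F z := by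
          refine le_trans ?_ (hF1 z)
          apply div_le_div_of_nonneg_right _ (by positivity)
          exact Real.rpow_le_rpow (by positivity) h8 (by linarith)
        have h12 : κ * ((c * r1 ^ 2) ^ p / c ^ 2) = a * β := by
          rw [hβ, ← hr1sq, Real.div_rpow (by positivity) (by positivity), hκ]
          have : (M * Λ) ^ p ≠ 0 := by positivity
          field_simp
        have h13 : 0 < w z - κ * F z := hvz
        have h14 : κ * ((c * r1 ^ 2) ^ p / c ^ 2) ≤ κ * F z := mul_le_mul_of_nonneg_left h11 hκpos.le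
        show a * β ≤ w z
        linarith
    refine (measure_mono hsub).trans ?_
    refine (measure_union_le _ _).trans ?_
    rw [two_mul]
    refine add_le_add ?_ ?_
    · rw [vol_ball 0 r1 hr1pos]
    · refine (hl1u τ hτ ρ hρ1 (a * β) (by positivity)).trans ?_
      rw [hWω, ← ENNReal.ofReal_mul (by positivity)]
      apply ENNReal.ofReal_le_ofReal
      rw [div_le_iff₀ (by positivity), hr1ρ, mul_pow]
      have h15 : K1 * ‖τ‖ ^ 2 = K2 * ‖τ‖ ^ 2 * (β * ω * (c / (128 * M)) ^ (2 * n)) := by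
        rw [hK2]; field_simp
      rw [h15]
      have h16 : K2 * ‖τ‖ ^ 2 * (β * ω * (c / (128 * M)) ^ (2 * n)) * ρ ^ (2 * n) ≤ a * (β * ω * (c / (128 * M)) ^ (2 * n)) * ρ ^ (2 * n) := by
        gcongr
      refine h16.trans (le_of_eq ?_)
      ring
  have hκFz0 : κ * F z0 ≤ a / (4 * M) := by
    have h17 : F z0 ≤ 2 / c ^ 2 * Λ ^ p := by
      refine (hF2 z0).trans ?_
      apply mul_le_mul_of_nonneg_left _ (by positivity)
      exact Real.rpow_le_rpow (hupos z0).le hz0 (by linarith)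
    have h18 : κ * (2 / c ^ 2 * Λ ^ p) = 2 * a / M ^ p := by
      rw [hκ, Real.mul_rpow hMpos.le hΛpos.le]
      have : Λ ^ p ≠ 0 := by positivity
      have : M ^ p ≠ 0 := by positivity
      field_simp
    calc κ * F z0 ≤ κ * (2 / c ^ 2 * Λ ^ p) := mul_le_mul_of_nonneg_left h17 hκpos.le
      _ = 2 * a / M ^ p := h18
      _ ≤ 2 * a / (8 * M) := by
          apply div_le_div_of_nonneg_left (by positivity) (by positivity) hMp
      _ = a / (4 * M) := by field_simp; ring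
  by_contra hcon
  push_neg at hcon
  set σ : ℝ := w z0 - a / (4 * M) with hσ
  have hσpos : 0 < σ := by
    have h19 : a / (2 * M) + K2 * ‖τ‖ ^ 2 < w z0 := hcon
    have h20 : a / (4 * M) ≤ a / (2 * M) := by
      apply div_le_div_of_nonneg_left (by positivity) (by positivity); linarith
    have h21 : 0 ≤ K2 * ‖τ‖ ^ 2 := by positivity
    rw [hσ]; linarith
  have hz0D : z0 ∈ D := by
    show u z0 < M * Λ
    nlinarith
  have hσv : σ ≤ v z0 := by
    show w z0 - a / (4 * M) ≤ w z0 - κ * F z0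
    linarith
  have hABP := abp hn Pf hPdet v hvC D hDopen (2 * ρ) (by positivity) hdiam hfront b hbn hLop z0 hz0D σ hσpos hσv
  have hABP2 : ENNReal.ofReal ((σ / (2 * ρ)) ^ (2 * n)) * W ≤ ENNReal.ofReal ((2 * b / n) ^ (2 * n)) * (2 * (ENNReal.ofReal (r1 ^ (2 * n)) * W)) := by
    rw [← vol_ball 0 (σ / (2 * ρ)) (by positivity)]
    exact hABP.trans (mul_le_mul_right hmeas _)
  have hreal : (σ / (2 * ρ)) ^ (2 * n) ≤ (2 * b / n) ^ (2 * n) * (2 * r1 ^ (2 * n)) := by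
    have h22 : ENNReal.ofReal ((2 * b / n) ^ (2 * n)) * (2 * (ENNReal.ofReal (r1 ^ (2 * n)) * W)) = ENNReal.ofReal ((2 * b / n) ^ (2 * n) * (2 * r1 ^ (2 * n))) * W := by
      rw [ENNReal.ofReal_mul (by positivity), ENNReal.ofReal_mul (by norm_num)]
      simp only [ENNReal.ofReal_ofNat]
      ring
    rw [h22] at hABP2
    have h23 := (ENNReal.mul_le_mul_iff_left hWpos.ne' hWtop).1 hABP2
    exact (ENNReal.ofReal_le_ofReal_iff (by positivity)).1 h23
  have hbn2 : 2 * b / n = 8 * a / (M * Λ) := by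
    have : (n : ℝ) ≠ 0 := by positivity
    rw [hb]; field_simp; ring
  have hroot : (σ / (2 * ρ)) ^ (2 * n) ≤ (8 * a / (M * Λ) * (2 * r1)) ^ (2 * n) := by
    refine hreal.trans ?_
    rw [hbn2, mul_pow (8 * a / (M * Λ)) (2 * r1), mul_pow 2 r1]
    apply mul_le_mul_of_nonneg_left _ (by positivity)
    apply mul_le_mul_of_nonneg_right _ (by positivity)
    calc (2:ℝ) = 2 ^ 1 := by norm_num
      _ ≤ 2 ^ (2 * n) := pow_le_pow_right₀ (by norm_num) (by omega)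
  have hfin : σ / (2 * ρ) ≤ 8 * a / (M * Λ) * (2 * r1) :=
    le_of_pow_le_pow_left₀ (by omega) (by positivity) hroot
  have hfin2 : σ ≤ a / (4 * M) := by
    rw [div_le_iff₀ (by positivity)] at hfin
    refine hfin.trans (le_of_eq ?_)
    calc 8 * a / (M * Λ) * (2 * r1) * (2 * ρ) = 32 * a / (M * Λ) * (ρ * r1) := by ring
      _ = a / (4 * M) := by rw [hρr1]; field_simp; ring
  have h24 : a / (2 * M) + K2 * ‖τ‖ ^ 2 < w z0 := hcon
  have h25 : 0 ≤ K2 * ‖τ‖ ^ 2 := by positivity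
  have h26 : a / (4 * M) + a / (4 * M) = a / (2 * M) := by field_simp; ring
  rw [hσ] at hfin2
  linarith

theorem norm_rot {n : ℕ} (θ : ℝ) (τ : EC n) : ‖Complex.exp (θ * Complex.I) • τ‖ = ‖τ‖ := by
  rw [norm_smul, Complex.norm_exp_ofReal_mul_I, one_mul]

theorem cav_le {n : ℕ} (u : EC n → ℝ) (hu : Continuous u) (τ z : EC n) (B : ℝ)
    (h : ∀ θ : ℝ, u (z + Complex.exp (θ * Complex.I) • τ) ≤ B) : cav u τ z ≤ B := by
  unfold cav
  have hpi := Real.pi_pos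
  have hc : Continuous fun θ : ℝ => u (z + Complex.exp (θ * Complex.I) • τ) := by fun_prop
  have h1 : ∫ θ in (0:ℝ)..(2 * Real.pi), u (z + Complex.exp (θ * Complex.I) • τ) ≤ ∫ θ in (0:ℝ)..(2 * Real.pi), B := by
    apply intervalIntegral.integral_mono_on (by positivity) (hc.intervalIntegrable _ _) (by simp)
    intro θ _; exact h θ
  rw [intervalIntegral.integral_const, smul_eq_mul, sub_zero] at h1
  calc (2 * Real.pi)⁻¹ * ∫ θ in (0:ℝ)..(2 * Real.pi), u (z + Complex.exp (θ * Complex.I) • τ)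
      ≤ (2 * Real.pi)⁻¹ * (2 * Real.pi * B) := mul_le_mul_of_nonneg_left h1 (by positivity)
    _ = B := by field_simp

theorem cav_bound {n : ℕ} (hn : 0 < n) (u : EC n → ℝ) (hu : ContDiff ℝ 2 u)
    (hfr : ∀ z, ∃ R : EC n →ₗ[ℂ] EC n, ‖LinearMap.det R‖ = 1 ∧ ∀ ξ, levi u z ξ = ‖R ξ‖ ^ 2)
    (c C : ℝ) (hc : 0 < c) (hcC : c ≤ C)
    (h1 : ∀ z, c * (1 + ‖z‖ ^ 2) ≤ u z) (h2 : ∀ z, u z ≤ C * (1 + ‖z‖ ^ 2)) :
    ∃ K : ℝ, 0 < K ∧ ∀ τ : EC n, ‖τ‖ ≤ 1 → ∀ z, cav u τ z - u z ≤ K * ‖τ‖ ^ 2 := by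
  have hC : 0 < C := lt_of_lt_of_le hc hcC
  have hupos : ∀ z, 0 < u z := fun z => lt_of_lt_of_le (by positivity) (h1 z)
  obtain ⟨M, K, hM, hK, hstar⟩ := star hn u hu hfr c C hc hcC h1 h2
  set A : ℝ := C * (3 + 2 / c) with hA
  have hApos : 0 < A := by positivity
  have hMpos : 0 < M := by linarith
  have base : ∀ τ : EC n, ‖τ‖ ≤ 1 → ∀ Λ : ℝ, 1 ≤ Λ → ∀ z, u z ≤ Λ → cav u τ z - u z ≤ A * Λ := by
    intro τ hτ Λ hΛ z hz
    have h3 : ‖z‖ ^ 2 ≤ Λ / c := by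
      rw [le_div_iff₀ hc]; have := h1 z; nlinarith
    have h4 : cav u τ z ≤ A * Λ := by
      apply cav_le u hu.continuous
      intro θ
      have h5 : ‖z + Complex.exp (θ * Complex.I) • τ‖ ≤ ‖z‖ + 1 := by
        refine (norm_add_le _ _).trans ?_
        rw [norm_rot]; linarith
      have h6 : ‖z + Complex.exp (θ * Complex.I) • τ‖ ^ 2 ≤ (‖z‖ + 1) ^ 2 := by gcongr
      have h7 : (‖z‖ + 1) ^ 2 ≤ 2 * ‖z‖ ^ 2 + 2 := by nlinarith [sq_nonneg (‖z‖ - 1)]
      calc u (z + Complex.exp (θ * Complex.I) • τ) ≤ C * (1 + ‖z + Complex.exp (θ * Complex.I) • τ‖ ^ 2) := h2 _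
        _ ≤ C * (3 + 2 * (Λ / c)) := by
            apply mul_le_mul_of_nonneg_left _ hC.le; linarith
        _ ≤ C * (3 * Λ + 2 * (Λ / c)) := by
            apply mul_le_mul_of_nonneg_left _ hC.le; linarith
        _ = A * Λ := by rw [hA]; ring
    linarith [hupos z]
  have iter : ∀ τ : EC n, ‖τ‖ ≤ 1 → ∀ k : ℕ, ∀ Λ : ℝ, 1 ≤ Λ → ∀ z, u z ≤ Λ →
      cav u τ z - u z ≤ A * Λ / 2 ^ k + 2 * K * ‖τ‖ ^ 2 := by
    intro τ hτ k
    induction k with
    | zero =>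
      intro Λ hΛ z hz
      have := base τ hτ Λ hΛ z hz
      have h8 : 0 ≤ 2 * K * ‖τ‖ ^ 2 := by positivity
      simp only [pow_zero, div_one]; linarith
    | succ k ih =>
      intro Λ hΛ z hz
      have hML : 1 ≤ M * Λ := by nlinarith
      have h9 := hstar τ hτ Λ hΛ (A * (M * Λ) / 2 ^ k + 2 * K * ‖τ‖ ^ 2) (by positivity)
        (fun z hz => ih (M * Λ) hML z hz) z hz
      have h10 : (A * (M * Λ) / 2 ^ k + 2 * K * ‖τ‖ ^ 2) / (2 * M) = A * Λ / 2 ^ (k + 1) + K * ‖τ‖ ^ 2 / M := by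
        rw [pow_succ]; field_simp; ring
      have h11 : K * ‖τ‖ ^ 2 / M ≤ K * ‖τ‖ ^ 2 := div_le_self (by positivity) hM.le
      rw [h10] at h9
      linarith
  have wb : ∀ τ : EC n, ‖τ‖ ≤ 1 → ∀ z, cav u τ z - u z ≤ 2 * K * ‖τ‖ ^ 2 := by
    intro τ hτ z
    set Λ : ℝ := max 1 (u z) with hΛ
    have h12 : Tendsto (fun k : ℕ => A * Λ / 2 ^ k + 2 * K * ‖τ‖ ^ 2) atTop (𝓝 (0 + 2 * K * ‖τ‖ ^ 2)) := by
      apply Tendsto.add_const
      have h13 : Tendsto (fun k : ℕ => A * Λ * (1 / 2 : ℝ) ^ k) atTop (𝓝 (A * Λ * 0)) :=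
        (tendsto_pow_atTop_nhds_zero_of_lt_one (by norm_num) (by norm_num)).const_mul _
      rw [mul_zero] at h13
      refine h13.congr (fun k => ?_)
      rw [one_div, inv_pow]; rfl
    rw [zero_add] at h12
    exact ge_of_tendsto' h12 (fun k => iter τ hτ k Λ (le_max_left _ _) z (le_max_right _ _))
  exact ⟨2 * K, by positivity, wb⟩

theorem hess_bound {n : ℕ} (u : EC n → ℝ) (hu : ContDiff ℝ 2 u) (K : ℝ)
    (wb : ∀ τ : EC n, ‖τ‖ ≤ 1 → ∀ z, cav u τ z - u z ≤ K * ‖τ‖ ^ 2) :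
    ∀ z ξ, levi u z ξ ≤ K * ‖ξ‖ ^ 2 := by
  intro z ξ
  have ht := cav_tendsto u hu z ξ
  refine le_of_tendsto ht ?_
  have hev : ∀ᶠ δ : ℝ in 𝓝[>] 0, δ * ‖ξ‖ < 1 := by
    have h14 : Tendsto (fun δ : ℝ => δ * ‖ξ‖) (𝓝[>] 0) (𝓝 (0 * ‖ξ‖)) :=
      (tendsto_nhdsWithin_of_tendsto_nhds tendsto_id).mul_const _
    rw [zero_mul] at h14
    exact h14.eventually (gt_mem_nhds one_pos)
  filter_upwards [hev, self_mem_nhdsWithin] with δ hδ hδ0
  have hδ0' : (0:ℝ) < δ := hδ0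
  have hn1 : ‖((δ : ℂ) • ξ : EC n)‖ = δ * ‖ξ‖ := by
    rw [norm_smul, Complex.norm_real, Real.norm_of_nonneg hδ0'.le]
  have h15 := wb ((δ : ℂ) • ξ) (by rw [hn1]; exact hδ.le) z
  rw [hn1] at h15
  rw [div_le_iff₀ (by positivity)]
  calc cav u ((δ : ℂ) • ξ) z - u z ≤ K * (δ * ‖ξ‖) ^ 2 := h15
    _ = K * ‖ξ‖ ^ 2 * δ ^ 2 := by ring

end CMAL
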