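import Mathlib
import Pool.Agent.Helper706.CMA.Base
open MeasureTheory Metric Set Filter Topology
open scoped ENNReal ComplexOrder
noncomputable section
namespace CMAL


private theorem inkspots_aux_step {E : Type*} [NormedAddCommGroup E] [NormedSpace ℝ E] [FiniteDimensional ℝ E]
    [Nontrivial E]
    [MeasurableSpace E] [BorelSpace E] (μ : Measure E) [μ.IsAddHaarMeasure]
    (f : E → ℝ) (hf : Continuous f) (μ1 γ : ℝ) (hμ0 : 0 < μ1) (hγ0 : 0 < γ) (hγ1 : γ < 1)
    (hGL : ∀ (x : E) (r t : ℝ), 0 < r → 0 < t →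
      μ (ball x r ∩ {z | f z < t}) ≤ ENNReal.ofReal μ1 * μ (ball x r) → ∀ y ∈ ball x (2 * r), γ * t ≤ f y)
    (t' ρ r0 : ℝ) (ht' : 0 < t') (hr0 : 0 < r0)
    (hgood : ∀ x ∈ ball (0:E) ρ,
      ENNReal.ofReal μ1 * μ (ball x r0) < μ (ball x r0 ∩ {z | f z < t'})) :
    μ (ball 0 ρ ∩ {z | t' < f z})
      + ENNReal.ofReal (μ1 / 5 ^ (Module.finrank ℝ E)) * μ (ball 0 ρ ∩ {z | t' < f z})
      ≤ μ (ball 0 (ρ + r0) ∩ {z | γ / 2 * t' < f z}) := by
  classical
  set A := ball (0:E) ρ ∩ {z | t' < f z} with hA
  have hd : ∀ x ∈ A, ∃ d : ℝ, 0 < d ∧ d ≤ r0 ∧ (∀ y ∈ ball x d, γ * t' ≤ f y) ∧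
      ENNReal.ofReal μ1 * μ (ball x d) < μ (ball x d ∩ {z | f z < t'}) := by
    intro x hx
    have hex : ∃ i : ℕ, μ (ball x (r0 / 2 ^ i) ∩ {z | f z < t'})
        ≤ ENNReal.ofReal μ1 * μ (ball x (r0 / 2 ^ i)) := by
      have hopen : IsOpen {z | t' < f z} := isOpen_lt continuous_const hf
      obtain ⟨ε, hε, hεs⟩ := Metric.isOpen_iff.1 hopen x hx.2
      obtain ⟨i, hi⟩ := exists_pow_lt_of_lt_one (show 0 < ε / r0 by positivity)
        (show (1/2:ℝ) < 1 by norm_num)
      refine ⟨i, ?_⟩
      have hle : r0 / 2 ^ i ≤ ε := by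
        rw [lt_div_iff₀ hr0, one_div, inv_pow] at hi
        rw [div_eq_mul_inv, mul_comm]
        exact hi.le
      have : ball x (r0 / 2 ^ i) ∩ {z | f z < t'} = ∅ := by
        ext y
        simp only [mem_inter_iff, mem_setOf_eq, mem_empty_iff_false, iff_false, not_and, not_lt]
        intro hy
        have h1 : y ∈ ball x ε := ball_subset_ball hle hy
        exact le_of_lt (hεs h1)
      rw [this]; simp
    have hspec := Nat.find_spec hex
    have hpos : Nat.find hex ≠ 0 := by
      intro h0
      rw [h0, pow_zero, div_one] at hspec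
      exact absurd hspec (not_le.2 (hgood x hx.1))
    obtain ⟨i, hi⟩ := Nat.exists_eq_succ_of_ne_zero hpos
    have hmin := Nat.find_min hex (m := i) (by omega)
    rw [hi] at hspec
    refine ⟨r0 / 2 ^ i, by positivity, div_le_self hr0.le (one_le_pow₀ (by norm_num)), ?_,
      not_le.1 hmin⟩
    have := hGL x (r0 / 2 ^ (i+1)) t' (by positivity) ht' hspec
    have he : 2 * (r0 / 2 ^ (i+1)) = r0 / 2 ^ i := by
      rw [pow_succ]; field_simp
    rw [he] at this
    exact this
  choose! d hd0 hdr hdf hdμ using hd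
  obtain ⟨u, huA, hudisj, hucov⟩ :=
    Vitali.exists_disjoint_subfamily_covering_enlargement_closedBall A (fun x => x) d r0 hdr 5
      (by norm_num)
  have huc : u.Countable := by
    apply hudisj.countable_of_nonempty_interior
    intro x hx
    rw [interior_closedBall _ (hd0 x (huA hx)).ne']
    exact ⟨x, mem_ball_self (hd0 x (huA hx))⟩
  have hcov : A ⊆ ⋃ x ∈ u, closedBall x (5 * d x) := by
    intro a ha
    obtain ⟨b, hb, hab⟩ := hucov a ha
    exact mem_iUnion₂.2 ⟨b, hb, hab (mem_closedBall_self (hd0 a ha).le)⟩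
  set S : ℝ≥0∞ := ∑' x : u, μ (ball (x : E) (d x)) with hS
  have h1 : μ A ≤ ENNReal.ofReal (5 ^ (Module.finrank ℝ E)) * S := by
    calc μ A ≤ μ (⋃ x ∈ u, closedBall x (5 * d x)) := measure_mono hcov
      _ ≤ ∑' x : u, μ (closedBall (x : E) (5 * d x)) := measure_biUnion_le μ huc _
      _ = ∑' x : u, ENNReal.ofReal (5 ^ (Module.finrank ℝ E)) * μ (ball (x : E) (d x)) := by
          apply tsum_congr
          intro x
          rw [Measure.addHaar_closedBall_eq_addHaar_ball,
            Measure.addHaar_ball_mul μ (x : E) (by norm_num) (d x),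
            Measure.addHaar_ball_center μ (x : E) (d x)]
      _ = _ := ENNReal.tsum_mul_left
  have hmeas : MeasurableSet {z | f z < t'} := (isOpen_lt hf continuous_const).measurableSet
  have h2 : μ (⋃ x ∈ u, (closedBall x (d x) ∩ {z | f z < t'}))
      = ∑' x : u, μ (closedBall (x : E) (d x) ∩ {z | f z < t'}) := by
    apply measure_biUnion huc
    · intro x hx y hy hxy
      exact (hudisj hx hy hxy).mono inter_subset_left inter_subset_left
    · intro x _
      exact isClosed_closedBall.measurableSet.inter hmeas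
  have h3 : ENNReal.ofReal μ1 * S ≤ μ (⋃ x ∈ u, (closedBall x (d x) ∩ {z | f z < t'})) := by
    rw [h2, hS, ← ENNReal.tsum_mul_left]
    apply ENNReal.tsum_le_tsum
    intro x
    refine (hdμ x (huA x.2)).le.trans (measure_mono ?_)
    exact inter_subset_inter_left _ ball_subset_closedBall
  have h4 : ENNReal.ofReal (μ1 / 5 ^ (Module.finrank ℝ E)) * μ A
      ≤ μ (⋃ x ∈ u, (closedBall x (d x) ∩ {z | f z < t'})) := by
    refine le_trans ?_ h3
    calc ENNReal.ofReal (μ1 / 5 ^ (Module.finrank ℝ E)) * μ A
        ≤ ENNReal.ofReal (μ1 / 5 ^ (Module.finrank ℝ E))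
          * (ENNReal.ofReal (5 ^ (Module.finrank ℝ E)) * S) := by gcongr
      _ = ENNReal.ofReal μ1 * S := by
          rw [← mul_assoc, ← ENNReal.ofReal_mul (by positivity)]
          congr 2
          field_simp
  have hdisj : Disjoint A (⋃ x ∈ u, (closedBall x (d x) ∩ {z | f z < t'})) := by
    rw [Set.disjoint_left]
    intro y hy hy'
    obtain ⟨x, _, hx⟩ := mem_iUnion₂.1 hy'
    have h5 : t' < f y := hy.2
    have h6 : f y < t' := hx.2
    linarith
  have hmU : MeasurableSet (⋃ x ∈ u, (closedBall x (d x) ∩ {z | f z < t'})) := by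
    apply MeasurableSet.biUnion huc
    intro x _
    exact isClosed_closedBall.measurableSet.inter hmeas
  calc μ A + ENNReal.ofReal (μ1 / 5 ^ (Module.finrank ℝ E)) * μ A
      ≤ μ A + μ (⋃ x ∈ u, (closedBall x (d x) ∩ {z | f z < t'})) := by gcongr
    _ = μ (A ∪ ⋃ x ∈ u, (closedBall x (d x) ∩ {z | f z < t'})) := (measure_union hdisj hmU).symm
    _ ≤ _ := by
        apply measure_mono
        apply union_subset
        · intro y hy
          refine ⟨ball_subset_ball (by linarith) hy.1, ?_⟩
          have h5 : t' < f y := hy.2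
          show γ / 2 * t' < f y
          nlinarith
        · intro y hy
          obtain ⟨x, hxu, hx⟩ := mem_iUnion₂.1 hy
          have hxA := huA hxu
          have hx0 := hd0 x hxA
          refine ⟨?_, ?_⟩
          · have h5 : dist x 0 < ρ := hxA.1
            have h6 : dist y x ≤ d x := hx.1
            have h7 := hdr x hxA
            have h8 := dist_triangle y x 0
            rw [mem_ball]
            linarith
          · have h5 : closedBall x (d x) ⊆ {z | γ * t' ≤ f z} := by
              rw [← closure_ball x hx0.ne']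
              apply closure_minimal (hdf x hxA) (isClosed_le continuous_const hf)
            have h6 : γ * t' ≤ f y := h5 hx.1
            show γ / 2 * t' < f y
            have : 0 < γ * t' := by positivity
            linarith

/-- J14: Krylov-Safonov ink spots at infinity (abstract measure theory) -/
theorem inkspots {E : Type*} [NormedAddCommGroup E] [NormedSpace ℝ E] [FiniteDimensional ℝ E] [Nontrivial E]
    [MeasurableSpace E] [BorelSpace E] (μ : Measure E) [μ.IsAddHaarMeasure]
    (f : E → ℝ) (hf : Continuous f) (hf0 : ∀ x, 0 ≤ f x) (μ1 γ : ℝ) (hμ0 : 0 < μ1) (hμ1 : μ1 < 1) (hγ0 : 0 < γ) (hγ1 : γ < 1)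
    (hGL : ∀ (x : E) (r t : ℝ), 0 < r → 0 < t →
      μ (ball x r ∩ {z | f z < t}) ≤ ENNReal.ofReal μ1 * μ (ball x r) → ∀ y ∈ ball x (2 * r), γ * t ≤ f y)
    (hinf : ∀ ε > 0, ∃ x, f x < ε) (t : ℝ) (ht : 0 < t) :
    Tendsto (fun R : ℝ => μ (ball 0 R ∩ {z | t ≤ f z}) / μ (ball 0 R)) atTop (𝓝 0) := by
  classical
  rw [ENNReal.tendsto_nhds_zero]
  by_contra hcon
  push Not at hcon
  obtain ⟨ε, hε, hfreq⟩ := hcon
  have hfreq' : ∃ᶠ R : ℝ in atTop, ε < μ (ball 0 R ∩ {z | t ≤ f z}) / μ (ball 0 R) := by
    simpa only [Filter.not_eventually, not_le] using hfreq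
  set e : ℝ := (min ε 1).toReal with he
  have hmin : min ε 1 ≠ ∞ := ne_top_of_le_ne_top ENNReal.one_ne_top (min_le_right _ _)
  have he0 : 0 < e := ENNReal.toReal_pos (by simp [hε.ne']) hmin
  have heε : ENNReal.ofReal e ≤ ε := by
    rw [he, ENNReal.ofReal_toReal hmin]; exact min_le_left _ _
  set m := Module.finrank ℝ E with hm
  set c : ℝ := μ1 / 5 ^ m with hc
  have hc0 : 0 < c := by positivity
  obtain ⟨N, hN⟩ := pow_unbounded_of_one_lt (2 ^ m / e) (show 1 < 1 + c by linarith)
  have hN1 : 2 ^ m < (1 + c) ^ (N + 1) * e := by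
    rw [div_lt_iff₀ he0] at hN
    refine hN.trans_le ?_
    gcongr
    · linarith
    · omega
  set K := N + 1 with hK
  have hKpos : (0:ℝ) < K := by rw [hK]; positivity
  set T : ℕ → ℝ := fun j => (γ / 2) ^ j * (t / 2) with hT
  have hTpos : ∀ j, 0 < T j := fun j => by simp only [hT]; positivity
  have hTsucc : ∀ j, T (j + 1) = γ / 2 * T j := fun j => by simp only [hT]; ring
  set ts : ℝ := γ ^ (3 * K) * T K with hts
  have hts0 : 0 < ts := by rw [hts]; have := hTpos K; positivity
  -- the main claim for one radius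
  have key : ∀ R : ℝ, 0 < R → ε < μ (ball 0 R ∩ {z | t ≤ f z}) / μ (ball 0 R) →
      ∀ y ∈ ball (0:E) R, ts ≤ f y := by
    intro R hR hrat
    have hbad : ∃ j < K, ∃ x ∈ ball (0:E) (2 * R),
        μ (ball x (R / K) ∩ {z | f z < T j}) ≤ ENNReal.ofReal μ1 * μ (ball x (R / K)) := by
      by_contra hgood
      push Not at hgood
      have hind : ∀ j ≤ K, ENNReal.ofReal ((1 + c) ^ j) * μ (ball (0:E) R ∩ {z | t / 2 < f z})
          ≤ μ (ball (0:E) (R + j * (R / K)) ∩ {z | T j < f z}) := by
        intro j
        induction j with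
        | zero => intro _; simp [hT]
        | succ j ih =>
          intro hj
          have ih' := ih (by omega)
          have hstep := inkspots_aux_step μ f hf μ1 γ hμ0 hγ0 hγ1 hGL (T j) (R + j * (R / K)) (R / K)
            (hTpos j) (by positivity) (fun x hx => hgood j (by omega) x (by
              refine ball_subset_ball ?_ hx
              have h1 : (j:ℝ) * (R / K) ≤ K * (R / K) := by
                gcongr
                omega
              have h2 : (K:ℝ) * (R / K) = R := by field_simp
              linarith))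
          rw [← hTsucc j] at hstep
          have h3 : R + ((j + 1 : ℕ) : ℝ) * (R / K) = R + j * (R / K) + R / K := by
            push_cast; ring
          rw [h3]
          refine le_trans ?_ hstep
          rw [← hm, ← hc]
          calc ENNReal.ofReal ((1 + c) ^ (j + 1)) * μ (ball (0:E) R ∩ {z | t / 2 < f z})
              = (1 + ENNReal.ofReal c) *
                (ENNReal.ofReal ((1 + c) ^ j) * μ (ball (0:E) R ∩ {z | t / 2 < f z})) := by
                rw [pow_succ, mul_comm ((1 + c) ^ j), ENNReal.ofReal_mul (by positivity),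
                  ENNReal.ofReal_add (by norm_num) hc0.le, ENNReal.ofReal_one, mul_assoc]
            _ ≤ (1 + ENNReal.ofReal c) * μ (ball (0:E) (R + j * (R / K)) ∩ {z | T j < f z}) := by
                gcongr
            _ = _ := by rw [add_mul, one_mul]
      have hfin := hind K le_rfl
      have h2 : (K:ℝ) * (R / K) = R := by field_simp
      rw [h2] at hfin
      have hb0 : μ (ball (0:E) R) ≠ 0 := (measure_ball_pos μ 0 hR).ne'
      have hbt : μ (ball (0:E) R) ≠ ∞ := measure_ball_lt_top.ne
      have h4 : ENNReal.ofReal e * μ (ball (0:E) R) ≤ μ (ball (0:E) R ∩ {z | t / 2 < f z}) := by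
        have h5 : ENNReal.ofReal e * μ (ball (0:E) R) ≤ μ (ball 0 R ∩ {z | t ≤ f z}) := by
          have h6 := heε.trans hrat.le
          rwa [ENNReal.le_div_iff_mul_le (Or.inl hb0) (Or.inl hbt)] at h6
        refine h5.trans (measure_mono (inter_subset_inter_right _ ?_))
        intro z hz
        have : t ≤ f z := hz
        show t / 2 < f z
        linarith
      have h7 : ENNReal.ofReal ((1 + c) ^ K) * (ENNReal.ofReal e * μ (ball (0:E) R))
          ≤ ENNReal.ofReal (2 ^ m) * μ (ball (0:E) R) := by
        calc _ ≤ ENNReal.ofReal ((1 + c) ^ K) * μ (ball (0:E) R ∩ {z | t / 2 < f z}) := by gcongr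
          _ ≤ _ := hfin
          _ ≤ μ (ball (0:E) (2 * R)) := by
              apply measure_mono
              refine inter_subset_left.trans (ball_subset_ball (by linarith))
          _ = _ := Measure.addHaar_ball_mul μ (0:E) (by norm_num) R
      rw [← mul_assoc, ← ENNReal.ofReal_mul (by positivity)] at h7
      have h8 := (ENNReal.mul_le_mul_iff_left hb0 hbt).1 h7
      have h9 := (ENNReal.ofReal_le_ofReal_iff (by positivity)).1 h8
      linarith
    obtain ⟨j, hj, x, hx, hbad⟩ := hbad
    have hgrow : ∀ i : ℕ, ∀ y ∈ ball x (2 ^ (i + 1) * (R / K)), γ ^ (i + 1) * T j ≤ f y := by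
      intro i
      induction i with
      | zero =>
        have := hGL x (R / K) (T j) (by positivity) (hTpos j) hbad
        simpa using this
      | succ i ih =>
        have h1 : ball x (2 ^ (i + 1) * (R / K)) ∩ {z | f z < γ ^ (i + 1) * T j} = ∅ := by
          ext y
          simp only [mem_inter_iff, mem_setOf_eq, mem_empty_iff_false, iff_false, not_and, not_lt]
          exact ih y
        have h2 := hGL x (2 ^ (i + 1) * (R / K)) (γ ^ (i + 1) * T j) (by positivity)
          (by have := hTpos j; positivity) (by rw [h1]; simp)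
        intro y hy
        have h3 := h2 y (by convert hy using 2; ring)
        calc γ ^ (i + 1 + 1) * T j = γ * (γ ^ (i + 1) * T j) := by ring
          _ ≤ f y := h3
    intro y hy
    have h5 : (3 * K : ℕ) = (3 * K - 1) + 1 := by omega
    have h6 := hgrow (3 * K - 1) y (by
      rw [← h5]
      have h7 : (3 * K : ℝ) ≤ 2 ^ (3 * K) := by
        have : 3 * K ≤ 2 ^ (3 * K) := Nat.lt_two_pow_self.le
        exact_mod_cast this
      have h8 : 3 * R ≤ 2 ^ (3 * K) * (R / K) := by
        calc 3 * R = (3 * K) * (R / K) := by field_simp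
          _ ≤ _ := by gcongr
      have h9 := dist_triangle y 0 x
      rw [mem_ball] at hx hy ⊢
      rw [dist_comm 0 x] at h9
      linarith)
    rw [← h5] at h6
    refine le_trans ?_ h6
    rw [hts]
    have h10 : T K ≤ T j := by
      simp only [hT]
      have : (γ / 2) ^ K ≤ (γ / 2) ^ j :=
        pow_le_pow_of_le_one (by positivity) (by linarith) hj.le
      gcongr
    gcongr
  obtain ⟨y, hy⟩ := hinf ts hts0
  obtain ⟨R, hR, hRrat⟩ := (hfreq'.and_eventually (eventually_gt_atTop (‖y‖ + 1))).exists
  have hR0 : 0 < R := by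
    have := norm_nonneg y
    linarith
  have := key R hR0 hR y (by rw [mem_ball_zero_iff]; linarith)
  linarith

end CMAL
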