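import Mathlib
import Pool.Agent.Helper706.CMA.Base
open MeasureTheory Metric Set Filter Topology
open scoped ENNReal ComplexOrder
noncomputable section
namespace CMAL


/-- crude bound for the entries of the adjugate -/
private theorem j9143_adj {n : ℕ} (M : Matrix (Fin n) (Fin n) ℂ) (x : ℝ) (hx : 1 ≤ x)
    (hM : ∀ i j, ‖M i j‖ ≤ x) (i j : Fin n) :
    ‖M.adjugate i j‖ ≤ (n.factorial : ℝ) * x ^ n := by
  rw [Matrix.adjugate_apply]
  have h1 := Matrix.det_le (A := M.updateRow j (Pi.single i 1))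
    (abv := IsAbsoluteValue.toAbsoluteValue (norm : ℂ → ℝ)) (x := x) (by
      intro a b
      show ‖(M.updateRow j (Pi.single i 1)) a b‖ ≤ x
      by_cases ha : a = j
      · subst ha
        rw [Matrix.updateRow_self]
        by_cases hb : b = i
        · subst hb; simpa using hx
        · rw [Pi.single_eq_of_ne hb]; simp; linarith
      · rw [Matrix.updateRow_ne ha]
        exact hM a b)
  rw [Fintype.card_fin, nsmul_eq_mul] at h1
  exact h1

/-- J12 -/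
theorem inv_bound (n : ℕ) (C0 : ℝ) (hC0 : 0 < C0) : ∃ C1 : ℝ, 0 < C1 ∧ ∀ R : EC n →ₗ[ℂ] EC n, ‖LinearMap.det R‖ = 1 →
    (∀ ξ, ‖R ξ‖ ^ 2 ≤ C0 * ‖ξ‖ ^ 2) → ∃ P : EC n →ₗ[ℂ] EC n, R ∘ₗ P = LinearMap.id ∧ ‖LinearMap.det P‖ = 1 ∧
      (∑ k : Fin n, ‖P (bv k)‖ ^ 2 ≤ C1) ∧ ∀ x : EC n, ‖x‖ ^ 2 ≤ C0 * ∑ k : Fin n, ‖inner ℂ x (P (bv k))‖ ^ 2 := by
  classical
  obtain ⟨x, hx⟩ : ∃ x : ℝ, x = max 1 (Real.sqrt C0) := ⟨_, rfl⟩
  have hx1 : 1 ≤ x := by rw [hx]; exact le_max_left _ _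
  have hx2 : Real.sqrt C0 ≤ x := by rw [hx]; exact le_max_right _ _
  refine ⟨n * (n * ((n.factorial : ℝ) * x ^ n) ^ 2) + 1, by positivity, ?_⟩
  intro R hdet hR
  have hR' : ∀ ξ, ‖R ξ‖ ≤ Real.sqrt C0 * ‖ξ‖ := by
    intro ξ
    have h1 := Real.sqrt_le_sqrt (hR ξ)
    rwa [Real.sqrt_sq (norm_nonneg _), Real.sqrt_mul hC0.le, Real.sqrt_sq (norm_nonneg _)] at h1
  obtain ⟨b, hb⟩ : ∃ b : Module.Basis (Fin n) ℂ (EC n), b = (EuclideanSpace.basisFun (Fin n) ℂ).toBasis :=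
    ⟨_, rfl⟩
  have hbk : ∀ k, b k = bv k := by
    intro k
    rw [hb]
    simp [bv]
  have hbr : ∀ (y : EC n) (i : Fin n), b.repr y i = y i := by
    intro y i
    rw [hb]
    simp
  have hbn : ∀ k : Fin n, ‖(bv k : EC n)‖ = 1 := by
    intro k; simp [bv]
  obtain ⟨M, hMdef⟩ : ∃ M : Matrix (Fin n) (Fin n) ℂ, M = LinearMap.toMatrix b b R := ⟨_, rfl⟩
  have hMdet : ‖M.det‖ = 1 := by
    rw [hMdef, LinearMap.det_toMatrix]; exact hdet
  have hMdet0 : M.det ≠ 0 := by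
    intro h; rw [h] at hMdet; simp at hMdet
  have hunit : IsUnit M.det := isUnit_iff_ne_zero.mpr hMdet0
  have hMe : ∀ i j, ‖M i j‖ ≤ x := by
    intro i j
    rw [hMdef, LinearMap.toMatrix_apply, hbr, hbk]
    calc ‖(R (bv j)) i‖ ≤ ‖R (bv j)‖ := PiLp.norm_apply_le _ _
      _ ≤ Real.sqrt C0 * ‖(bv j : EC n)‖ := hR' _
      _ ≤ x := by rw [hbn, mul_one]; exact hx2
  have hRM : R = Matrix.toLin b b M := by rw [hMdef, Matrix.toLin_toMatrix]
  obtain ⟨P, hP⟩ : ∃ P : EC n →ₗ[ℂ] EC n, P = Matrix.toLin b b M⁻¹ := ⟨_, rfl⟩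
  have hRP : R ∘ₗ P = LinearMap.id := by
    rw [hRM, hP, ← Matrix.toLin_mul, Matrix.mul_nonsing_inv _ hunit, Matrix.toLin_one]
  have hPR : P ∘ₗ R = LinearMap.id := by
    rw [hRM, hP, ← Matrix.toLin_mul, Matrix.nonsing_inv_mul _ hunit, Matrix.toLin_one]
  refine ⟨P, hRP, ?_, ?_, ?_⟩
  · rw [hP, LinearMap.det_toLin, Matrix.det_nonsing_inv, Ring.inverse_eq_inv', norm_inv, hMdet, inv_one]
  · have hent : ∀ k i, ‖(P (bv k)) i‖ ≤ (n.factorial : ℝ) * x ^ n := by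
      intro k i
      have h1 : (P (bv k)) i = M⁻¹ i k := by
        rw [← hbr, ← hbk, ← LinearMap.toMatrix_apply, hP, LinearMap.toMatrix_toLin]
      rw [h1, Matrix.inv_def, Matrix.smul_apply, Ring.inverse_eq_inv', norm_smul, norm_inv, hMdet,
        inv_one, one_mul]
      exact j9143_adj M x hx1 hMe i k
    have h2 : ∀ k, ‖P (bv k)‖ ^ 2 ≤ n * ((n.factorial : ℝ) * x ^ n) ^ 2 := by
      intro k
      rw [EuclideanSpace.norm_sq_eq]
      calc ∑ i, ‖(P (bv k)) i‖ ^ 2 ≤ ∑ _i : Fin n, ((n.factorial : ℝ) * x ^ n) ^ 2 :=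
            Finset.sum_le_sum (fun i _ => pow_le_pow_left₀ (norm_nonneg _) (hent k i) 2)
        _ = _ := by simp
    calc ∑ k, ‖P (bv k)‖ ^ 2 ≤ ∑ _k : Fin n, n * ((n.factorial : ℝ) * x ^ n) ^ 2 :=
          Finset.sum_le_sum (fun k _ => h2 k)
      _ = n * (n * ((n.factorial : ℝ) * x ^ n) ^ 2) := by simp
      _ ≤ _ := by linarith
  · intro y
    have h1 : ∑ k : Fin n, ‖inner ℂ y (P (bv k))‖ ^ 2 = ‖LinearMap.adjoint P y‖ ^ 2 := by
      rw [← (EuclideanSpace.basisFun (Fin n) ℂ).sum_sq_norm_inner_left (LinearMap.adjoint P y)]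
      refine Finset.sum_congr rfl (fun k _ => ?_)
      rw [LinearMap.adjoint_inner_left]
      congr 3
      simp [bv]
    rw [h1]
    have h2 : ‖y‖ ^ 2 ≤ ‖LinearMap.adjoint P y‖ * (Real.sqrt C0 * ‖y‖) := by
      have h3 : (inner ℂ y y : ℂ) = inner ℂ (LinearMap.adjoint P y) (R y) := by
        rw [LinearMap.adjoint_inner_left]
        have : P (R y) = y := by
          have := congrArg (fun f => f y) hPR
          simpa using this
        rw [this]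
      have h4 : ‖(inner ℂ y y : ℂ)‖ = ‖y‖ ^ 2 := by
        rw [inner_self_eq_norm_sq_to_K]; simp
      rw [← h4, h3]
      refine (norm_inner_le_norm _ _).trans ?_
      exact mul_le_mul_of_nonneg_left (hR' y) (norm_nonneg _)
    rcases eq_or_lt_of_le (norm_nonneg y) with h0 | h0
    · rw [← h0]
      have : 0 ≤ C0 * ‖LinearMap.adjoint P y‖ ^ 2 := by positivity
      simpa using this
    · have h5 : ‖y‖ ≤ ‖LinearMap.adjoint P y‖ * Real.sqrt C0 := by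
        have h6 : ‖y‖ * ‖y‖ ≤ (‖LinearMap.adjoint P y‖ * Real.sqrt C0) * ‖y‖ := by nlinarith
        exact le_of_mul_le_mul_right h6 h0
      have h7 := pow_le_pow_left₀ h0.le h5 2
      rw [mul_pow, Real.sq_sqrt hC0.le] at h7
      linarith

end CMAL
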