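import Mathlib
import Pool.Agent.Helper706.CMA.Base
import Pool.Agent.Helper706.CMA.Harm1
open MeasureTheory Metric Set Filter Topology
open scoped ENNReal ComplexOrder
noncomputable section
namespace CMAL




/-- the complex line through `z` -/
private def lineL {n : ℕ} (z : EC n) : ℂ →L[ℝ] EC n :=
  LinearMap.mkContinuous
    { toFun := fun w => w • z
      map_add' := fun a b => add_smul a b z
      map_smul' := fun a b => by
        simp only [RingHom.id_apply, Complex.real_smul, mul_smul]
        rfl } ‖z‖ (fun w => by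
      show ‖w • z‖ ≤ ‖z‖ * ‖w‖
      rw [norm_smul, mul_comm])

private theorem lineL_apply {n : ℕ} (z : EC n) (w : ℂ) : lineL z w = w • z := rfl

private theorem line_D2 {n : ℕ} (f : EC n → ℝ) (hf : ContDiff ℝ 2 f) (z : EC n) (w u v : ℂ) :
    fderiv ℝ (fderiv ℝ (fun w => f (lineL z w))) w u v =
      D2 f (lineL z w) (lineL z u) (lineL z v) := by
  have hd : Differentiable ℝ f := hf.differentiable (by norm_num)
  have hd2 : Differentiable ℝ (fderiv ℝ f) :=
    (hf.fderiv_right (m := 1) (by norm_num)).differentiable (by norm_num)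
  have h1 : (fderiv ℝ (fun w => f (lineL z w))) =
      fun w => ((ContinuousLinearMap.compL ℝ ℂ (EC n) ℝ).flip (lineL z)) (fderiv ℝ f (lineL z w)) := by
    funext w
    have := ((hd (lineL z w)).hasFDerivAt.comp w (lineL z).hasFDerivAt).fderiv
    rw [ContinuousLinearMap.flip_apply, ContinuousLinearMap.compL_apply]
    exact this
  rw [h1]
  have h2 := ((ContinuousLinearMap.compL ℝ ℂ (EC n) ℝ).flip (lineL z)).hasFDerivAt.comp w
    ((hd2 (lineL z w)).hasFDerivAt.comp w (lineL z).hasFDerivAt)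
  have h3 := h2.fderiv
  have h4 : (⇑((ContinuousLinearMap.compL ℝ ℂ (EC n) ℝ).flip (lineL z)) ∘ (fderiv ℝ f ∘ ⇑(lineL z))) =
      fun w => ((ContinuousLinearMap.compL ℝ ℂ (EC n) ℝ).flip (lineL z)) (fderiv ℝ f (lineL z w)) := rfl
  rw [← h4, h3]
  rfl

private theorem line_D1 {n : ℕ} (f : EC n → ℝ) (hf : ContDiff ℝ 2 f) (z : EC n) (w u : ℂ) :
    fderiv ℝ (fun w => f (lineL z w)) w u = fderiv ℝ f (lineL z w) (lineL z u) := by
  have hd : Differentiable ℝ f := hf.differentiable (by norm_num)
  have := ((hd (lineL z w)).hasFDerivAt.comp w (lineL z).hasFDerivAt).fderiv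
  have h4 : (f ∘ ⇑(lineL z)) = fun w => f (lineL z w) := rfl
  rw [h4] at this
  rw [this]
  rfl

/-- J19: a `C^2` function with zero Levi form and quadratic growth is a real quadratic polynomial -/
theorem pluri_quad {n : ℕ} (f : EC n → ℝ) (hf : ContDiff ℝ 2 f) (hl : ∀ z ξ, levi f z ξ = 0)
    (C : ℝ) (hC : ∀ z, |f z| ≤ C * (1 + ‖z‖ ^ 2)) (z : EC n) :
    f z = f 0 + fderiv ℝ f 0 z + (1 / 2) * D2 f 0 z z := by
  have hC0 : 0 ≤ C := by
    have := (abs_nonneg _).trans (hC 0)
    simpa using this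
  have key := harm1 (fun w => f (lineL z w)) (hf.comp (lineL z).contDiff) ?_ (C * (1 + ‖z‖ ^ 2)) ?_
  · rw [line_D1 f hf, line_D2 f hf] at key
    simp only [lineL_apply, one_smul, zero_smul] at key
    exact key
  · intro w
    rw [line_D2 f hf, line_D2 f hf]
    have h1 := hl (lineL z w) z
    unfold levi at h1
    simp only [lineL_apply, one_smul] at h1 ⊢
    linarith
  · intro w
    refine (hC (lineL z w)).trans ?_
    rw [lineL_apply, norm_smul, mul_pow, mul_assoc]
    apply mul_le_mul_of_nonneg_left _ hC0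
    nlinarith [sq_nonneg ‖z‖, sq_nonneg ‖w‖, norm_nonneg z, norm_nonneg w]

end CMAL
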