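import Mathlib
import Pool.Agent.Helper706.CMA.Base
open MeasureTheory Metric Set Filter Topology
open scoped ENNReal ComplexOrder
noncomputable section
namespace CMAL


private theorem decomp833 {n : ℕ} (z : EC n) :
    z = ∑ s : Fin n ⊕ Fin n, (Sum.elim (fun k => (z k).re) (fun k => (z k).im) s : ℝ) •
      (Sum.elim (fun k => (bv k : EC n)) (fun k => Complex.I • bv k) s : EC n) := by
  rw [Fintype.sum_sum_type]
  simp only [Sum.elim_inl, Sum.elim_inr]
  ext k
  simp only [bv, PiLp.add_apply, WithLp.ofLp_sum, Finset.sum_apply, PiLp.smul_apply,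
    PiLp.single_apply, smul_eq_mul, mul_ite, mul_one, mul_zero, Complex.real_smul,
    Finset.sum_ite_eq, Finset.mem_univ, if_true]
  apply Complex.ext <;> simp

/-- J21: a real quadratic function is a polynomial of total degree at most 2 -/
theorem poly_form {n : ℕ} (u : EC n → ℝ) (a : ℝ) (l : EC n →L[ℝ] ℝ) (B : EC n →L[ℝ] EC n →L[ℝ] ℝ)
    (h : ∀ z, u z = a + l z + B z z) :
    ∃ q : MvPolynomial (Fin n ⊕ Fin n) ℝ, q.totalDegree ≤ 2 ∧
      ∀ z, u z = MvPolynomial.eval (Sum.elim (fun k => (z k).re) (fun k => (z k).im)) q := by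
  obtain ⟨bb, hbb⟩ : ∃ bb : Fin n ⊕ Fin n → EC n,
    bb = Sum.elim (fun k => (bv k : EC n)) (fun k => Complex.I • bv k) := ⟨_, rfl⟩
  refine ⟨MvPolynomial.C a + ∑ s, MvPolynomial.C (l (bb s)) * MvPolynomial.X s +
    ∑ s, ∑ t, MvPolynomial.C (B (bb s) (bb t)) * (MvPolynomial.X s * MvPolynomial.X t), ?_, ?_⟩
  · refine (MvPolynomial.totalDegree_add _ _).trans (max_le ?_ ?_)
    · refine (MvPolynomial.totalDegree_add _ _).trans (max_le ?_ ?_)
      · rw [MvPolynomial.totalDegree_C]; norm_num
      · apply MvPolynomial.totalDegree_finsetSum_le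
        intro s _
        refine (MvPolynomial.totalDegree_mul _ _).trans ?_
        rw [MvPolynomial.totalDegree_C, MvPolynomial.totalDegree_X]
        norm_num
    · apply MvPolynomial.totalDegree_finsetSum_le
      intro s _
      apply MvPolynomial.totalDegree_finsetSum_le
      intro t _
      refine (MvPolynomial.totalDegree_mul _ _).trans ?_
      have h2 := MvPolynomial.totalDegree_mul (MvPolynomial.X s : MvPolynomial (Fin n ⊕ Fin n) ℝ)
        (MvPolynomial.X t)
      rw [MvPolynomial.totalDegree_X, MvPolynomial.totalDegree_X] at h2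
      rw [MvPolynomial.totalDegree_C]
      omega
  · intro z
    obtain ⟨c, hc⟩ : ∃ c : Fin n ⊕ Fin n → ℝ, c = Sum.elim (fun k => (z k).re) (fun k => (z k).im) := ⟨_, rfl⟩
    rw [← hc, h]
    have hz : z = ∑ s, c s • bb s := by
      rw [hc, hbb]; exact decomp833 z
    have e1 : l z = ∑ s, l (bb s) * c s := by
      conv_lhs => rw [hz]
      rw [map_sum]
      apply Finset.sum_congr rfl
      intro s _
      rw [map_smul, smul_eq_mul, mul_comm]
    have e2 : B z z = ∑ s, ∑ t, B (bb s) (bb t) * (c s * c t) := by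
      have e5 : B z z = ∑ t, c t * B z (bb t) := by
        conv_lhs => rw [show B z z = B z (∑ t, c t • bb t) by rw [← hz]]
        rw [map_sum]
        apply Finset.sum_congr rfl
        intro t _
        rw [map_smul, smul_eq_mul]
      have e6 : ∀ v, B z v = ∑ s, c s * B (bb s) v := by
        intro v
        conv_lhs => rw [show B z v = B (∑ s, c s • bb s) v by rw [← hz]]
        simp only [map_sum, map_smul, _root_.sum_apply, _root_.smul_apply, smul_eq_mul]
      rw [e5, Finset.sum_comm]
      apply Finset.sum_congr rfl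
      intro t _
      rw [e6, Finset.mul_sum]
      apply Finset.sum_congr rfl
      intro s _
      ring
    rw [e1, e2]
    simp only [map_add, map_sum, map_mul, MvPolynomial.eval_C, MvPolynomial.eval_X]

end CMAL
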