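import Mathlib
import Pool.Agent.Helper706.CMA.Base
open MeasureTheory Metric Set Filter Topology
open scoped ENNReal ComplexOrder
noncomputable section
namespace CMAL


/-- second order necessary condition for a local minimum -/
private theorem snd_nec (φ φ' : ℝ → ℝ) (d : ℝ) (h1 : ∀ᶠ s in 𝓝 (0:ℝ), HasDerivAt φ (φ' s) s)
    (h2 : HasDerivAt φ' d 0) (hmin : IsLocalMin φ 0) : 0 ≤ d := by
  by_contra hd
  push Not at hd
  have e1 : deriv φ =ᶠ[𝓝 0] φ' := h1.mono fun s hs => hs.deriv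
  have e2 : deriv (deriv φ) 0 = d := by rw [e1.deriv_eq, h2.deriv]
  have hmax : IsLocalMax φ 0 :=
    isLocalMax_of_deriv_deriv_neg (by rw [e2]; exact hd) hmin.deriv_eq_zero
      h1.self_of_nhds.continuousAt
  have e3 : φ =ᶠ[𝓝 0] fun _ => φ 0 := by
    filter_upwards [hmin, hmax] with s h3 h4
    exact le_antisymm h4 h3
  have e4 : deriv φ =ᶠ[𝓝 0] fun _ => 0 := by
    have := e3.deriv
    refine this.trans ?_
    exact Eventually.of_forall fun s => deriv_const s _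
  have e5 : deriv (deriv φ) 0 = 0 := by rw [e4.deriv_eq, deriv_const]
  rw [e2] at e5
  exact hd.ne e5

/-- the barrier along a line -/
private theorem barrier_line (q : ℕ) (A B C : ℝ) (hA : 0 < A) :
    ∃ h' : ℝ → ℝ, (∀ᶠ s in 𝓝 (0:ℝ), HasDerivAt (fun s : ℝ => (A + B * s + C * s ^ 2) ^ (-(q:ℤ)))
      (h' s) s) ∧
    HasDerivAt h' ((q : ℝ) * (q + 1) * A ^ (-(q:ℤ) - 2) * B ^ 2
      - 2 * q * A ^ (-(q:ℤ) - 1) * C) 0 := by
  have hP : ∀ s : ℝ, HasDerivAt (fun s : ℝ => A + B * s + C * s ^ 2) (B + 2 * C * s) s := by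
    intro s
    have h1 : HasDerivAt (fun s : ℝ => B * s) B s := by
      simpa using (hasDerivAt_id s).const_mul B
    have h2 : HasDerivAt (fun s : ℝ => C * s ^ 2) (C * (2 * s)) s := by
      simpa using (hasDerivAt_pow 2 s).const_mul C
    have h3 := (h1.const_add A).add h2
    refine h3.congr_deriv ?_
    ring
  have hpos : ∀ᶠ s in 𝓝 (0:ℝ), 0 < A + B * s + C * s ^ 2 := by
    have hc : ContinuousAt (fun s : ℝ => A + B * s + C * s ^ 2) 0 := (hP 0).continuousAt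
    have h0 : (0:ℝ) < (fun s : ℝ => A + B * s + C * s ^ 2) 0 := by simpa using hA
    exact hc.eventually (lt_mem_nhds h0)
  refine ⟨fun s => (-(q:ℤ) : ℤ) * (A + B * s + C * s ^ 2) ^ (-(q:ℤ) - 1) * (B + 2 * C * s), ?_, ?_⟩
  · filter_upwards [hpos] with s hs
    have h1 := (hasDerivAt_zpow (-(q:ℤ)) (A + B * s + C * s ^ 2) (Or.inl hs.ne')).comp s (hP s)
    exact h1
  · have hA' : A + B * 0 + C * 0 ^ 2 = A := by ring
    have h1 := (hasDerivAt_zpow (-(q:ℤ) - 1) (A + B * 0 + C * 0 ^ 2)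
      (Or.inl (by rw [hA']; exact hA.ne'))).comp (0:ℝ) (hP 0)
    have h2 : HasDerivAt (fun s : ℝ => B + 2 * C * s) (2 * C) 0 := by
      simpa using ((hasDerivAt_id (0:ℝ)).const_mul (2 * C)).const_add B
    have h3 := (h1.const_mul (((-(q:ℤ) : ℤ)) : ℝ)).mul h2
    refine h3.congr_deriv ?_
    simp only [Function.comp, hA']
    have e1 : (-(q:ℤ) - 1 - 1 : ℤ) = -(q:ℤ) - 2 := by ring
    rw [e1]
    push_cast
    ring

/-- second derivative of `f` along a line -/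
private theorem line_deriv {n : ℕ} (f : EC n → ℝ) (hf : ContDiff ℝ 2 f) (z ξ : EC n) :
    (∀ s : ℝ, HasDerivAt (fun s : ℝ => f (z + s • ξ)) (fderiv ℝ f (z + s • ξ) ξ) s) ∧
    HasDerivAt (fun s : ℝ => fderiv ℝ f (z + s • ξ) ξ) (D2 f z ξ ξ) 0 := by
  have hl : ∀ s : ℝ, HasDerivAt (fun s : ℝ => z + s • ξ) ξ s := by
    intro s
    have := ((hasDerivAt_id s).smul_const ξ).const_add z
    simpa using this
  have hd : Differentiable ℝ f := hf.differentiable (by norm_num)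
  have hd2 : Differentiable ℝ (fderiv ℝ f) :=
    (hf.fderiv_right (m := 1) (by norm_num)).differentiable (by norm_num)
  constructor
  · intro s
    exact (hd (z + s • ξ)).hasFDerivAt.comp_hasDerivAt s (hl s)
  · have h1 : HasDerivAt (fun s : ℝ => fderiv ℝ f (z + s • ξ)) (fderiv ℝ (fderiv ℝ f) z ξ) 0 := by
      have h2 : HasFDerivAt (fderiv ℝ f) (fderiv ℝ (fderiv ℝ f) z) (z + (0:ℝ) • ξ) := by
        rw [zero_smul, add_zero]
        exact (hd2 z).hasFDerivAt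
      exact h2.comp_hasDerivAt (0:ℝ) (hl 0)
    have h3 := h1.clm_apply (hasDerivAt_const (0:ℝ) ξ)
    refine h3.congr_deriv ?_
    simp [D2]

/-- key inequality at a minimum -/
private theorem at_min {n : ℕ} (q : ℕ) (f : EC n → ℝ) (hf : ContDiff ℝ 2 f) (x z : EC n) (hzx : z ≠ x)
    (c : ℝ) (hmin : IsLocalMin (fun w => f w - c * (‖w - x‖ ^ 2) ^ (-(q:ℤ))) z) (ξ : EC n) :
    c * ((q : ℝ) * (q + 1) * (‖z - x‖ ^ 2) ^ (-(q:ℤ) - 2) * (2 * (inner ℂ (z - x) ξ : ℂ).re) ^ 2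
      - 2 * q * (‖z - x‖ ^ 2) ^ (-(q:ℤ) - 1) * ‖ξ‖ ^ 2) ≤ D2 f z ξ ξ := by
  have hA : 0 < ‖z - x‖ ^ 2 := by
    have : 0 < ‖z - x‖ := norm_pos_iff.2 (sub_ne_zero.2 hzx)
    positivity
  obtain ⟨h', h1, h2⟩ := barrier_line q (‖z - x‖ ^ 2) (2 * (inner ℂ (z - x) ξ : ℂ).re)
    (‖ξ‖ ^ 2) hA
  obtain ⟨h3, h4⟩ := line_deriv f hf z ξ
  have hexp : ∀ s : ℝ, ‖(z + s • ξ) - x‖ ^ 2 =
      ‖z - x‖ ^ 2 + (2 * (inner ℂ (z - x) ξ : ℂ).re) * s + ‖ξ‖ ^ 2 * s ^ 2 := by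
    intro s
    have e1 : (z + s • ξ) - x = (z - x) + (s : ℂ) • ξ := by
      rw [Complex.coe_smul]; abel
    rw [e1, @norm_add_sq ℂ, inner_smul_right, norm_smul, Complex.norm_real]
    have e2 : (RCLike.re ((s : ℂ) * inner ℂ (z - x) ξ) : ℝ) = s * (inner ℂ (z - x) ξ : ℂ).re := by
      simp
    rw [e2, mul_pow, Real.norm_eq_abs, sq_abs]
    ring
  have hφmin : IsLocalMin (fun s : ℝ => f (z + s • ξ) -
      c * (‖z - x‖ ^ 2 + (2 * (inner ℂ (z - x) ξ : ℂ).re) * s + ‖ξ‖ ^ 2 * s ^ 2) ^ (-(q:ℤ))) 0 := by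
    have hc : Tendsto (fun s : ℝ => z + s • ξ) (𝓝 0) (𝓝 z) := by
      have : ContinuousAt (fun s : ℝ => z + s • ξ) 0 := by fun_prop
      have h5 : Tendsto (fun s : ℝ => z + s • ξ) (𝓝 0) (𝓝 (z + (0:ℝ) • ξ)) := this
      rwa [zero_smul, add_zero] at h5
    have h6 := hc.eventually hmin
    filter_upwards [h6] with s hs
    rw [hexp] at hs
    simp only [mul_zero, add_zero, zero_smul, ne_eq, OfNat.ofNat_ne_zero, not_false_eq_true,
      zero_pow]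
    exact hs
  have h7 := snd_nec _ (fun s => fderiv ℝ f (z + s • ξ) ξ - c * h' s) _
    (h1.mono fun s hs => (h3 s).sub (hs.const_mul c)) (h4.sub (h2.const_mul c)) hφmin
  linarith

/-- the barrier is a strict subsolution, so there is no interior minimum -/
private theorem no_min {n : ℕ} (q : ℕ) (hq : 0 < q) (C0 C1 : ℝ) (hC0 : 0 < C0) (hq2 : C0 * C1 < q + 1)
    (P : EC n →ₗ[ℂ] EC n) (hP1 : ∑ k : Fin n, ‖P (bv k)‖ ^ 2 ≤ C1)
    (hP2 : ∀ x, ‖x‖ ^ 2 ≤ C0 * ∑ k : Fin n, ‖inner ℂ x (P (bv k))‖ ^ 2)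
    (f : EC n → ℝ) (hf : ContDiff ℝ 2 f) (x z : EC n) (hzx : z ≠ x) (hL : Lop P f z ≤ 0)
    (c : ℝ) (hc : 0 < c) : ¬ IsLocalMin (fun w => f w - c * (‖w - x‖ ^ 2) ^ (-(q:ℤ))) z := by
  intro hmin
  have hA : 0 < ‖z - x‖ ^ 2 := by
    have : 0 < ‖z - x‖ := norm_pos_iff.2 (sub_ne_zero.2 hzx)
    positivity
  set A : ℝ := ‖z - x‖ ^ 2 with hAdef
  have hq0 : (0:ℝ) < q := by exact_mod_cast hq
  set D : ℝ := A ^ (-(q:ℤ) - 2) with hD
  have hDpos : 0 < D := zpow_pos hA _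
  have hD1 : A ^ (-(q:ℤ) - 1) = D * A := by
    rw [hD, ← zpow_add_one₀ hA.ne']
    congr 1
    ring
  have hlevi : ∀ ξ : EC n, c * q * D * ((q + 1) * ‖inner ℂ (z - x) ξ‖ ^ 2 - A * ‖ξ‖ ^ 2) ≤
      levi f z ξ := by
    intro ξ
    have h1 := at_min q f hf x z hzx c hmin ξ
    have h2 := at_min q f hf x z hzx c hmin (Complex.I • ξ)
    rw [← hAdef, hD1, ← hD] at h1 h2
    have e1 : (inner ℂ (z - x) (Complex.I • ξ) : ℂ).re = -(inner ℂ (z - x) ξ : ℂ).im := by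
      rw [inner_smul_right, Complex.mul_re, Complex.I_re, Complex.I_im]; ring
    have e2 : ‖Complex.I • ξ‖ = ‖ξ‖ := by rw [norm_smul]; simp
    rw [e1, e2] at h2
    have e3 : ‖inner ℂ (z - x) ξ‖ ^ 2 = (inner ℂ (z - x) ξ : ℂ).re ^ 2 +
        (inner ℂ (z - x) ξ : ℂ).im ^ 2 := by
      rw [Complex.sq_norm, Complex.normSq_apply]; ring
    rw [e3]
    unfold levi
    nlinarith
  have hsum : c * q * D * ((q + 1) * ∑ k : Fin n, ‖inner ℂ (z - x) (P (bv k))‖ ^ 2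
      - A * ∑ k : Fin n, ‖P (bv k)‖ ^ 2) ≤ Lop P f z := by
    unfold Lop
    refine le_trans (le_of_eq ?_) (Finset.sum_le_sum fun k _ => hlevi (P (bv k)))
    rw [← Finset.mul_sum, Finset.sum_sub_distrib, ← Finset.mul_sum, ← Finset.mul_sum]
  have h5 := hP2 (z - x)
  rw [← hAdef] at h5
  set S : ℝ := ∑ k : Fin n, ‖inner ℂ (z - x) (P (bv k))‖ ^ 2 with hS
  have h6 : 0 < (q + 1) * S - A * ∑ k : Fin n, ‖P (bv k)‖ ^ 2 := by
    have h7 : A * ∑ k : Fin n, ‖P (bv k)‖ ^ 2 ≤ A * C1 := mul_le_mul_of_nonneg_left hP1 hA.le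
    have h8 : A * C1 < (q + 1) * S := by
      have hSpos : 0 < S := by
        by_contra hS0
        push Not at hS0
        have : C0 * S ≤ 0 := mul_nonpos_of_nonneg_of_nonpos hC0.le hS0
        linarith
      have hC1' : 0 ≤ C1 := le_trans (Finset.sum_nonneg fun k _ => by positivity) hP1
      calc A * C1 ≤ (C0 * S) * C1 := mul_le_mul_of_nonneg_right h5 hC1'
        _ = (C0 * C1) * S := by ring
        _ < (q + 1) * S := mul_lt_mul_of_pos_right hq2 hSpos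
    linarith
  have h9 : 0 < c * q * D * ((q + 1) * S - A * ∑ k : Fin n, ‖P (bv k)‖ ^ 2) := by positivity
  linarith

/-- J13b: propagation of positivity -/
theorem propag (n : ℕ) (hn : 0 < n) (C0 C1 : ℝ) (hC0 : 0 < C0) (hC1 : 0 < C1) : ∃ γ0 : ℝ, 0 < γ0 ∧ γ0 < 1 ∧
    ∀ (P : EC n → (EC n →ₗ[ℂ] EC n)), (∀ z, ∑ k : Fin n, ‖P z (bv k)‖ ^ 2 ≤ C1) →
    (∀ z x, ‖x‖ ^ 2 ≤ C0 * ∑ k : Fin n, ‖inner ℂ x (P z (bv k))‖ ^ 2) →
    ∀ f : EC n → ℝ, ContDiff ℝ 2 f → (∀ z, 0 ≤ f z) → (∀ z, Lop (P z) f z ≤ 0) →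
    ∀ (x : EC n) (r t : ℝ), 0 < r → 0 < t → (∀ y ∈ ball x r, t ≤ f y) → ∀ y ∈ ball x (4 * r), γ0 * t ≤ f y := by
  obtain ⟨q0, hq0⟩ := exists_nat_gt (C0 * C1)
  set q : ℕ := q0 + 1 with hqdef
  have hq : 0 < q := by omega
  have hq2 : C0 * C1 < (q : ℝ) + 1 := by rw [hqdef]; push_cast; linarith
  -- constants
  set α : ℝ := (16:ℝ) ^ (-(q:ℤ)) with hα
  set β : ℝ := (64:ℝ) ^ (-(q:ℤ)) with hβ
  set δ : ℝ := (1 / 4 : ℝ) ^ (-(q:ℤ)) with hδ
  have hβpos : 0 < β := zpow_pos (by norm_num) _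
  have hanti : ∀ a b : ℝ, 0 < a → a < b → b ^ (-(q:ℤ)) < a ^ (-(q:ℤ)) := by
    intro a b ha hab
    rw [zpow_neg, zpow_neg, zpow_natCast, zpow_natCast]
    have h1 : a ^ q < b ^ q := pow_lt_pow_left₀ hab ha.le hq.ne'
    have hb : 0 < b := ha.trans hab
    exact (inv_lt_inv₀ (by positivity) (by positivity)).2 h1
  have hαβ : β < α := hanti 16 64 (by norm_num) (by norm_num)
  have hαδ : α < δ := hanti (1 / 4) 16 (by norm_num) (by norm_num)
  refine ⟨(α - β) / (δ - β), div_pos (by linarith) (by linarith), ?_, ?_⟩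
  · rw [div_lt_one (by linarith)]; linarith
  intro P hP1 hP2 f hf hf0 hL x r t hr ht hfr y hy
  have hrr : 0 < r ^ 2 := by positivity
  set ρ : ℝ := (r ^ 2) ^ (-(q:ℤ)) with hρ
  have hρpos : 0 < ρ := zpow_pos hrr _
  set c : ℝ := t / (ρ * (δ - β)) with hc
  have hcpos : 0 < c := div_pos ht (mul_pos hρpos (by linarith))
  have hcmul : c * (ρ * (δ - β)) = t := by
    rw [hc]
    exact div_mul_cancel₀ t (mul_pos hρpos (by linarith)).ne'
  have hsphere : ∀ (a : ℝ), (a * r ^ 2) ^ (-(q:ℤ)) = a ^ (-(q:ℤ)) * ρ := by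
    intro a; rw [mul_zpow]
  -- comparison
  set F : EC n → ℝ := fun w => f w - c * (‖w - x‖ ^ 2) ^ (-(q:ℤ)) with hF
  have hcomp : ∀ w : EC n, r / 2 ≤ ‖w - x‖ → ‖w - x‖ ≤ 8 * r → -(c * (β * ρ)) ≤ F w := by
    set K : Set (EC n) := closedBall x (8 * r) \ ball x (r / 2) with hK
    have hKc : IsCompact K := (isCompact_closedBall x (8 * r)).diff isOpen_ball
    have hmemK : ∀ w, w ∈ K ↔ ‖w - x‖ ≤ 8 * r ∧ r / 2 ≤ ‖w - x‖ := by
      intro w
      rw [hK, Set.mem_sdiff, mem_closedBall, mem_ball, dist_eq_norm, not_lt]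
    have hFc : ContinuousOn F K := by
      have h1 : ContinuousOn (fun w : EC n => (‖w - x‖ ^ 2) ^ (-(q:ℤ))) K := by
        refine ContinuousOn.zpow₀ (by fun_prop) _ ?_
        intro w hw
        left
        have := ((hmemK w).1 hw).2
        have h2 : 0 < ‖w - x‖ := by linarith
        positivity
      exact hf.continuous.continuousOn.sub (continuousOn_const.mul h1)
    intro w hw1 hw2
    have hwK : w ∈ K := (hmemK w).2 ⟨hw2, hw1⟩
    obtain ⟨z0, hz0, hmin⟩ := hKc.exists_isMinOn ⟨w, hwK⟩ hFc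
    refine le_trans ?_ (hmin hwK)
    obtain ⟨hz1, hz2⟩ := (hmemK z0).1 hz0
    rcases hz1.eq_or_lt with h8 | h8
    · -- outer sphere
      have e1 : ‖z0 - x‖ ^ 2 = 64 * r ^ 2 := by rw [h8]; ring
      rw [hF]
      show _ ≤ f z0 - c * (‖z0 - x‖ ^ 2) ^ (-(q:ℤ))
      rw [e1, hsphere, ← hβ]
      linarith [hf0 z0]
    rcases hz2.eq_or_lt with h9 | h9
    · -- inner sphere
      have e1 : ‖z0 - x‖ ^ 2 = (1 / 4) * r ^ 2 := by rw [← h9]; ring
      have e2 : t ≤ f z0 := hfr z0 (by rw [mem_ball, dist_eq_norm, ← h9]; linarith)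
      rw [hF]
      show _ ≤ f z0 - c * (‖z0 - x‖ ^ 2) ^ (-(q:ℤ))
      rw [e1, hsphere, ← hδ]
      have e3 : c * (δ * ρ) - c * (β * ρ) = t := by rw [← hcmul]; ring
      linarith
    · exfalso
      have hne : z0 ≠ x := by
        intro h
        rw [h, sub_self, norm_zero] at h9
        linarith
      refine no_min q hq C0 C1 hC0 hq2 (P z0) (hP1 z0) (hP2 z0) f hf x z0 hne (hL z0) c hcpos ?_
      refine IsMinOn.isLocalMin hmin ?_
      rw [hK]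
      have hcn : Continuous (fun w : EC n => ‖w - x‖) := by fun_prop
      have o1 : IsOpen {w : EC n | ‖w - x‖ < 8 * r ∧ r / 2 < ‖w - x‖} :=
        (isOpen_lt hcn continuous_const).inter (isOpen_lt continuous_const hcn)
      refine mem_of_superset (o1.mem_nhds ⟨h8, h9⟩) ?_
      rintro w ⟨hw3, hw4⟩
      exact (hmemK w).2 ⟨hw3.le, hw4.le⟩
  rw [mem_ball, dist_eq_norm] at hy
  rcases lt_or_ge ‖y - x‖ r with h1 | h1
  · have h2 := hfr y (by rw [mem_ball, dist_eq_norm]; exact h1)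
    have h3 : (α - β) / (δ - β) < 1 := by rw [div_lt_one (by linarith)]; linarith
    nlinarith
  · have h2 := hcomp y (by linarith) (by linarith)
    have h3 : f y ≥ c * ((‖y - x‖ ^ 2) ^ (-(q:ℤ))) - c * (β * ρ) := by
      have : F y = f y - c * (‖y - x‖ ^ 2) ^ (-(q:ℤ)) := rfl
      linarith
    have h4 : α * ρ ≤ (‖y - x‖ ^ 2) ^ (-(q:ℤ)) := by
      rw [hα, ← hsphere]
      refine (hanti (‖y - x‖ ^ 2) (16 * r ^ 2) ?_ ?_).le
      · have : 0 < ‖y - x‖ := by linarith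
        positivity
      · have : ‖y - x‖ ^ 2 < (4 * r) ^ 2 := pow_lt_pow_left₀ hy (norm_nonneg _) two_ne_zero
        nlinarith
    have h5 : c * (α * ρ) ≤ c * (‖y - x‖ ^ 2) ^ (-(q:ℤ)) := mul_le_mul_of_nonneg_left h4 hcpos.le
    have h6 : (α - β) / (δ - β) * t = c * (α * ρ) - c * (β * ρ) := by
      have : δ - β ≠ 0 := by
        have : 0 < δ - β := by linarith
        exact this.ne'
      rw [hc]
      field_simp
    rw [h6]
    linarith

end CMAL
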