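import Mathlib
import Pool.Agent.Helper706.CMA.Base
import Pool.Agent.Helper706.CMA.Basic
import Pool.Agent.Helper706.CMA.HessBound
import Pool.Agent.Helper706.CMA.AmgmFrame
import Pool.Agent.Helper706.CMA.InvBound
import Pool.Agent.Helper706.CMA.Gl1
import Pool.Agent.Helper706.CMA.Propag
import Pool.Agent.Helper706.CMA.InkSpots
import Pool.Agent.Helper706.CMA.AvgLim
import Pool.Agent.Helper706.CMA.AvgCavLevi
import Pool.Agent.Helper706.CMA.FrameRigid
import Pool.Agent.Helper706.CMA.Cav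
import Pool.Agent.Helper706.CMA.LopCav
import Pool.Agent.Helper706.CMA.LeCav
import Pool.Agent.Helper706.CMA.CavTendsto
import Pool.Agent.Helper706.CMA.PluriQuad
import Pool.Agent.Helper706.CMA.PolyForm
open MeasureTheory Metric Set Filter Topology
open scoped ENNReal ComplexOrder
noncomputable section
namespace CMAL

theorem levi_nonneg_of_frame {n : ℕ} (u : EC n → ℝ)
    (hfr : ∀ z, ∃ R : EC n →ₗ[ℂ] EC n, ‖LinearMap.det R‖ = 1 ∧ ∀ ξ, levi u z ξ = ‖R ξ‖ ^ 2) (z ξ : EC n) :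
    0 ≤ levi u z ξ := by
  obtain ⟨R, _, hR⟩ := hfr z
  rw [hR]; positivity

theorem continuous_D2 {n : ℕ} (u : EC n → ℝ) (hu : ContDiff ℝ 2 u) : Continuous (D2 u) := by
  unfold D2
  have h1 : ContDiff ℝ 1 (fderiv ℝ u) := hu.fderiv_right (m := 1) (by norm_num)
  exact h1.continuous_fderiv (by norm_num)

theorem continuous_levi {n : ℕ} (u : EC n → ℝ) (hu : ContDiff ℝ 2 u) (ξ : EC n) : Continuous (fun z => levi u z ξ) := by
  unfold levi
  have h := continuous_D2 u hu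
  fun_prop

theorem Lop_const {n : ℕ} (P : EC n →ₗ[ℂ] EC n) (a : ℝ) (z : EC n) : Lop P (fun _ => a) z = 0 := by
  unfold Lop levi D2
  simp

/-- superlevel density of `S - w` -/
theorem dens_zero {n : ℕ} (hn : 0 < n) (P : EC n → (EC n →ₗ[ℂ] EC n)) (C0 C1 : ℝ) (hC0 : 0 < C0) (hC1 : 0 < C1)
    (hP : ∀ z, ‖LinearMap.det (P z)‖ = 1) (hP1 : ∀ z, ∑ k : Fin n, ‖P z (bv k)‖ ^ 2 ≤ C1)
    (hP2 : ∀ z x, ‖x‖ ^ 2 ≤ C0 * ∑ k : Fin n, ‖inner ℂ x (P z (bv k))‖ ^ 2)
    (f : EC n → ℝ) (hf : ContDiff ℝ 2 f) (hf0 : ∀ z, 0 ≤ f z) (hL : ∀ z, Lop (P z) f z ≤ 0)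
    (hinf : ∀ ε > 0, ∃ x, f x < ε) (t : ℝ) (ht : 0 < t) :
    Tendsto (fun R : ℝ => volume (ball (0 : EC n) R ∩ {z | t ≤ f z}) / volume (ball (0 : EC n) R)) atTop (𝓝 0) := by
  obtain ⟨μ1, hμ0, hμ1, hgl⟩ := gl1 n hn C1 hC1
  obtain ⟨γ0, hγ0, hγ1, hpr⟩ := propag n hn C0 C1 hC0 hC1
  haveI : Nonempty (Fin n) := ⟨⟨0, hn⟩⟩
  haveI : Nontrivial (EC n) := by
    refine ⟨0, bv ⟨0, hn⟩, ?_⟩
    intro h
    have h1 := norm_bv (⟨0, hn⟩ : Fin n)
    rw [← h] at h1; simp at h1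
  refine inkspots (volume : Measure (EC n)) f hf.continuous hf0 μ1 (γ0 / 2) hμ0 hμ1 (by linarith) (by linarith) ?_ hinf t ht
  intro x r s hr hs hmeas y hy
  have h1 := hgl P hP hP1 f hf hf0 hL x r s hr hs hmeas
  have h2 := hpr P hP1 hP2 f hf hf0 hL x (r / 2) (s / 2) (by linarith) (by linarith) h1 y (by
    have : 4 * (r / 2) = 2 * r := by ring
    rw [this]; exact hy)
  linarith

theorem const_levi {n : ℕ} (hn : 0 < n) (u : EC n → ℝ) (hu : ContDiff ℝ 2 u)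
    (hfr : ∀ z, ∃ R : EC n →ₗ[ℂ] EC n, ‖LinearMap.det R‖ = 1 ∧ ∀ ξ, levi u z ξ = ‖R ξ‖ ^ 2)
    (K : ℝ) (hK : 0 < K) (wb : ∀ τ : EC n, ‖τ‖ ≤ 1 → ∀ z, cav u τ z - u z ≤ K * ‖τ‖ ^ 2)
    (C : ℝ) (hC : ∀ z, |u z| ≤ C * (1 + ‖z‖ ^ 2)) :
    ∃ G : EC n → ℝ, ∀ z ξ, levi u z ξ = G ξ := by
  have hl := levi_nonneg_of_frame u hfr
  have hb := hess_bound u hu K wb
  obtain ⟨C1, hC1, hinv⟩ := inv_bound n K hK
  choose Rf hRdet hRf using hfr
  have hRb : ∀ z ξ, ‖Rf z ξ‖ ^ 2 ≤ K * ‖ξ‖ ^ 2 := fun z ξ => by rw [← hRf]; exact hb z ξ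
  choose Pf hPf hPdet hP1 hP2 using fun z => hinv (Rf z) (hRdet z) (hRb z)
  -- cutoff
  let χb : ContDiffBump (0 : EC n) := ⟨1, 2, one_pos, one_lt_two⟩
  set χ : EC n → ℝ := fun z => χb z with hχdef
  have hχC : ContDiff ℝ 2 χ := χb.contDiff
  have hχ0 : ∀ z, 0 ≤ χ z := fun z => χb.nonneg
  have hχc : HasCompactSupport χ := χb.hasCompactSupport
  have hχpos : 0 < ∫ z, χ z := χb.integral_pos
  have hχint : ∀ R : ℝ, 0 < R → ∀ g : EC n → ℝ, Continuous g → Integrable (fun z => χ ((R⁻¹ : ℝ) • z) * g z) := by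
    intro R hR g hg
    have hcs : HasCompactSupport (fun z : EC n => χ ((R⁻¹ : ℝ) • z)) :=
      hχc.comp_homeomorph (Homeomorph.smulOfNeZero (R⁻¹ : ℝ) (by positivity))
    have hcont : Continuous (fun z : EC n => χ ((R⁻¹ : ℝ) • z)) := hχC.continuous.comp (continuous_const_smul _)
    exact (hcont.mul hg).integrable_of_hasCompactSupport hcs.mul_right
  have hχR : ∀ R : ℝ, 0 < R → 0 < ∫ z, χ ((R⁻¹ : ℝ) • z) := by
    intro R hR
    rw [Measure.integral_comp_smul]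
    positivity
  -- S τ
  have hw0 : ∀ τ z, 0 ≤ cav u τ z - u z := fun τ z => by have := le_cav u hu hl τ z; linarith
  have hwcd : ∀ τ, ContDiff ℝ 2 (fun z => cav u τ z - u z) := fun τ => (cav_contDiff u hu τ).sub hu
  set S : EC n → ℝ := fun τ => sSup (range (fun z => cav u τ z - u z)) with hS
  have hbdd : ∀ τ, ‖τ‖ ≤ 1 → BddAbove (range (fun z => cav u τ z - u z)) := by
    intro τ hτ
    refine ⟨K * ‖τ‖ ^ 2, ?_⟩
    rintro _ ⟨z, rfl⟩
    exact wb τ hτ z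
  have hwS : ∀ τ, ‖τ‖ ≤ 1 → ∀ z, cav u τ z - u z ≤ S τ := fun τ hτ z => le_csSup (hbdd τ hτ) ⟨z, rfl⟩
  have havg : ∀ τ : EC n, ‖τ‖ ≤ 1 → Tendsto (fun R : ℝ => (∫ z, χ ((R⁻¹ : ℝ) • z) * (cav u τ z - u z)) / (∫ z, χ ((R⁻¹ : ℝ) • z)))
      atTop (𝓝 (S τ)) := by
    intro τ hτ
    set f : EC n → ℝ := fun z => S τ - (cav u τ z - u z) with hf
    have hfC : ContDiff ℝ 2 f := contDiff_const.sub (hwcd τ)
    have hf0 : ∀ z, 0 ≤ f z := fun z => by have := hwS τ hτ z; show 0 ≤ S τ - (cav u τ z - u z); linarith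
    have hfS : ∀ z, f z ≤ S τ := fun z => by have := hw0 τ z; show S τ - (cav u τ z - u z) ≤ S τ; linarith
    have hLf : ∀ z, Lop (Pf z) f z ≤ 0 := by
      intro z
      have e1 := Lop_sub (Pf z) (fun _ => S τ) (fun z => cav u τ z - u z) contDiff_const (hwcd τ) z
      have e2 := Lop_sub (Pf z) (cav u τ) u (cav_contDiff u hu τ) hu z
      have e3 : (n : ℝ) ≤ Lop (Pf z) (cav u τ) z := lop_cav u hu (fun z => ⟨Rf z, hRdet z, hRf z⟩) (Pf z) (hPdet z) τ z
      have e4 : Lop (Pf z) u z = n := lop_self u z (Rf z) (Pf z) (hRf z) (hPf z)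
      rw [Lop_const, e2] at e1
      show Lop (Pf z) (fun z => S τ - (cav u τ z - u z)) z ≤ 0
      rw [e1]; linarith
    have hinf : ∀ ε > 0, ∃ x, f x < ε := by
      intro ε hε
      have hne : (range (fun z => cav u τ z - u z)).Nonempty := ⟨_, ⟨0, rfl⟩⟩
      obtain ⟨_, ⟨x, rfl⟩, hx⟩ := exists_lt_of_lt_csSup hne (show S τ - ε < S τ by linarith)
      refine ⟨x, ?_⟩
      show S τ - (cav u τ x - u x) < ε
      have hx' : S τ - ε < cav u τ x - u x := hx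
      linarith
    have hden := dens_zero hn Pf K C1 hK hC1 hPdet hP1 hP2 f hfC hf0 hLf hinf
    have h1 := avg_lim hn χ hχC.continuous hχ0 hχc hχpos f hfC.continuous (S τ) hf0 hfS hden
    have h2 : Tendsto (fun R : ℝ => S τ - (∫ z, χ ((R⁻¹ : ℝ) • z) * f z) / (∫ z, χ ((R⁻¹ : ℝ) • z))) atTop (𝓝 (S τ - 0)) :=
      h1.const_sub _
    rw [sub_zero] at h2
    refine h2.congr' ?_
    filter_upwards [eventually_gt_atTop (0:ℝ)] with R hR
    have hI := hχR R hR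
    have e5 : ∫ z, χ ((R⁻¹ : ℝ) • z) * f z = S τ * (∫ z, χ ((R⁻¹ : ℝ) • z)) - ∫ z, χ ((R⁻¹ : ℝ) • z) * (cav u τ z - u z) := by
      rw [← integral_const_mul, ← integral_sub]
      · apply integral_congr_ae
        filter_upwards with z
        show χ ((R⁻¹ : ℝ) • z) * (S τ - (cav u τ z - u z)) = _
        ring
      · have := hχint R hR (fun _ => S τ) continuous_const
        refine this.congr ?_
        filter_upwards with z
        ring
      · exact hχint R hR _ (hwcd τ).continuous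
    rw [e5, sub_div, mul_div_assoc, div_self hI.ne', mul_one]
    ring
  -- average of levi
  set A : ℝ → EC n → ℝ := fun R e => (∫ z, χ ((R⁻¹ : ℝ) • z) * levi u z e) / (∫ z, χ ((R⁻¹ : ℝ) • z)) with hA
  have hAδ : ∀ (e : EC n) (δ : ℝ), 0 < δ → ‖((δ : ℂ) • e : EC n)‖ ≤ 1 → Tendsto (fun R => A R e) atTop (𝓝 (S ((δ : ℂ) • e) / δ ^ 2)) := by
    intro e δ hδ hle
    have h1 := (havg _ hle).div_const (δ ^ 2)
    have h2 := avg_cav_levi hn u χ hu hχC hχ0 hχc hχpos C hC e δ hδ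
    have h3 := h1.sub h2
    rw [sub_zero] at h3
    refine h3.congr' ?_
    filter_upwards [eventually_gt_atTop (0:ℝ)] with R hR
    have hI := hχR R hR
    have e6 : ∫ z, χ ((R⁻¹ : ℝ) • z) * ((cav u ((δ : ℂ) • e) z - u z) / δ ^ 2) = (∫ z, χ ((R⁻¹ : ℝ) • z) * (cav u ((δ : ℂ) • e) z - u z)) / δ ^ 2 := by
      rw [← integral_div]
      apply integral_congr_ae
      filter_upwards with z
      ring
    rw [e6, hA]
    field_simp
    ring
  set δe : EC n → ℝ := fun e => 1 / (1 + ‖e‖) with hδe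
  have hδepos : ∀ e, 0 < δe e := fun e => by rw [hδe]; positivity
  have hnorm : ∀ (e : EC n) (δ : ℝ), 0 < δ → ‖((δ : ℂ) • e : EC n)‖ = δ * ‖e‖ := by
    intro e δ hδ
    rw [norm_smul, Complex.norm_real, Real.norm_of_nonneg hδ.le]
  have hδele : ∀ (e : EC n) (δ : ℝ), 0 < δ → δ ≤ δe e → ‖((δ : ℂ) • e : EC n)‖ ≤ 1 := by
    intro e δ hδ hle
    rw [hnorm e δ hδ]
    have h1 : δ * ‖e‖ ≤ δe e * ‖e‖ := mul_le_mul_of_nonneg_right hle (norm_nonneg _)
    have h2 : δe e * ‖e‖ ≤ 1 := by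
      show 1 / (1 + ‖e‖) * ‖e‖ ≤ 1
      rw [one_div, inv_mul_le_iff₀ (by positivity)]; linarith [norm_nonneg e]
    linarith
  set G : EC n → ℝ := fun e => S ((δe e : ℂ) • e) / (δe e) ^ 2 with hG
  have hAG : ∀ e, Tendsto (fun R => A R e) atTop (𝓝 (G e)) := fun e =>
    hAδ e (δe e) (hδepos e) (hδele e _ (hδepos e) le_rfl)
  have hSG : ∀ (e : EC n) (δ : ℝ), 0 < δ → δ ≤ δe e → S ((δ : ℂ) • e) / δ ^ 2 = G e := fun e δ hδ hle =>
    tendsto_nhds_unique (hAδ e δ hδ (hδele e δ hδ hle)) (hAG e)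
  have hleG : ∀ z e, levi u z e ≤ G e := by
    intro z e
    refine le_of_tendsto (cav_tendsto u hu z e) ?_
    filter_upwards [Ioo_mem_nhdsGT (hδepos e)] with δ hδ
    rw [← hSG e δ hδ.1 hδ.2.le]
    apply div_le_div_of_nonneg_right _ (by positivity)
    exact hwS _ (hδele e δ hδ.1 hδ.2.le) z
  have hlint : ∀ R : ℝ, 0 < R → ∀ e, Integrable (fun z => χ ((R⁻¹ : ℝ) • z) * levi u z e) := fun R hR e =>
    hχint R hR _ (continuous_levi u hu e)
  have hpar : ∀ x y, G (x + y) + G (x - y) = 2 * G x + 2 * G y := by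
    intro x y
    have h1 := (hAG (x + y)).add (hAG (x - y))
    have h2 := ((hAG x).const_mul 2).add ((hAG y).const_mul 2)
    refine tendsto_nhds_unique h1 (h2.congr' ?_)
    filter_upwards [eventually_gt_atTop (0:ℝ)] with R hR
    have hI := hχR R hR
    have e7 : (∫ z, χ ((R⁻¹ : ℝ) • z) * levi u z (x + y)) + (∫ z, χ ((R⁻¹ : ℝ) • z) * levi u z (x - y)) =
        2 * (∫ z, χ ((R⁻¹ : ℝ) • z) * levi u z x) + 2 * (∫ z, χ ((R⁻¹ : ℝ) • z) * levi u z y) := by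
      rw [← integral_const_mul, ← integral_const_mul, ← integral_add (hlint R hR _) (hlint R hR _),
        ← integral_add ((hlint R hR _).const_mul _) ((hlint R hR _).const_mul _)]
      apply integral_congr_ae
      filter_upwards with z
      have h3 : levi u z (x + y) + levi u z (x - y) = 2 * levi u z x + 2 * levi u z y := by
        simp only [hRf, map_add, map_sub]
        have := parallelogram_law_with_norm ℂ (Rf z x) (Rf z y)
        simp only [pow_two] at *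
        linarith
      have h4 : χ ((R⁻¹ : ℝ) • z) * levi u z (x + y) + χ ((R⁻¹ : ℝ) • z) * levi u z (x - y) =
        χ ((R⁻¹ : ℝ) • z) * (levi u z (x + y) + levi u z (x - y)) := by ring
      rw [h4, h3]; ring
    show 2 * A R x + 2 * A R y = A R (x + y) + A R (x - y)
    simp only [hA]
    rw [← add_div, e7]
    ring
  have hhom : ∀ (a : ℂ) x, G (a • x) = ‖a‖ ^ 2 * G x := by
    intro a x
    refine tendsto_nhds_unique (hAG (a • x)) (((hAG x).const_mul (‖a‖ ^ 2)).congr ?_)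
    intro R
    simp only [hA]
    rw [← mul_div_assoc, ← integral_const_mul]
    congr 1
    apply integral_congr_ae
    filter_upwards with z
    simp only [hRf, map_smul, norm_smul]
    ring
  have happ : ∀ ε > 0, ∃ z, ∀ k : Fin n, G (bv k) - ε ≤ levi u z (bv k) := by
    intro ε hε
    by_contra hcon
    push Not at hcon
    have h1 : ∀ z, ∑ k : Fin n, levi u z (bv k) ≤ ∑ k : Fin n, G (bv k) - ε := by
      intro z
      obtain ⟨k, hk⟩ := hcon z
      have h2 : ∑ j : Fin n, levi u z (bv j) = levi u z (bv k) + ∑ j ∈ Finset.univ.erase k, levi u z (bv j) :=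
        (Finset.add_sum_erase _ _ (Finset.mem_univ k)).symm
      have h3 : ∑ j : Fin n, G (bv j) = G (bv k) + ∑ j ∈ Finset.univ.erase k, G (bv j) :=
        (Finset.add_sum_erase _ _ (Finset.mem_univ k)).symm
      have h4 : ∑ j ∈ Finset.univ.erase k, levi u z (bv j) ≤ ∑ j ∈ Finset.univ.erase k, G (bv j) :=
        Finset.sum_le_sum (fun j _ => hleG z _)
      rw [h2, h3]; linarith
    have h5 : Tendsto (fun R => ∑ k : Fin n, A R (bv k)) atTop (𝓝 (∑ k : Fin n, G (bv k))) :=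
      tendsto_finset_sum _ (fun k _ => hAG (bv k))
    have h6 : ∀ᶠ R in atTop, ∑ k : Fin n, A R (bv k) ≤ ∑ k : Fin n, G (bv k) - ε := by
      filter_upwards [eventually_gt_atTop (0:ℝ)] with R hR
      have hI := hχR R hR
      have e8 : ∑ k : Fin n, A R (bv k) = (∫ z, χ ((R⁻¹ : ℝ) • z) * ∑ k : Fin n, levi u z (bv k)) / (∫ z, χ ((R⁻¹ : ℝ) • z)) := by
        simp only [hA]
        rw [← Finset.sum_div, ← integral_finset_sum _ (fun k _ => hlint R hR (bv k))]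
        simp only [Finset.mul_sum]
      rw [e8, div_le_iff₀ hI, ← integral_const_mul]
      apply integral_mono
      · apply hχint R hR
        exact continuous_finset_sum _ (fun k _ => continuous_levi u hu _)
      · have := hχint R hR (fun _ => (∑ k : Fin n, G (bv k) - ε)) continuous_const
        refine this.congr ?_
        filter_upwards with z
        ring
      · intro z
        show χ ((R⁻¹ : ℝ) • z) * ∑ k : Fin n, levi u z (bv k) ≤ (∑ k : Fin n, G (bv k) - ε) * χ ((R⁻¹ : ℝ) • z)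
        rw [mul_comm]
        exact mul_le_mul_of_nonneg_right (h1 z) (hχ0 _)
    have h7 := le_of_tendsto h5 h6
    linarith
  refine ⟨G, fun z ξ => ?_⟩
  exact frame_rigid (levi u) (fun z => ⟨Rf z, hRdet z, hRf z⟩) G hleG hpar hhom happ z ξ

theorem D2_bilin {n : ℕ} (B : EC n →L[ℝ] EC n →L[ℝ] ℝ) (z x y : EC n) :
    D2 (fun w => B w w) z x y = B x y + B y x := by
  have h1 : fderiv ℝ (fun w => B w w) = fun w => (B + B.flip) w := by
    funext w
    have h2 : HasFDerivAt (fun w => B w w) (B w + B.flip w) w := by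
      have := (B.hasFDerivAt (x := w)).clm_apply (hasFDerivAt_id w)
      refine this.congr_fderiv ?_
      ext v
      simp
    rw [h2.fderiv]
    ext v; simp
  unfold D2
  rw [h1]
  have h3 : fderiv ℝ (fun w => (B + B.flip) w) z = B + B.flip := (B + B.flip).fderiv
  rw [h3]
  simp

theorem main_quadratic {n : ℕ} (hn : 0 < n) (u : EC n → ℝ) (hu : ContDiff ℝ 2 u)
    (hfr : ∀ z, ∃ R : EC n →ₗ[ℂ] EC n, ‖LinearMap.det R‖ = 1 ∧ ∀ ξ, levi u z ξ = ‖R ξ‖ ^ 2)
    (c C : ℝ) (hc : 0 < c) (hcC : c ≤ C)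
    (h1 : ∀ z, c * (1 + ‖z‖ ^ 2) ≤ u z) (h2 : ∀ z, u z ≤ C * (1 + ‖z‖ ^ 2)) :
    ∃ q : MvPolynomial (Fin n ⊕ Fin n) ℝ, q.totalDegree ≤ 2 ∧
      ∀ z, u z = MvPolynomial.eval (Sum.elim (fun k => (z k).re) (fun k => (z k).im)) q := by
  have hC : 0 < C := lt_of_lt_of_le hc hcC
  have hupos : ∀ z, 0 < u z := fun z => lt_of_lt_of_le (by positivity) (h1 z)
  have habs : ∀ z, |u z| ≤ C * (1 + ‖z‖ ^ 2) := fun z => by rw [abs_of_pos (hupos z)]; exact h2 z
  obtain ⟨K, hK, wb⟩ := cav_bound hn u hu hfr c C hc hcC h1 h2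
  obtain ⟨G, hG⟩ := const_levi hn u hu hfr K hK wb C habs
  -- I as a real continuous linear map
  set J : EC n →L[ℝ] EC n := (Complex.I • (ContinuousLinearMap.id ℂ (EC n))).restrictScalars ℝ with hJ
  have hJx : ∀ x, J x = Complex.I • x := fun x => rfl
  set B : EC n →L[ℝ] EC n →L[ℝ] ℝ := (1 / 4 : ℝ) • (D2 u 0 + (D2 u 0).bilinearComp J J) with hB
  have hBx : ∀ x y, B x y = (1 / 4) * (D2 u 0 x y + D2 u 0 (Complex.I • x) (Complex.I • y)) := by
    intro x y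
    simp [hB, hJx]
    ring
  have hII : ∀ x : EC n, Complex.I • (Complex.I • x) = -x := by
    intro x; rw [smul_smul, Complex.I_mul_I, neg_one_smul]
  set Q : EC n → ℝ := fun w => B w w with hQ
  have hQC : ContDiff ℝ 2 Q := by
    rw [hQ]; exact B.contDiff.clm_apply contDiff_id
  have hleviQ : ∀ z ξ, levi Q z ξ = levi u 0 ξ := by
    intro z ξ
    unfold levi
    rw [hQ, D2_bilin, D2_bilin, hBx, hBx, hII]
    simp
    ring
  set f : EC n → ℝ := fun z => u z - Q z with hf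
  have hfC : ContDiff ℝ 2 f := hu.sub hQC
  have hlf : ∀ z ξ, levi f z ξ = 0 := by
    intro z ξ
    have := levi_sub u Q hu hQC z ξ
    rw [hleviQ, hG z ξ, hG 0 ξ, sub_self] at this
    exact this
  have hfb : ∀ z, |f z| ≤ (C + ‖B‖) * (1 + ‖z‖ ^ 2) := by
    intro z
    have e1 : |Q z| ≤ ‖B‖ * (1 + ‖z‖ ^ 2) := by
      have e2 : ‖B z z‖ ≤ ‖B‖ * ‖z‖ * ‖z‖ := B.le_opNorm₂ z z
      rw [Real.norm_eq_abs] at e2
      refine e2.trans ?_
      have hB0 : 0 ≤ ‖B‖ := norm_nonneg B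
      have hz0 : 0 ≤ ‖z‖ := norm_nonneg z
      nlinarith [mul_nonneg hB0 hz0]
    calc |f z| ≤ |u z| + |Q z| := abs_sub _ _
      _ ≤ C * (1 + ‖z‖ ^ 2) + ‖B‖ * (1 + ‖z‖ ^ 2) := add_le_add (habs z) e1
      _ = (C + ‖B‖) * (1 + ‖z‖ ^ 2) := by ring
  have hquad := pluri_quad f hfC hlf (C + ‖B‖) hfb
  apply poly_form u (f 0) (fderiv ℝ f 0) ((1 / 2 : ℝ) • D2 f 0 + B)
  intro z
  have e3 := hquad z
  have e4 : u z = f z + B z z := by show u z = (u z - B z z) + B z z; ring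
  rw [e4, e3]
  simp
  ring

end CMAL
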